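import Pool.Agent.MSO.Targets

/-!
# MSO, target CON: cones are exact
-/

set_option autoImplicit false

namespace Pool.Agent.MSO

open Pool.Agent.MSN.Grp (sg eps T_SGN)

universe u

namespace CONE

theorem sg_sq {V : Type u} [LinearOrder V] (t : Finset V) (x : V) : sg t x * sg t x = 1 := by
  unfold sg
  rw [← pow_add, ← two_mul, pow_mul]
  simp

theorem sgc_sq {V : Type u} [LinearOrder V] {F : Type} [CommRing F] (t : Finset V) (x : V) :
    ((sg t x : ℤ) : F) * ((sg t x : ℤ) : F) = 1 := by
  have h := congrArg (Int.cast : ℤ → F) (sg_sq t x)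
  push_cast at h
  exact h

end CONE

/-- CON. -/
theorem tCON (h1 : Pool.Agent.MSN.Grp.T_SGN.{u}) : T_CON.{u} := by
  intro V _ F _ K x₀ hK c hc
  refine ⟨fun s => if x₀ ∈ s then 0 else
    ((sg (insert x₀ s) x₀ : ℤ) : F) * c (insert x₀ s), ?_⟩
  intro s hs
  by_cases hx : x₀ ∈ s
  · rw [Finset.sum_eq_single x₀]
    · have h2 : insert x₀ (s.erase x₀) = s := Finset.insert_erase hx
      simp only [Finset.notMem_erase, if_false, h2]
      rw [← mul_assoc, CONE.sgc_sq, one_mul]
    · intro y _ hy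
      have h3 : x₀ ∈ s.erase y := Finset.mem_erase.2 ⟨Ne.symm hy, hx⟩
      simp only [h3, if_true, mul_zero]
    · intro h
      exact absurd hx h
  · have ht := hc (insert x₀ s) (hK s hs)
    rw [Finset.sum_insert hx] at ht
    have he : (insert x₀ s).erase x₀ = s := Finset.erase_insert hx
    rw [he] at ht
    have h4 : ∀ x ∈ s, ((sg s x : ℤ) : F) * (if x₀ ∈ s.erase x then 0 else
        ((sg (insert x₀ (s.erase x)) x₀ : ℤ) : F) * c (insert x₀ (s.erase x))) =
        - (((sg (insert x₀ s) x₀ : ℤ) : F) *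
          (((sg (insert x₀ s) x : ℤ) : F) * c ((insert x₀ s).erase x))) := by
      intro x hxs
      have hne : x₀ ≠ x := fun h => hx (h ▸ hxs)
      have h5 : x₀ ∉ s.erase x := fun h => hx (Finset.mem_of_mem_erase h)
      have h6 : insert x₀ (s.erase x) = (insert x₀ s).erase x :=
        (Finset.erase_insert_of_ne hne).symm
      rw [if_neg h5, h6]
      have h7 := (h1 (V := V)).1 (insert x₀ s) x₀ x (Finset.mem_insert_self _ _)
        (Finset.mem_insert_of_mem hxs) hne
      rw [he] at h7
      have h8 := congrArg (Int.cast : ℤ → F) h7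
      push_cast at h8
      have a1 : ((sg (insert x₀ s) x₀ : ℤ) : F) * ((sg (insert x₀ s) x₀ : ℤ) : F) = 1 :=
        CONE.sgc_sq _ _
      have a2 : ((sg ((insert x₀ s).erase x) x₀ : ℤ) : F) *
          ((sg ((insert x₀ s).erase x) x₀ : ℤ) : F) = 1 := CONE.sgc_sq _ _
      generalize ((sg (insert x₀ s) x₀ : ℤ) : F) = p at *
      generalize ((sg ((insert x₀ s).erase x) x₀ : ℤ) : F) = q at *
      generalize ((sg (insert x₀ s) x : ℤ) : F) = r at *
      generalize ((sg s x : ℤ) : F) = w at *
      generalize c ((insert x₀ s).erase x) = z at *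
      linear_combination p * q * z * h8 - w * q * z * a1 - p * r * z * a2
    rw [Finset.sum_congr rfl h4, Finset.sum_neg_distrib, ← Finset.mul_sum]
    have a1 : ((sg (insert x₀ s) x₀ : ℤ) : F) * ((sg (insert x₀ s) x₀ : ℤ) : F) = 1 :=
      CONE.sgc_sq _ _
    linear_combination (-c s) * a1 + ((sg (insert x₀ s) x₀ : ℤ) : F) * ht

end Pool.Agent.MSO
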