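import Pool.Agent.MSO.Targets

/-!
# EUL: exactness in the top degree by counting
-/

set_option linter.unusedSectionVars false

namespace Pool.Agent.MSO

open Pool.Agent.MSN.Grp (sg T_SGN)
open Pool.Agent.MSN.Alg (nC)

universe u

namespace EUL

variable {V : Type u} [Fintype V] [LinearOrder V] (F : Type) [Field F] (G : SimpleGraph V)

/-- Cliques with `j` elements. -/
abbrev Kj (j : ℕ) : Type u := {s : Finset V // G.IsClique (s : Set V) ∧ s.card = j}

noncomputable instance instFintypeKj (j : ℕ) : Fintype (Kj G j) := Fintype.ofFinite _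

open Classical in
/-- Extension by zero. -/
noncomputable def extz (j : ℕ) : (Kj G j → F) →ₗ[F] (Finset V → F) where
  toFun c s := if h : G.IsClique (s : Set V) ∧ s.card = j then c ⟨s, h⟩ else 0
  map_add' a b := by
    funext s
    by_cases h : G.IsClique (s : Set V) ∧ s.card = j
    · simp [h]
    · simp [h]
  map_smul' r a := by
    funext s
    by_cases h : G.IsClique (s : Set V) ∧ s.card = j
    · simp [h]
    · simp [h]

/-- The signed coboundary on all functions. -/
def DD : (Finset V → F) →ₗ[F] (Finset V → F) where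
  toFun c s := ∑ x ∈ s, ((sg s x : ℤ) : F) * c (s.erase x)
  map_add' a b := by
    funext s
    simp [mul_add, Finset.sum_add_distrib]
  map_smul' r a := by
    funext s
    simp only [Pi.smul_apply, smul_eq_mul, RingHom.id_apply, Finset.mul_sum]
    exact Finset.sum_congr rfl fun x _ => by ring

/-- Restriction. -/
def res (j : ℕ) : (Finset V → F) →ₗ[F] (Kj G j → F) where
  toFun c s := c s.1
  map_add' _ _ := rfl
  map_smul' _ _ := rfl

/-- The signed coboundary. -/
noncomputable def dd (j : ℕ) : (Kj G j → F) →ₗ[F] (Kj G (j + 1) → F) :=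
  (res F G (j + 1)).comp ((DD F).comp (extz F G j))

theorem extz_apply {j : ℕ} (c : Kj G j → F) (s : Finset V)
    (h : G.IsClique (s : Set V) ∧ s.card = j) : extz F G j c s = c ⟨s, h⟩ := by
  simp [extz, h]

theorem dd_apply {j : ℕ} (c : Kj G j → F) (s : Kj G (j + 1)) :
    dd F G j c s = ∑ x ∈ s.1, ((sg s.1 x : ℤ) : F) * extz F G j c (s.1.erase x) := rfl

theorem erase_mem {j : ℕ} {s : Finset V} (hs : G.IsClique (s : Set V)) (hc : s.card = j + 1)
    {x : V} (hx : x ∈ s) : G.IsClique ((s.erase x : Finset V) : Set V) ∧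
      (s.erase x).card = j :=
  ⟨hs.subset (by simp), by
    rw [Finset.card_erase_of_mem hx, hc]; simp⟩

theorem DD_DD (h1 : T_SGN.{u}) (c : Finset V → F) (s : Finset V) :
    ∑ x ∈ s, ((sg s x : ℤ) : F) *
      ∑ y ∈ s.erase x, ((sg (s.erase x) y : ℤ) : F) * c ((s.erase x).erase y) = 0 := by
  have hs := (h1 (V := V)).1
  simp only [Finset.mul_sum]
  rw [Finset.sum_sigma']
  refine Finset.sum_involution (fun p _ => ⟨p.2, p.1⟩) ?_ ?_ ?_ ?_
  · rintro ⟨x, y⟩ hp
    simp only [Finset.mem_sigma, Finset.mem_erase] at hp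
    obtain ⟨hx, hyx, hy⟩ := hp
    have h2 := hs s x y hx hy (fun h => hyx h.symm)
    have h3 : ((sg s x : ℤ) : F) * ((sg (s.erase x) y : ℤ) : F) +
        ((sg s y : ℤ) : F) * ((sg (s.erase y) x : ℤ) : F) = 0 := by
      exact_mod_cast congrArg (Int.cast : ℤ → F) h2
    have h4 : (s.erase y).erase x = (s.erase x).erase y := Finset.erase_right_comm
    simp only [h4]
    linear_combination (c ((s.erase x).erase y)) * h3
  · rintro ⟨x, y⟩ hp _ h
    simp only [Finset.mem_sigma, Finset.mem_erase] at hp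
    have : y = x := congrArg Sigma.fst h
    exact hp.2.1 this
  · rintro ⟨x, y⟩ hp
    simp only [Finset.mem_sigma, Finset.mem_erase] at hp ⊢
    exact ⟨hp.2.2, fun h => hp.2.1 h.symm, hp.1⟩
  · rintro ⟨x, y⟩ _
    rfl

theorem range_le_ker (h1 : T_SGN.{u}) (j : ℕ) :
    LinearMap.range (dd F G j) ≤ LinearMap.ker (dd F G (j + 1)) := by
  rintro _ ⟨c, rfl⟩
  rw [LinearMap.mem_ker]
  funext t
  rw [dd_apply]
  have h2 : ∀ x ∈ t.1, extz F G (j + 1) (dd F G j c) (t.1.erase x) =
      ∑ y ∈ t.1.erase x, ((sg (t.1.erase x) y : ℤ) : F) *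
        extz F G j c ((t.1.erase x).erase y) := by
    intro x hx
    rw [extz_apply F G _ _ (erase_mem G t.2.1 t.2.2 hx), dd_apply]
  rw [Finset.sum_congr rfl fun x hx => by rw [h2 x hx]]
  exact DD_DD F h1 (extz F G j c) t.1

theorem ker_le_range {j : ℕ} (hex : SExj F (Cl G) (j + 1)) :
    LinearMap.ker (dd F G (j + 1)) ≤ LinearMap.range (dd F G j) := by
  intro c hc
  rw [LinearMap.mem_ker] at hc
  obtain ⟨e, he⟩ := hex (extz F G (j + 1) c) fun t ht htc => by
    have := congrFun hc ⟨t, ht, htc⟩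
    rwa [dd_apply] at this
  refine ⟨res F G j e, ?_⟩
  funext s
  have h2 := he s.1 s.2.1 s.2.2
  rw [extz_apply F G _ _ s.2] at h2
  rw [dd_apply, h2]
  refine Finset.sum_congr rfl fun x hx => ?_
  rw [extz_apply F G _ _ (erase_mem G s.2.1 s.2.2 hx)]
  rfl

theorem ker_zero (hex : SExj F (Cl G) 0) : LinearMap.ker (dd F G 0) = ⊥ := by
  rw [eq_bot_iff]
  intro c hc
  rw [LinearMap.mem_ker] at hc
  obtain ⟨e, he⟩ := hex (extz F G 0 c) fun t ht htc => by
    have := congrFun hc ⟨t, ht, htc⟩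
    rwa [dd_apply] at this
  rw [Submodule.mem_bot]
  funext s
  have h2 := he s.1 s.2.1 s.2.2
  rw [extz_apply F G _ _ s.2] at h2
  have h3 : s.1 = ∅ := Finset.card_eq_zero.1 s.2.2
  rw [h2, h3]
  simp

theorem finrank_Kj (j : ℕ) : Module.finrank F (Kj G j → F) = nC G j := by
  rw [Module.finrank_fintype_fun_eq_card]
  unfold nC
  rw [Nat.card_eq_fintype_card]

theorem nC_large (hG : G.CliqueFree 5) {j : ℕ} (hj : 5 ≤ j) : nC G j = 0 := by
  unfold nC
  rw [Nat.card_eq_zero]
  left
  exact ⟨fun s => (hG.mono hj) s.1 (SimpleGraph.isNClique_iff _ |>.2 ⟨s.2.1, s.2.2⟩)⟩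

/-- The rank of the signed coboundary. -/
noncomputable def rk (j : ℕ) : ℕ := Module.finrank F (LinearMap.range (dd F G j))

theorem rk_zero (hex : SExj F (Cl G) 0) : rk F G 0 = nC G 0 := by
  have r0 := LinearMap.finrank_range_add_finrank_ker (dd F G 0)
  rw [finrank_Kj, ker_zero F G hex, finrank_bot] at r0
  exact r0

theorem rk_succ (h1 : T_SGN.{u}) (j : ℕ) (hex : SExj F (Cl G) (j + 1)) :
    rk F G (j + 1) + rk F G j = nC G (j + 1) := by
  have r1 := LinearMap.finrank_range_add_finrank_ker (dd F G (j + 1))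
  rw [finrank_Kj, le_antisymm (ker_le_range F G hex) (range_le_ker F G h1 j)] at r1
  exact r1

end EUL

open EUL in
theorem tEUL (h1 : Pool.Agent.MSN.Grp.T_SGN.{u}) : T_EUL.{u} := by
  intro V _ _ F _ G hG hsum hex j
  rcases Nat.lt_or_ge j 4 with hj | hj
  · exact hex j (by omega)
  rcases Nat.lt_or_ge 4 j with hj5 | hj4
  · -- no cliques
    intro c _
    refine ⟨fun _ => 0, fun s hs hcard => ?_⟩
    exact absurd (SimpleGraph.isNClique_iff _ |>.2 ⟨hs, hcard⟩) ((hG.mono (by omega)) s)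
  obtain rfl : j = 4 := le_antisymm hj4 hj
  -- the ranks
  have r0 : rk F G 0 = nC G 0 := rk_zero F G (hex 0 (by omega))
  have r1 : rk F G 1 + rk F G 0 = nC G 1 := rk_succ F G h1 0 (hex 1 (by omega))
  have r2 : rk F G 2 + rk F G 1 = nC G 2 := rk_succ F G h1 1 (hex 2 (by omega))
  have r3 : rk F G 3 + rk F G 2 = nC G 3 := rk_succ F G h1 2 (hex 3 (by omega))
  -- the alternating sum
  have hs := hsum (Fintype.card V + 5) (by omega)
  have hs5 : ∑ j ∈ Finset.range 5, (-1 : ℤ) ^ j * (nC G j : ℤ) = 0 := by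
    rw [← hs]
    refine Finset.sum_subset (Finset.range_subset_range.2 (by omega)) fun j _ hj => ?_
    rw [Finset.mem_range, not_lt] at hj
    rw [nC_large G hG hj]
    simp
  simp only [Finset.sum_range_succ, Finset.sum_range_zero] at hs5
  have hs6 : (nC G 0 : ℤ) - nC G 1 + nC G 2 - nC G 3 + nC G 4 = 0 := by
    linear_combination hs5
  have hr : rk F G 3 = nC G 4 := by omega
  have htop : LinearMap.range (dd F G 3) = ⊤ :=
    Submodule.eq_top_of_finrank_eq (hr.trans (finrank_Kj F G 4).symm)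
  intro c _
  obtain ⟨e, he⟩ : res F G 4 c ∈ LinearMap.range (dd F G 3) := by rw [htop]; trivial
  refine ⟨extz F G 3 e, fun s hs hcard => ?_⟩
  have h2 := congrFun he ⟨s, hs, hcard⟩
  rw [dd_apply] at h2
  exact h2.symm

end Pool.Agent.MSO
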