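import Pool.Agent.MSO.Targets
import Pool.Agent.MSN.GSGN

/-!
# Signed exactness for `j = 0, 1` (MP_d6353f_al (a), MSO)
-/

namespace Pool.Agent.MSO

open List Pool.Agent.MSF
open Pool.Agent.MSN.Grp (sg)

universe u

namespace EXA

variable {V : Type u} [LinearOrder V]

theorem sg_self (b : V) : sg ({b} : Finset V) b = 1 := by
  have h : ({b} : Finset V).filter (· < b) = ∅ := by
    ext x
    simp only [Finset.mem_filter, Finset.mem_singleton, Finset.notMem_empty, iff_false, not_and]
    rintro rfl
    exact lt_irrefl _
  unfold sg
  rw [h]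
  simp

theorem sg_pair {a b : V} (hab : a ≠ b) :
    sg ({a, b} : Finset V) b = - sg ({a, b} : Finset V) a := by
  have h := Pool.Agent.MSN.Grp.GSGN.one ({a, b} : Finset V) a b (by simp) (by simp) hab
  have e1 : ({a, b} : Finset V).erase a = {b} := by
    rw [Finset.erase_insert]
    simpa using hab
  have e2 : ({a, b} : Finset V).erase b = {a} := by
    rw [Finset.pair_comm, Finset.erase_insert]
    simpa using hab.symm
  rw [e1, e2, sg_self, sg_self, mul_one, mul_one] at h
  linarith

end EXA

theorem tEXA : T_EXA.{u} := by
  intro V _ F _ G hG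
  obtain ⟨v⟩ := hG.nonempty
  constructor
  · intro c hc
    have hcl : Cl G ({v} : Finset V) := by
      unfold Cl
      simp
    have h := hc {v} hcl (by simp)
    refine ⟨fun _ => 0, fun s _ hs => ?_⟩
    rw [Finset.card_eq_zero] at hs
    subst hs
    rw [Finset.sum_singleton, EXA.sg_self, Int.cast_one, one_mul] at h
    simpa using h
  · intro c hc
    have hadj : ∀ a b, G.Adj a b → c {a} = c {b} := by
      intro a b hab
      have hcl : Cl G ({a, b} : Finset V) := by
        unfold Cl
        rw [Finset.coe_pair, SimpleGraph.isClique_pair]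
        exact fun _ => hab
      have h := hc {a, b} hcl (Finset.card_pair hab.ne)
      rw [Finset.sum_pair hab.ne] at h
      have e1 : ({a, b} : Finset V).erase a = {b} := by
        rw [Finset.erase_insert]
        simpa using hab.ne
      have e2 : ({a, b} : Finset V).erase b = {a} := by
        rw [Finset.pair_comm, Finset.erase_insert]
        simpa using hab.ne.symm
      rw [e1, e2, EXA.sg_pair hab.ne] at h
      have hm : ((sg ({a, b} : Finset V) a : ℤ) : F) * ((sg ({a, b} : Finset V) a : ℤ) : F) = 1 := by
        rw [← Int.cast_mul, Pool.Agent.MSN.Grp.GSGN.sg_mul_self, Int.cast_one]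
      have h2 : ((sg ({a, b} : Finset V) a : ℤ) : F) * (c {b} - c {a}) = 0 := by
        rw [Int.cast_neg] at h
        rw [← h]
        ring
      have h3 : c {b} - c {a} = 0 := by
        calc c {b} - c {a} = (((sg ({a, b} : Finset V) a : ℤ) : F) *
              ((sg ({a, b} : Finset V) a : ℤ) : F)) * (c {b} - c {a}) := by rw [hm, one_mul]
          _ = 0 := by rw [mul_assoc, h2, mul_zero]
      exact (sub_eq_zero.1 h3).symm
    have hall : ∀ a b, c {a} = c {b} := by
      intro a b
      obtain ⟨w⟩ := hG.preconnected a b
      induction w with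
      | nil => rfl
      | cons h _ ih => exact (hadj _ _ h).trans ih
    refine ⟨fun _ => c {v}, fun s _ hs => ?_⟩
    obtain ⟨x, rfl⟩ := Finset.card_eq_one.1 hs
    rw [Finset.sum_singleton, EXA.sg_self, Int.cast_one, one_mul]
    exact hall x v

end Pool.Agent.MSO
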