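import Pool.Agent.MSO.Targets

/-! EXB: exactness for alternating functions of two variables, with signs. -/

namespace Pool.Agent.MSO

open List Pool.Agent.MSF Pool.Agent.MSN Pool.Agent.MSN.Fin

universe u

namespace EXB

variable {V : Type u} {F : Type} [CommRing F]

/-- The sum of `c` over the edges of a path. -/
def val (c : V → V → F) : List V → F
  | [] => 0
  | [_] => 0
  | (a :: b :: l) => c a b + val c (b :: l)

theorem append (c : V → V → F) (p q : List V) (a : V) :
    val c (p ++ a :: q) = val c (p ++ [a]) + val c (a :: q) := by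
  induction p with
  | nil => simp [val]
  | cons x p ih =>
    cases p with
    | nil => simp [val]
    | cons y p =>
      simp only [List.cons_append, val] at ih ⊢
      rw [ih, add_assoc]

theorem elem {G : SimpleGraph V} {c : V → V → F} (hs : ∀ a b, c a b = - c b a)
    (hc : ∀ a b d, G.Adj a b → G.Adj b d → G.Adj a d → c a b + c b d = c a d)
    {P Q : List V} (h : Elem G P Q) : val c P = val c Q := by
  cases h with
  | spur p q a b h =>
    rw [append c p q a, append c p (b :: a :: q) a]
    simp only [val]
    rw [hs b a]
    ring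
  | tri p q a b d h1 h2 h3 =>
    rw [append c p (d :: q) a, append c p (b :: d :: q) a]
    simp only [val]
    rw [← hc a b d h1 h2 h3]
    ring

theorem hom {G : SimpleGraph V} {c : V → V → F} (hs : ∀ a b, c a b = - c b a)
    (hc : ∀ a b d, G.Adj a b → G.Adj b d → G.Adj a d → c a b + c b d = c a d)
    {P Q : List V} (h : Hom G P Q) : val c P = val c Q := by
  induction h with
  | rel _ _ h => exact elem hs hc h
  | refl _ => rfl
  | symm _ _ _ ih => exact ih.symm
  | trans _ _ _ _ _ ih ih' => exact ih.trans ih'

end EXB

open EXB in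
theorem tEXB : T_EXB.{u} := by
  intro V F _ G hG hp c hs hc
  obtain ⟨o⟩ := hG.1.nonempty
  choose g hg using fun x => hp o x
  refine ⟨fun x => val c (g x), fun a b hab => ?_⟩
  have h1 := EXB.hom hs hc (Pool.Agent.MSN.Alg.hom_of_simplyConn hG ((hg a).snoc hab) (hg b))
  obtain ⟨P, hP⟩ := Pool.Agent.MSN.Alg.isP_eq_snoc (hg a)
  have e : g a ++ [b] = P ++ a :: [b] := by rw [hP]; simp
  rw [e, EXB.append, ← hP] at h1
  simp only [val, add_zero] at h1
  simp only
  rw [← h1]
  ring

end Pool.Agent.MSO
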