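import Pool.Agent.MSO.Targets

/-!
# MSO: target EXC

From alternating functions of two and three variables to functions on finite sets, with signs.
-/

namespace Pool.Agent.MSO

open List Pool.Agent.MSF
open Pool.Agent.MSN.Grp (sg)

universe u

namespace EXC

section order

variable {V : Type u} [LinearOrder V]

lemma sort3 {P : V → V → V → Prop} (h12 : ∀ a b d, P a b d → P b a d)
    (h23 : ∀ a b d, P a b d → P a d b) (h : ∀ a b d, a < b → b < d → P a b d)
    (a b d : V) (hab : a ≠ b) (hbd : b ≠ d) (had : a ≠ d) : P a b d := by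
  have key : ∀ a b d : V, b < d → a ≠ b → a ≠ d → P a b d := by
    intro a b d hbd hab had
    rcases lt_or_gt_of_ne hab with h1 | h1
    · exact h _ _ _ h1 hbd
    · rcases lt_or_gt_of_ne had with h2 | h2
      · exact h12 _ _ _ (h _ _ _ h1 h2)
      · exact h12 _ _ _ (h23 _ _ _ (h _ _ _ hbd h2))
  rcases lt_or_gt_of_ne hbd with h1 | h1
  · exact key _ _ _ h1 hab had
  · exact h23 _ _ _ (key _ _ _ h1 had hab)

lemma sort4 {P : V → V → V → V → Prop} (h12 : ∀ a b d f, P a b d f → P b a d f)
    (h23 : ∀ a b d f, P a b d f → P a d b f) (h34 : ∀ a b d f, P a b d f → P a b f d)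
    (h : ∀ a b d f, a < b → b < d → d < f → P a b d f)
    (a b d f : V) (hab : a ≠ b) (had : a ≠ d) (haf : a ≠ f) (hbd : b ≠ d) (hbf : b ≠ f)
    (hdf : d ≠ f) : P a b d f := by
  have key : ∀ b d f : V, b < d → d < f → a ≠ b → a ≠ d → a ≠ f → P a b d f := by
    intro b d f hbd hdf hab had haf
    rcases lt_or_gt_of_ne hab with h1 | h1
    · exact h _ _ _ _ h1 hbd hdf
    · rcases lt_or_gt_of_ne had with h2 | h2
      · exact h12 _ _ _ _ (h _ _ _ _ h1 h2 hdf)
      · rcases lt_or_gt_of_ne haf with h3 | h3
        · exact h12 _ _ _ _ (h23 _ _ _ _ (h _ _ _ _ hbd h2 h3))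
        · exact h12 _ _ _ _ (h23 _ _ _ _ (h34 _ _ _ _ (h _ _ _ _ hbd hdf h3)))
  exact sort3 (P := fun b d f => a ≠ b → a ≠ d → a ≠ f → P a b d f)
    (fun b d f hp h1 h2 h3 => h23 _ _ _ _ (hp h2 h1 h3))
    (fun b d f hp h1 h2 h3 => h34 _ _ _ _ (hp h1 h3 h2))
    (fun b d f h1 h2 => key b d f h1 h2) b d f hbd hdf hbf hab had haf

/-- The sign of an ordered pair. -/
def sn (a b : V) : ℤ := if a < b then 1 else if b < a then -1 else 0

lemma sn_lt {a b : V} (h : a < b) : sn a b = 1 := if_pos h

lemma sn_swap (a b : V) : sn a b = - sn b a := by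
  unfold sn
  rcases lt_trichotomy a b with h | h | h
  · rw [if_pos h, if_neg h.not_gt, if_pos h, neg_neg]
  · subst h
    simp
  · rw [if_neg h.not_gt, if_pos h, if_pos h]

lemma sg_eq {t : Finset V} {x : V} {n : ℕ} (h : (t.filter (· < x)).card = n) :
    sg t x = (-1) ^ n := by
  unfold sg
  rw [h]

variable {F : Type} [CommRing F]

lemma sum2 (c : Finset V → F) {a b : V} (hab : a < b) :
    ∑ x ∈ ({a, b} : Finset V), ((sg ({a, b} : Finset V) x : ℤ) : F) *
      c (({a, b} : Finset V).erase x) = c {b} - c {a} := by
  have h1 : ({a, b} : Finset V).erase a = {b} := by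
    ext x
    simp only [Finset.mem_erase, Finset.mem_insert, Finset.mem_singleton]
    constructor
    · rintro ⟨h1, h2 | h2⟩
      · exact absurd h2 h1
      · exact h2
    · rintro rfl
      exact ⟨hab.ne', Or.inr rfl⟩
  have h2 : ({a, b} : Finset V).erase b = {a} := by
    ext x
    simp only [Finset.mem_erase, Finset.mem_insert, Finset.mem_singleton]
    constructor
    · rintro ⟨h1, h2 | h2⟩
      · exact h2
      · exact absurd h2 h1
    · rintro rfl
      exact ⟨hab.ne, Or.inl rfl⟩
  have s1 : sg ({a, b} : Finset V) a = 1 := by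
    rw [sg_eq (n := 0), pow_zero]
    rw [Finset.filter_insert, Finset.filter_singleton, if_neg (lt_irrefl a),
      if_neg hab.not_gt, Finset.card_empty]
  have s2 : sg ({a, b} : Finset V) b = -1 := by
    rw [sg_eq (n := 1), pow_one]
    rw [Finset.filter_insert, Finset.filter_singleton, if_neg (lt_irrefl b), if_pos hab]
    rfl
  rw [Finset.sum_pair hab.ne, h1, h2, s1, s2]
  push_cast
  ring

lemma sum3 (c : Finset V → F) {a b d : V} (hab : a < b) (hbd : b < d) :
    ∑ x ∈ ({a, b, d} : Finset V), ((sg ({a, b, d} : Finset V) x : ℤ) : F) *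
      c (({a, b, d} : Finset V).erase x) = c {b, d} - c {a, d} + c {a, b} := by
  have had : a < d := hab.trans hbd
  have h1 : ({a, b, d} : Finset V).erase a = {b, d} := by
    ext x
    simp only [Finset.mem_erase, Finset.mem_insert, Finset.mem_singleton]
    constructor
    · rintro ⟨h1, h2 | h2 | h2⟩
      · exact absurd h2 h1
      · exact Or.inl h2
      · exact Or.inr h2
    · rintro (rfl | rfl)
      · exact ⟨hab.ne', Or.inr (Or.inl rfl)⟩
      · exact ⟨had.ne', Or.inr (Or.inr rfl)⟩
  have h2 : ({a, b, d} : Finset V).erase b = {a, d} := by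
    ext x
    simp only [Finset.mem_erase, Finset.mem_insert, Finset.mem_singleton]
    constructor
    · rintro ⟨h1, h2 | h2 | h2⟩
      · exact Or.inl h2
      · exact absurd h2 h1
      · exact Or.inr h2
    · rintro (rfl | rfl)
      · exact ⟨hab.ne, Or.inl rfl⟩
      · exact ⟨hbd.ne', Or.inr (Or.inr rfl)⟩
  have h3 : ({a, b, d} : Finset V).erase d = {a, b} := by
    ext x
    simp only [Finset.mem_erase, Finset.mem_insert, Finset.mem_singleton]
    constructor
    · rintro ⟨h1, h2 | h2 | h2⟩
      · exact Or.inl h2
      · exact Or.inr h2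
      · exact absurd h2 h1
    · rintro (rfl | rfl)
      · exact ⟨had.ne, Or.inl rfl⟩
      · exact ⟨hbd.ne, Or.inr (Or.inl rfl)⟩
  have s1 : sg ({a, b, d} : Finset V) a = 1 := by
    rw [sg_eq (n := 0), pow_zero]
    rw [Finset.filter_insert, Finset.filter_insert, Finset.filter_singleton,
      if_neg (lt_irrefl a), if_neg hab.not_gt, if_neg had.not_gt, Finset.card_empty]
  have s2 : sg ({a, b, d} : Finset V) b = -1 := by
    rw [sg_eq (n := 1), pow_one]
    rw [Finset.filter_insert, Finset.filter_insert, Finset.filter_singleton,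
      if_neg (lt_irrefl b), if_neg hbd.not_gt, if_pos hab]
    rfl
  have s3 : sg ({a, b, d} : Finset V) d = 1 := by
    rw [sg_eq (n := 2)]
    · norm_num
    rw [Finset.filter_insert, Finset.filter_insert, Finset.filter_singleton,
      if_neg (lt_irrefl d), if_pos hbd, if_pos had]
    exact Finset.card_pair (by simpa using hab.ne)
  rw [Finset.sum_insert (by simp [hab.ne, had.ne]), Finset.sum_pair hbd.ne, h1, h2, h3,
    s1, s2, s3]
  push_cast
  ring

lemma sum4 (c : Finset V → F) {a b d f : V} (hab : a < b) (hbd : b < d) (hdf : d < f) :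
    ∑ x ∈ ({a, b, d, f} : Finset V), ((sg ({a, b, d, f} : Finset V) x : ℤ) : F) *
      c (({a, b, d, f} : Finset V).erase x) =
      c {b, d, f} - c {a, d, f} + c {a, b, f} - c {a, b, d} := by
  have had : a < d := hab.trans hbd
  have haf : a < f := had.trans hdf
  have hbf : b < f := hbd.trans hdf
  have h1 : ({a, b, d, f} : Finset V).erase a = {b, d, f} := by
    ext x
    simp only [Finset.mem_erase, Finset.mem_insert, Finset.mem_singleton]
    constructor
    · rintro ⟨h1, h2 | h2⟩
      · exact absurd h2 h1
      · exact h2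
    · rintro (rfl | rfl | rfl)
      · exact ⟨hab.ne', Or.inr (Or.inl rfl)⟩
      · exact ⟨had.ne', Or.inr (Or.inr (Or.inl rfl))⟩
      · exact ⟨haf.ne', Or.inr (Or.inr (Or.inr rfl))⟩
  have h2 : ({a, b, d, f} : Finset V).erase b = {a, d, f} := by
    ext x
    simp only [Finset.mem_erase, Finset.mem_insert, Finset.mem_singleton]
    constructor
    · rintro ⟨h1, h2 | h2 | h2⟩
      · exact Or.inl h2
      · exact absurd h2 h1
      · exact Or.inr h2
    · rintro (rfl | rfl | rfl)
      · exact ⟨hab.ne, Or.inl rfl⟩
      · exact ⟨hbd.ne', Or.inr (Or.inr (Or.inl rfl))⟩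
      · exact ⟨hbf.ne', Or.inr (Or.inr (Or.inr rfl))⟩
  have h3 : ({a, b, d, f} : Finset V).erase d = {a, b, f} := by
    ext x
    simp only [Finset.mem_erase, Finset.mem_insert, Finset.mem_singleton]
    constructor
    · rintro ⟨h1, h2 | h2 | h2 | h2⟩
      · exact Or.inl h2
      · exact Or.inr (Or.inl h2)
      · exact absurd h2 h1
      · exact Or.inr (Or.inr h2)
    · rintro (rfl | rfl | rfl)
      · exact ⟨had.ne, Or.inl rfl⟩
      · exact ⟨hbd.ne, Or.inr (Or.inl rfl)⟩
      · exact ⟨hdf.ne', Or.inr (Or.inr (Or.inr rfl))⟩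
  have h4 : ({a, b, d, f} : Finset V).erase f = {a, b, d} := by
    ext x
    simp only [Finset.mem_erase, Finset.mem_insert, Finset.mem_singleton]
    constructor
    · rintro ⟨h1, h2 | h2 | h2 | h2⟩
      · exact Or.inl h2
      · exact Or.inr (Or.inl h2)
      · exact Or.inr (Or.inr h2)
      · exact absurd h2 h1
    · rintro (rfl | rfl | rfl)
      · exact ⟨haf.ne, Or.inl rfl⟩
      · exact ⟨hbf.ne, Or.inr (Or.inl rfl)⟩
      · exact ⟨hdf.ne, Or.inr (Or.inr (Or.inl rfl))⟩
  have s1 : sg ({a, b, d, f} : Finset V) a = 1 := by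
    rw [sg_eq (n := 0), pow_zero]
    rw [Finset.filter_insert, Finset.filter_insert, Finset.filter_insert,
      Finset.filter_singleton, if_neg (lt_irrefl a), if_neg hab.not_gt, if_neg had.not_gt,
      if_neg haf.not_gt, Finset.card_empty]
  have s2 : sg ({a, b, d, f} : Finset V) b = -1 := by
    rw [sg_eq (n := 1), pow_one]
    rw [Finset.filter_insert, Finset.filter_insert, Finset.filter_insert,
      Finset.filter_singleton, if_neg (lt_irrefl b), if_neg hbd.not_gt, if_neg hbf.not_gt,
      if_pos hab]
    rfl
  have s3 : sg ({a, b, d, f} : Finset V) d = 1 := by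
    rw [sg_eq (n := 2)]
    · norm_num
    rw [Finset.filter_insert, Finset.filter_insert, Finset.filter_insert,
      Finset.filter_singleton, if_neg (lt_irrefl d), if_neg hdf.not_gt, if_pos hbd,
      if_pos had]
    exact Finset.card_pair (by simpa using hab.ne)
  have s4 : sg ({a, b, d, f} : Finset V) f = -1 := by
    rw [sg_eq (n := 3)]
    · norm_num
    rw [Finset.filter_insert, Finset.filter_insert, Finset.filter_insert,
      Finset.filter_singleton, if_neg (lt_irrefl f), if_pos hdf, if_pos hbf, if_pos haf]
    rw [Finset.card_eq_three]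
    exact ⟨a, b, d, hab.ne, had.ne, hbd.ne, rfl⟩
  rw [Finset.sum_insert (by simp [hab.ne, had.ne, haf.ne]),
    Finset.sum_insert (by simp [hbd.ne, hbf.ne]), Finset.sum_pair hdf.ne, h1, h2, h3, h4,
    s1, s2, s3, s4]
  push_cast
  ring

lemma pair_eq {a b x y : V} (h : ({a, b} : Finset V) = {x, y}) (hab : a < b) (hxy : x < y) :
    x = a ∧ y = b := by
  have hx : x ∈ ({a, b} : Finset V) := by rw [h]; simp
  have hy : y ∈ ({a, b} : Finset V) := by rw [h]; simp
  simp only [Finset.mem_insert, Finset.mem_singleton] at hx hy
  rcases hx with hx | hx <;> rcases hy with hy | hy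
  · exact absurd (hx.trans hy.symm) hxy.ne
  · exact ⟨hx, hy⟩
  · subst hx hy
    exact absurd hxy hab.not_gt
  · exact absurd (hx.trans hy.symm) hxy.ne

open Classical in
/-- A function of two variables as a function on finite sets. -/
noncomputable def ext (η : V → V → F) (s : Finset V) : F :=
  if h : ∃ p : V × V, s = {p.1, p.2} ∧ p.1 < p.2 then η h.choose.1 h.choose.2 else 0

lemma ext_pair (η : V → V → F) {a b : V} (hab : a < b) : ext η {a, b} = η a b := by
  have h : ∃ p : V × V, ({a, b} : Finset V) = {p.1, p.2} ∧ p.1 < p.2 := ⟨(a, b), rfl, hab⟩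
  unfold ext
  rw [dif_pos h]
  obtain ⟨h1, h2⟩ := pair_eq h.choose_spec.1 hab h.choose_spec.2
  rw [h1, h2]

end order

end EXC

open EXC

/-- Target EXC. -/
theorem tEXC : T_EXC.{u} := by
  intro V _ F _ G
  constructor
  · intro h2 c hc
    obtain ⟨f, hf⟩ := h2 (fun a b => ((sn a b : ℤ) : F) * c {a, b}) (fun a b => by
        rw [sn_swap a b, Finset.pair_comm a b]
        push_cast
        ring) (by
      intro a b d hab hbd had
      have hne := sort3 (P := fun a b d => G.Adj a b → G.Adj b d → G.Adj a d →
          ((sn a b : ℤ) : F) * c {a, b} + ((sn b d : ℤ) : F) * c {b, d} =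
            ((sn a d : ℤ) : F) * c {a, d})
        (by
          intro a b d hp hab hbd had
          have h3 := hp hab.symm had hbd
          rw [sn_swap b a, Finset.pair_comm b a]
          push_cast
          linear_combination - h3)
        (by
          intro a b d hp hab hbd had
          have h3 := hp had hbd.symm hab
          rw [sn_swap d b, Finset.pair_comm d b]
          push_cast
          linear_combination - h3)
        (by
          intro a b d hlab hlbd hab hbd had
          have hlad : a < d := hlab.trans hlbd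
          have h3 := hc {a, b, d} (by
            show G.IsClique _
            rw [SimpleGraph.isClique_iff]
            intro x hx y hy hxy
            simp only [Finset.coe_insert, Finset.coe_singleton, Set.mem_insert_iff,
              Set.mem_singleton_iff] at hx hy
            rcases hx with rfl | rfl | rfl <;> rcases hy with rfl | rfl | rfl <;>
              first
              | exact absurd rfl hxy
              | assumption
              | (apply SimpleGraph.Adj.symm; assumption)) (by
            rw [Finset.card_eq_three]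
            exact ⟨a, b, d, hab.ne, had.ne, hbd.ne, rfl⟩)
          rw [sum3 c hlab hlbd] at h3
          rw [sn_lt hlab, sn_lt hlbd, sn_lt hlad]
          push_cast
          linear_combination h3) a b d hab.ne hbd.ne had.ne
      exact hne hab hbd had)
    refine ⟨fun s => ∑ x ∈ s, f x, fun s hs hs2 => ?_⟩
    have main : ∀ a b : V, a < b → s = {a, b} →
        c s = ∑ x ∈ s, ((sg s x : ℤ) : F) * ∑ y ∈ s.erase x, f y := by
      rintro a b hab rfl
      rw [sum2 (fun s => ∑ x ∈ s, f x) hab, Finset.sum_singleton, Finset.sum_singleton]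
      have h3 := hf a b (hs (by simp) (by simp) hab.ne)
      rw [sn_lt hab] at h3
      push_cast at h3
      linear_combination h3
    obtain ⟨a, b, hab, hs'⟩ := Finset.card_eq_two.1 hs2
    rcases lt_or_gt_of_ne hab with h1 | h1
    · exact main a b h1 hs'
    · exact main b a h1 (by rw [hs', Finset.pair_comm])
  · intro h3 c hc
    have hAlt : Alt3 (fun a b d : V =>
        ((sn a b : ℤ) : F) * ((sn b d : ℤ) : F) * ((sn a d : ℤ) : F) * c {a, b, d}) :=
      ⟨fun a b d => by
        rw [Finset.insert_comm a b, sn_swap a b]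
        push_cast
        ring, fun a b d => by
        rw [Finset.pair_comm b d, sn_swap b d]
        push_cast
        ring⟩
    obtain ⟨η, hη, hη'⟩ := h3 (fun a b d =>
        ((sn a b : ℤ) : F) * ((sn b d : ℤ) : F) * ((sn a d : ℤ) : F) * c {a, b, d}) hAlt (by
      generalize hω : (fun a b d : V =>
        ((sn a b : ℤ) : F) * ((sn b d : ℤ) : F) * ((sn a d : ℤ) : F) * c {a, b, d}) = ω at *
      intro a b d f hab had haf hbd hbf hdf
      have hne := sort4 (P := fun a b d f => G.Adj a b → G.Adj a d → G.Adj a f →
          G.Adj b d → G.Adj b f → G.Adj d f → ω b d f - ω a d f + ω a b f - ω a b d = 0)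
        (by
          intro a b d f hp h1 h2 h3 h4 h5 h6
          have h7 := hp h1.symm h4 h5 h2 h3 h6
          rw [hAlt.s12 b a f, hAlt.s12 b a d]
          linear_combination - h7)
        (by
          intro a b d f hp h1 h2 h3 h4 h5 h6
          have h7 := hp h2 h1 h3 h4.symm h6 h5
          rw [hAlt.s12 d b f, hAlt.s23 a d b]
          linear_combination - h7)
        (by
          intro a b d f hp h1 h2 h3 h4 h5 h6
          have h7 := hp h1 h3 h2 h5 h4 h6.symm
          rw [hAlt.s23 b f d, hAlt.s23 a f d]
          linear_combination - h7)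
        (by
          intro a b d f hlab hlbd hldf hab had haf hbd hbf hdf
          have hlad : a < d := hlab.trans hlbd
          have hlbf : b < f := hlbd.trans hldf
          have hlaf : a < f := hlab.trans hlbf
          have h3 := hc {a, b, d, f} (by
            show G.IsClique _
            rw [SimpleGraph.isClique_iff]
            intro x hx y hy hxy
            simp only [Finset.coe_insert, Finset.coe_singleton, Set.mem_insert_iff,
              Set.mem_singleton_iff] at hx hy
            rcases hx with rfl | rfl | rfl | rfl <;> rcases hy with rfl | rfl | rfl | rfl <;>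
              first
              | exact absurd rfl hxy
              | assumption
              | (apply SimpleGraph.Adj.symm; assumption)) (by
            rw [Finset.card_insert_of_notMem (by simp [hab.ne, had.ne, haf.ne]),
              Finset.card_insert_of_notMem (by simp [hbd.ne, hbf.ne]),
              Finset.card_pair hdf.ne])
          rw [sum4 c hlab hlbd hldf] at h3
          rw [← hω]
          dsimp only
          rw [sn_lt hlab, sn_lt hlbd, sn_lt hlad, sn_lt hldf, sn_lt hlbf, sn_lt hlaf]
          push_cast
          linear_combination h3) a b d f hab.ne had.ne haf.ne hbd.ne hbf.ne hdf.ne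
      exact hne hab had haf hbd hbf hdf)
    refine ⟨ext η, fun s hs hs3 => ?_⟩
    have main : ∀ a b d : V, a < b → b < d → s = {a, b, d} →
        c s = ∑ x ∈ s, ((sg s x : ℤ) : F) * ext η (s.erase x) := by
      rintro a b d hab hbd rfl
      have had : a < d := hab.trans hbd
      rw [sum3 (ext η) hab hbd, ext_pair η hbd, ext_pair η had, ext_pair η hab]
      have h4 := hη' a b d (hs (by simp) (by simp) hab.ne) (hs (by simp) (by simp) hbd.ne)
        (hs (by simp) (by simp) had.ne)
      rw [sn_lt hab, sn_lt hbd, sn_lt had] at h4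
      push_cast at h4
      linear_combination h4
    obtain ⟨a, b, d, hab, had, hbd, hs'⟩ := Finset.card_eq_three.1 hs3
    refine sort3 (P := fun a b d => s = {a, b, d} →
        c s = ∑ x ∈ s, ((sg s x : ℤ) : F) * ext η (s.erase x)) ?_ ?_
      (fun a b d h1 h2 h3 => main a b d h1 h2 h3) a b d hab hbd had hs'
    · intro a b d hp h
      exact hp (by rw [h, Finset.insert_comm])
    · intro a b d hp h
      exact hp (by rw [h, Finset.pair_comm b d])

end Pool.Agent.MSO
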