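import Pool.Agent.MSO.Targets

/-! EXD: exactness for alternating functions of three variables, with signs. -/

namespace Pool.Agent.MSO

open List Pool.Agent.MSF Pool.Agent.MSN Pool.Agent.MSN.Fin

universe u

namespace EXD

variable {V : Type u} {A : Type} [AddCommGroup A] {G : SimpleGraph V} {ω : V → V → V → A}

theorem hw_of_hom (ω : V → V → V → A) {P Q : List V} (h : Hom G P Q) :
    ∃ t, MSO.HW G ω P Q t := by
  induction h with
  | rel _ _ h =>
    cases h with
    | spur p q a b h => exact ⟨_, MSO.HW.spur p q a b h⟩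
    | tri p q a b c h1 h2 h3 => exact ⟨_, MSO.HW.tri p q a b c h1 h2 h3⟩
  | refl _ => exact ⟨_, MSO.HW.refl _⟩
  | symm _ _ _ ih =>
    obtain ⟨t, ht⟩ := ih
    exact ⟨_, ht.symm⟩
  | trans _ _ _ _ _ ih ih' =>
    obtain ⟨t, ht⟩ := ih
    obtain ⟨t', ht'⟩ := ih'
    exact ⟨_, ht.trans ht'⟩

theorem hw_right {P Q : List V} {t : A} (Y : List V) (h : MSO.HW G ω P Q t) :
    MSO.HW G ω (P ++ Y) (Q ++ Y) t := by
  induction h with
  | refl P => exact MSO.HW.refl _
  | spur p q a b h => simpa using MSO.HW.spur (G := G) (ω := ω) p (q ++ Y) a b h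
  | tri p q a b c h1 h2 h3 =>
    simpa using MSO.HW.tri (G := G) (ω := ω) p (q ++ Y) a b c h1 h2 h3
  | symm _ ih => exact ih.symm
  | trans _ _ ih ih' => exact ih.trans ih'

end EXD

theorem tEXD : T_EXD.{u} := by
  intro V F _ G hG hp hU ω hs hc
  have hu : ∀ (P : List V) (t : F), P ≠ [] → List.IsChain G.Adj P → MSO.HW G ω P P t → t = 0 :=
    hU ω hs hc
  obtain ⟨o⟩ : Nonempty V := hG.1.nonempty
  choose g hg using fun x => hp o x
  classical
  have H0 : ∀ x y, ∃ t : F, G.Adj x y → MSO.HW G ω (g x ++ [y]) (g y) t := by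
    intro x y
    by_cases hxy : G.Adj x y
    · obtain ⟨t, ht⟩ := EXD.hw_of_hom ω
        (Pool.Agent.MSN.Alg.hom_of_simplyConn hG ((hg x).snoc hxy) (hg y))
      exact ⟨t, fun _ => ht⟩
    · exact ⟨0, fun h => absurd h hxy⟩
  choose j H using H0
  have hsym : ∀ x y, G.Adj x y → j x y + j y x = 0 := by
    intro x y hxy
    have h1 : MSO.HW G ω (g x) (g x ++ [y, x]) 0 := by
      obtain ⟨P₀, hP₀⟩ := Pool.Agent.MSN.Alg.isP_eq_snoc (hg x)
      have := MSO.HW.spur (G := G) (ω := ω) P₀ [] x y hxy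
      rw [hP₀]
      simpa using this
    have h2 : MSO.HW G ω (g x ++ [y, x]) (g y ++ [x]) (j x y) := by
      have := EXD.hw_right [x] (H x y hxy)
      simpa using this
    have h4 := (h1.trans h2).trans (H y x hxy.symm)
    have h5 := hu _ _ (hg x).ne_nil (hg x).chain h4
    rwa [zero_add] at h5
  refine ⟨fun x y => if G.Adj x y then - j x y else 0, ?_, ?_⟩
  · intro a b
    by_cases h : G.Adj a b
    · simp only [h, h.symm, if_true]
      linear_combination -(hsym a b h)
    · have h' : ¬ G.Adj b a := fun h' => h h'.symm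
      simp only [h, h', if_false, neg_zero]
  · intro a b d hab hbd had
    simp only [hab, hbd, had, if_true]
    have h1 : MSO.HW G ω (g a ++ [d]) (g a ++ [b, d]) (ω a b d) := by
      obtain ⟨P₀, hP₀⟩ := Pool.Agent.MSN.Alg.isP_eq_snoc (hg a)
      have := MSO.HW.tri (G := G) (ω := ω) P₀ [] a b d hab hbd had
      rw [hP₀]
      simpa using this
    have h2 : MSO.HW G ω (g a ++ [b, d]) (g b ++ [d]) (j a b) := by
      have := EXD.hw_right [d] (H a b hab)
      simpa using this
    have h4 := (h1.trans h2).trans (H b d hbd)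
    have h5 := hu _ _ ((hg a).snoc had).ne_nil ((hg a).snoc had).chain
      (h4.trans (H a d had).symm)
    linear_combination h5

end Pool.Agent.MSO
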