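import Pool.Agent.MSO.Targets

/-!
# FIL: exactness of a filtered matrix (MSO)
-/

namespace Pool.Agent.MSO

universe u

namespace FIL

/-- The improvement at one level. -/
lemma step {I : Type u} [Fintype I] [DecidableEq I] {F : Type} [Field F]
    (D : Matrix I I F) (l : I → ℕ) (hl : ∀ i j, D i j ≠ 0 → l j ≤ l i)
    (h0 : MEx (Matrix.of fun i j => if l i = l j then D i j else 0))
    (c : I → F) (hc : D.mulVec c = 0) (k : ℕ) (hk : ∀ i, l i < k → c i = 0) :
    ∃ f, ∀ i, l i < k + 1 → (c - D.mulVec f) i = 0 := by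
  classical
  have hD : ∀ i j, l i < l j → D i j = 0 := by
    intro i j hij
    by_contra h
    have := hl i j h
    omega
  obtain ⟨f, hf⟩ := h0 (fun j => if l j = k then c j else 0) (by
    funext i
    simp only [Matrix.mulVec, dotProduct, Matrix.of_apply, Pi.zero_apply]
    by_cases hi : l i = k
    · have h1 : D.mulVec c i = 0 := by rw [hc]; rfl
      simp only [Matrix.mulVec, dotProduct] at h1
      refine Eq.trans (Finset.sum_congr rfl fun j _ => ?_) h1
      rcases lt_trichotomy (l j) k with h2 | h2 | h2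
      · rw [hk j h2, if_neg (by omega : ¬ l j = k), mul_zero, mul_zero]
      · rw [if_pos (by omega : l i = l j), if_pos h2]
      · rw [if_neg (by omega : ¬ l i = l j), hD i j (by omega), zero_mul, zero_mul]
    · refine Finset.sum_eq_zero fun j _ => ?_
      by_cases hj : l j = k
      · rw [if_neg (by omega : ¬ l i = l j), zero_mul]
      · rw [if_neg hj, mul_zero])
  refine ⟨fun j => if l j = k then f j else 0, fun i hi => ?_⟩
  simp only [Pi.sub_apply, Matrix.mulVec, dotProduct]
  by_cases hik : l i = k
  · have h1 := congrFun hf i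
    simp only [Matrix.mulVec, dotProduct, Matrix.of_apply, if_pos hik] at h1
    rw [← h1, sub_eq_zero]
    refine Finset.sum_congr rfl fun j _ => ?_
    by_cases hj : l j = k
    · rw [if_pos (by omega : l i = l j), if_pos hj]
    · rw [if_neg (by omega : ¬ l i = l j), if_neg hj, mul_zero, zero_mul]
  · have h2 : l i < k := by omega
    rw [hk i h2, zero_sub, neg_eq_zero]
    refine Finset.sum_eq_zero fun j _ => ?_
    by_cases hj : l j = k
    · rw [hD i j (by omega), zero_mul]
    · rw [if_neg hj, mul_zero]

end FIL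

/-- FIL: filtration. -/
theorem tFIL : T_FIL.{u} := by
  intro I _ _ F _ D l hDD hl h0 c hc
  have key : ∀ k : ℕ, ∃ e, ∀ i, l i < k → (c - D.mulVec e) i = 0 := by
    intro k
    induction k with
    | zero => exact ⟨0, fun i hi => absurd hi (Nat.not_lt_zero _)⟩
    | succ k ih =>
      obtain ⟨e, he⟩ := ih
      have hcl : D.mulVec (c - D.mulVec e) = 0 := by
        rw [Matrix.mulVec_sub, hc, Matrix.mulVec_mulVec, hDD, Matrix.zero_mulVec, sub_zero]
      obtain ⟨f, hf⟩ := FIL.step D l hl h0 (c - D.mulVec e) hcl k he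
      refine ⟨e + f, fun i hi => ?_⟩
      have h1 := hf i hi
      rw [Matrix.mulVec_add, ← sub_sub]
      exact h1
  obtain ⟨e, he⟩ := key (Finset.univ.sup l + 1)
  refine ⟨e, ?_⟩
  funext i
  have h1 := he i (Nat.lt_succ_of_le (Finset.le_sup (Finset.mem_univ i)))
  rw [Pi.sub_apply, sub_eq_zero] at h1
  exact h1.symm

end Pool.Agent.MSO
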