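import Pool.Agent.MSO.Targets

/-!
# MSO-FRE: free modules over the group ring of the cyclic group of order `p`
-/

set_option autoImplicit false

open Finset

namespace Pool.Agent.MSO

universe u

namespace FRE

/-- In characteristic `p` the power `(X - 1) ^ (p - 1)` is a geometric sum. -/
lemma polyEq (p : ℕ) [Fact p.Prime] :
    ((Polynomial.X - 1) ^ (p - 1) : Polynomial (ZMod p)) = ∑ k ∈ range p, Polynomial.X ^ k := by
  have hp : 0 < p := (Fact.out : p.Prime).pos
  have h1 : (Polynomial.X - 1 : Polynomial (ZMod p)) ≠ 0 := Polynomial.X_sub_C_ne_zero 1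
  apply mul_right_cancel₀ h1
  rw [← pow_succ, Nat.sub_add_cancel hp, sub_pow_char, one_pow, geom_sum_mul]

variable {A : Type u} [AddCommGroup A] (p : ℕ) [Fact p.Prime] [Module (ZMod p) A]

lemma endEq (P : A →ₗ[ZMod p] A) : (P - 1) ^ (p - 1) = ∑ k ∈ range p, P ^ k := by
  have h := congrArg (Polynomial.aeval P) (polyEq p)
  simpa using h

/-- The norm absorbs powers of `P`. -/
lemma norm_pow (P : A →ₗ[ZMod p] A) (hP : P ^ p = 1) (k : ℕ) :
    (∑ m ∈ range p, P ^ m) * P ^ k = ∑ m ∈ range p, P ^ m := by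
  have h1 : (∑ m ∈ range p, P ^ m) * P = ∑ m ∈ range p, P ^ m := by
    have h2 := geom_sum_mul P p
    rw [hP, sub_self, mul_sub, mul_one, sub_eq_zero] at h2
    exact h2
  induction k with
  | zero => rw [pow_zero, mul_one]
  | succ k ih => rw [pow_succ, ← mul_assoc, ih, h1]

end FRE

/-- Free modules over the group ring of the cyclic group of order `p`. -/
theorem tFRE : T_FRE.{u} := by
  intro A _ p _ _ P E hP hE hO hS
  have hp : 0 < p := (Fact.out : p.Prime).pos
  have hN := FRE.endEq p P
  have happ : ∀ x : A, (∑ k ∈ range p, P ^ k) x = ∑ k ∈ range p, (P ^ k) x := by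
    intro x
    rw [LinearMap.sum_apply]
  have hpow : ∀ c : A, P c = c → ∀ m : ℕ, (P ^ m) c = c := by
    intro c hc m
    induction m with
    | zero => rfl
    | succ m ih => rw [pow_succ, Module.End.mul_apply, hc, ih]
  refine ⟨?_, ?_⟩
  · intro c hc
    refine ⟨E c, ?_⟩
    rw [hN, happ]
    conv_rhs => rw [hS c]
    refine sum_congr rfl fun k _ => ?_
    rw [hpow c hc (p - k)]
  · intro c hc
    set d : ℕ → A := fun k => E ((P ^ (p - k)) c) with hd
    have hcd : c = ∑ k ∈ range p, (P ^ k) (d k) := hS c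
    have hNd : (∑ m ∈ range p, P ^ m) (∑ k ∈ range p, d k) = 0 := by
      have h1 : (∑ m ∈ range p, P ^ m) (∑ k ∈ range p, (P ^ k) (d k)) = 0 := by
        rw [← hcd, ← hN]
        exact hc
      rw [← h1, map_sum, map_sum]
      refine sum_congr rfl fun k _ => ?_
      have h2 := congrArg (fun f : A →ₗ[ZMod p] A => f (d k)) (FRE.norm_pow p P hP k)
      exact h2.symm
    have hEd : E (∑ k ∈ range p, d k) = ∑ k ∈ range p, d k := by
      rw [map_sum]
      exact sum_congr rfl fun k _ => hE _
    have hd0 : ∑ k ∈ range p, d k = 0 := by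
      have h1 := congrArg E hNd
      rw [happ, map_sum, map_zero] at h1
      have h2 : ∑ m ∈ range p, E ((P ^ m) (∑ k ∈ range p, d k)) =
          E ((P ^ 0) (∑ k ∈ range p, d k)) := by
        refine sum_eq_single_of_mem 0 (mem_range.2 hp) ?_
        intro m hm hm0
        have h3 := hO m (Nat.pos_of_ne_zero hm0) (mem_range.1 hm) (∑ k ∈ range p, d k)
        rwa [hEd] at h3
      rw [h2, pow_zero, Module.End.one_apply, hEd] at h1
      exact h1
    refine ⟨∑ k ∈ range p, (∑ j ∈ range k, P ^ j) (d k), ?_⟩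
    rw [map_sum]
    have h4 : ∀ k ∈ range p, (P - 1) ((∑ j ∈ range k, P ^ j) (d k)) = (P ^ k) (d k) - d k := by
      intro k _
      rw [← Module.End.mul_apply, mul_geom_sum, LinearMap.sub_apply, Module.End.one_apply]
    rw [sum_congr rfl h4, sum_sub_distrib, hd0, sub_zero, ← hcd]

end Pool.Agent.MSO
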