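import Pool.Agent.MSO.Targets
import Pool.Agent.MSN.AALGA

/-!
# KEYP: the signed complexes of cliques are exact over every prime field
-/

namespace Pool.Agent.MSO

open List Pool.Agent.MSF
open Pool.Agent.MSN (NonObtuse)
open Pool.Agent.MSN.Alg (nC alga_conn)
open Pool.Agent.MSN.Fin (IsP)

universe u

/-- The target `T_KEYP`. -/
theorem tKEYP (h1 : T_UNIQ.{u}) (h2 : T_SGR.{u}) (h3 : T_EXA.{u}) (h4 : T_EXB.{u})
    (h5 : T_EXC.{u}) (h6 : T_EXD.{u}) (h7 : T_EUL.{u}) (h8 : Pool.Agent.MSN.Grp.T_KEY.{u})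
    (h9 : Pool.Agent.MSN.Alg.T_CHI.{u}) (h10 : Pool.Agent.MSF.T_LARGE.{u})
    (h11 : Pool.Agent.MSF.T_TRIG.{u}) : T_KEYP.{u} := by
  intro V _ _ G len hX hN hF p _
  have hA : Angled G (angle len) := angled_of_ms h10 h11 hX
  have hconn : ∀ a b, ∃ P, IsP G a b P := fun a b => alga_conn hX.simplyConn.1 a b
  have hE : ∀ n : ℕ, Fintype.card V < n →
      ∑ j ∈ Finset.range n, (-1 : ℤ) ^ j * (nC G j : ℤ) = 0 := h9 G (h8 G len hX hN hF)
  refine (h2 (ZMod p) (Cl G)).1 (h7 (ZMod p) G hF hE fun j hj => ?_)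
  match j, hj with
  | 0, _ => exact (h3 (ZMod p) G hX.simplyConn.1).1
  | 1, _ => exact (h3 (ZMod p) G hX.simplyConn.1).2
  | 2, _ => exact (h5 (ZMod p) G).1 (h4 (ZMod p) G hX.simplyConn hconn)
  | 3, _ =>
    exact (h5 (ZMod p) G).2 (h6 (ZMod p) G hX.simplyConn hconn fun ω a1 a2 P t b1 b2 b3 =>
      h1 G (angle len) hA ω a1 a2 P t b1 b2 b3)
  | (k + 4), hk => exact absurd hk (by omega)

end Pool.Agent.MSO
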