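import Pool.Agent.MSO.Targets

/-!
# LEF: the exact Lefschetz number, exactness over a prime field
-/

set_option autoImplicit false

namespace Pool.Agent.MSO

open Pool.Agent.MSF
open Pool.Agent.MSN.Grp (sg eps T_SGN T_TRC)

universe u

namespace LEF

/-- The signed sum over pairs of different elements vanishes. -/
theorem pairs {V : Type u} [LinearOrder V] (h2 : T_SGN.{u}) (t : Finset V)
    (c : Finset V → ℤ) :
    ∑ x ∈ t, ∑ y ∈ t.erase x, sg t x * sg (t.erase x) y * c ((t.erase x).erase y) = 0 := by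
  rw [Finset.sum_sigma' t (fun x => t.erase x)
    (fun x y => sg t x * sg (t.erase x) y * c ((t.erase x).erase y))]
  refine Finset.sum_involution (fun p _ => ⟨p.2, p.1⟩) ?_ ?_ ?_ ?_
  · rintro ⟨x, y⟩ h
    simp only [Finset.mem_sigma, Finset.mem_erase] at h
    show sg t x * sg (t.erase x) y * c ((t.erase x).erase y) +
      sg t y * sg (t.erase y) x * c ((t.erase y).erase x) = 0
    rw [Finset.erase_right_comm (s := t) (a := y) (b := x), ← add_mul,
      h2.1 t x y h.1 h.2.2 (fun hh => h.2.1 hh.symm), zero_mul]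
  · rintro ⟨x, y⟩ h _ heq
    simp only [Finset.mem_sigma, Finset.mem_erase] at h
    exact h.2.1 (congrArg Sigma.fst heq)
  · rintro ⟨x, y⟩ h
    simp only [Finset.mem_sigma, Finset.mem_erase] at h ⊢
    exact ⟨h.2.2, fun hh => h.2.1 hh.symm, h.1⟩
  · rintro ⟨x, y⟩ h
    rfl

end LEF

open LEF in
open Classical in
theorem tLEF (h2 : T_SGN.{u}) (h1 : T_RNK.{u}) (h3 : T_TRC.{u}) : T_LEF.{u} := by
  intro V _ _ p _ F hF hEx g hg
  let K : Type u := {s : Finset V // F s}
  have herase : ∀ (s : K) (x : V), F (s.1.erase x) := fun s x => hF s.1 x s.2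
  let er : K → V → K := fun s x => ⟨s.1.erase x, herase s x⟩
  let D : Matrix K K ℤ := Matrix.of fun t s => ∑ x ∈ t.1, if er t x = s then sg t.1 x else 0
  have D_apply : ∀ t s, D t s = ∑ x ∈ t.1, if er t x = s then sg t.1 x else 0 := fun _ _ => rfl
  have D_mul : ∀ (R : Type) [CommRing R] (c : K → R) (t : K),
      (D.map (Int.cast : ℤ → R)).mulVec c t = ∑ x ∈ t.1, ((sg t.1 x : ℤ) : R) * c (er t x) := by
    intro R _ c t
    rw [Matrix.mulVec, dotProduct]
    have e1 : ∀ s : K, (D.map (Int.cast : ℤ → R)) t s * c s =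
        ∑ x ∈ t.1, if er t x = s then ((sg t.1 x : ℤ) : R) * c s else 0 := by
      intro s
      rw [Matrix.map_apply, D_apply, Int.cast_sum, Finset.sum_mul]
      refine Finset.sum_congr rfl fun x _ => ?_
      split_ifs
      · rfl
      · rw [Int.cast_zero, zero_mul]
    rw [Finset.sum_congr rfl fun s _ => e1 s, Finset.sum_comm]
    refine Finset.sum_congr rfl fun x _ => ?_
    rw [Finset.sum_ite_eq]
    simp
  have hDD : D * D = 0 := by
    ext t r
    rw [Matrix.mul_apply]
    have e0 : ∀ s : K, D t s * D s r = ∑ x ∈ t.1, if er t x = s then sg t.1 x * D s r else 0 := by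
      intro s
      rw [D_apply, Finset.sum_mul]
      refine Finset.sum_congr rfl fun x _ => ?_
      split_ifs
      · rfl
      · rw [zero_mul]
    rw [Finset.sum_congr rfl fun s _ => e0 s, Finset.sum_comm]
    have e2 := pairs h2 t.1 (fun s => if s = r.1 then 1 else 0)
    rw [Matrix.zero_apply]
    refine Eq.trans ?_ e2
    refine Finset.sum_congr rfl fun x _ => ?_
    rw [Finset.sum_ite_eq, if_pos (Finset.mem_univ _), D_apply, Finset.mul_sum]
    refine Finset.sum_congr rfl fun y _ => ?_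
    have e3 : (er (er t x) y = r) ↔ ((t.1.erase x).erase y = r.1) :=
      ⟨fun h => congrArg Subtype.val h, fun h => Subtype.ext h⟩
    by_cases h : (t.1.erase x).erase y = r.1
    · rw [if_pos (e3.2 h), if_pos h, mul_one]
    · rw [if_neg (fun hh => h (e3.1 hh)), if_neg h, mul_zero, mul_zero]
  have hex2 : ∀ c : K → ZMod p, (D.map (Int.cast : ℤ → ZMod p)).mulVec c = 0 →
      ∃ e, (D.map (Int.cast : ℤ → ZMod p)).mulVec e = c := by
    intro c hc
    let ext : Finset V → ZMod p := fun s => if h : F s then c ⟨s, h⟩ else 0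
    have ext_of : ∀ s : K, ext s.1 = c s := fun s => dif_pos s.2
    obtain ⟨e, he⟩ := hEx ext (fun t ht => by
      have e1 := congrFun hc ⟨t, ht⟩
      rw [D_mul] at e1
      rw [Pi.zero_apply] at e1
      refine Eq.trans ?_ e1
      refine Finset.sum_congr rfl fun x _ => ?_
      rw [← ext_of (er ⟨t, ht⟩ x)])
    refine ⟨fun s => e s.1, ?_⟩
    funext t
    rw [D_mul, ← ext_of t, he t.1 t.2]
  have hexQ := h1 p D hDD hex2
  have himg : ∀ s : K, F (s.1.image g) := fun s => (hg s.1).1 s.2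
  let σ : K → K := fun s => ⟨s.1.image g, himg s⟩
  let P : Matrix K K ℚ := Matrix.of fun s s' => if σ s = s' then ((eps g s.1 : ℤ) : ℚ) else 0
  have P_apply : ∀ s s', P s s' = if σ s = s' then ((eps g s.1 : ℤ) : ℚ) else 0 := fun _ _ => rfl
  have P_mul : ∀ (c : K → ℚ) (s : K), P.mulVec c s = ((eps g s.1 : ℤ) : ℚ) * c (σ s) := by
    intro c s
    rw [Matrix.mulVec, dotProduct]
    have e1 : ∀ s' : K, P s s' * c s' = if σ s = s' then ((eps g s.1 : ℤ) : ℚ) * c s' else 0 := by
      intro s'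
      rw [P_apply]
      split_ifs
      · rfl
      · rw [zero_mul]
    rw [Finset.sum_congr rfl fun s' _ => e1 s', Finset.sum_ite_eq]
    simp
  let J : Matrix K K ℚ := Matrix.diagonal fun s => (-1 : ℚ) ^ s.1.card
  have hPD : P * D.map (Int.cast : ℤ → ℚ) = D.map (Int.cast : ℤ → ℚ) * P := by
    apply Matrix.mulVec_injective
    funext c
    rw [← Matrix.mulVec_mulVec, ← Matrix.mulVec_mulVec]
    funext t
    rw [P_mul, D_mul, D_mul]
    show ((eps g t.1 : ℤ) : ℚ) * ∑ z ∈ t.1.image g, ((sg (t.1.image g) z : ℤ) : ℚ) * c (er (σ t) z) = _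
    rw [Finset.sum_image (fun a _ b _ h => g.injective h), Finset.mul_sum]
    refine Finset.sum_congr rfl fun y hy => ?_
    rw [P_mul]
    have e1 : er (σ t) (g y) = σ (er t y) := by
      apply Subtype.ext
      show (t.1.image g).erase (g y) = (t.1.erase y).image g
      exact (Finset.image_erase g.injective _ _).symm
    rw [e1, ← mul_assoc, ← mul_assoc, ← Int.cast_mul, ← Int.cast_mul, h2.2.1 g t.1 y hy]
  have hJD : J * D.map (Int.cast : ℤ → ℚ) = -(D.map (Int.cast : ℤ → ℚ) * J) := by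
    ext t s
    rw [Matrix.neg_apply, Matrix.diagonal_mul, Matrix.mul_diagonal, Matrix.map_apply, D_apply,
      Int.cast_sum, Finset.mul_sum, Finset.sum_mul, ← Finset.sum_neg_distrib]
    refine Finset.sum_congr rfl fun x hx => ?_
    split_ifs with h
    · have e1 : t.1.card = s.1.card + 1 := by
        rw [← h]
        exact (Finset.card_erase_add_one hx).symm
      rw [e1, pow_succ]
      ring
    · rw [Int.cast_zero, mul_zero, zero_mul, neg_zero]
  have hDDQ : D.map (Int.cast : ℤ → ℚ) * D.map (Int.cast : ℤ → ℚ) = 0 := by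
    have e1 : (D * D).map (Int.cast : ℤ → ℚ) = D.map (Int.cast : ℤ → ℚ) * D.map (Int.cast : ℤ → ℚ) :=
      Matrix.map_mul (f := Int.castRingHom ℚ)
    rw [← e1, hDD]
    ext t s
    simp
  have htr := h3 (D.map (Int.cast : ℤ → ℚ)) P J hDDQ hexQ hPD hJD
  rw [Matrix.trace] at htr
  have e1 : ∀ s : K, (J * P).diag s =
      if σ s = s then (((-1 : ℤ) ^ s.1.card * eps g s.1 : ℤ) : ℚ) else 0 := by
    intro s
    rw [Matrix.diag_apply, Matrix.diagonal_mul, P_apply]
    split_ifs
    · push_cast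
      rfl
    · rw [mul_zero]
  rw [Finset.sum_congr rfl fun s _ => e1 s, ← Finset.sum_filter, ← Int.cast_sum] at htr
  have htr' := Int.cast_eq_zero.1 htr
  rw [← htr']
  refine (Finset.sum_bij (fun (s : K) _ => s.1) ?_ ?_ ?_ ?_).symm
  · intro s hs
    rw [Finset.mem_filter] at hs ⊢
    exact ⟨Finset.mem_univ _, s.2, congrArg Subtype.val hs.2⟩
  · intro s _ s' _ h
    exact Subtype.ext h
  · intro s hs
    rw [Finset.mem_filter] at hs
    refine ⟨⟨s, hs.2.1⟩, ?_, rfl⟩
    rw [Finset.mem_filter]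
    exact ⟨Finset.mem_univ _, Subtype.ext hs.2.2⟩
  · intro s _
    rfl

end Pool.Agent.MSO
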