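import Pool.Agent.MSO.Targets

/-!
# OLA: invariant cliques for groups of Oliver's class acting on arbitrary complexes
-/

set_option autoImplicit false

namespace Pool.Agent.MSO

open Pool.Agent.MSF Pool.Agent.MSN Pool.Agent.MSN.Alg

universe u

/-- OLA. -/
theorem tOLA (h1 : T_KEYP.{u}) (h2 : T_OLF.{u}) (h3 : Pool.Agent.MSN.Fin.T_FIN.{u}) :
    T_OLA.{u} := by
  classical
  intro V G len hX hN h5 Q _ _ _ hG K P C hK hP hC hKP hKt p _ hp g hCg q _ hq
  -- the action of `Q ⧸ K` on `V`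
  let φ : Q ⧸ K →* Equiv.Perm V := QuotientGroup.lift K (MulAction.toPermHom Q V) (by
    intro k hk
    ext v
    simp [hKt k hk v])
  let : MulAction (Q ⧸ K) V := MulAction.compHom V φ
  have hsm : ∀ (h : Q) (v : V), ((h : Q ⧸ K)) • v = h • v := fun h v => rfl
  have hG' : ∀ (h : Q ⧸ K) (a b : V), G.Adj (h • a) (h • b) ↔ G.Adj a b := by
    intro h a b
    induction h using QuotientGroup.induction_on with
    | H z => rw [hsm, hsm]; exact hG z a b
  obtain ⟨W, hW, hA, Y, π, hπ, hadj, hY, -, hms, hcf, hno⟩ := h3 (Q ⧸ K) G len hX hG'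
  have := Fintype.ofFinite W
  let : LinearOrder W := LinearOrder.lift' (Fintype.equivFin W) (Fintype.equivFin W).injective
  have hex : SEx (ZMod p) (Cl Y) := h1 Y _ hms (hno hN) (hcf 5 h5) p
  let P' : Subgroup (Q ⧸ K) := P.map (QuotientGroup.mk' K)
  let C' : Subgroup (Q ⧸ K) := C.map (QuotientGroup.mk' K)
  have hP' : P'.Normal := hP.map _ (QuotientGroup.mk'_surjective K)
  have hC' : C'.Normal := hC.map _ (QuotientGroup.mk'_surjective K)
  have hmap : C' = P' ⊔ Subgroup.zpowers ((g : Q ⧸ K)) := by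
    change C.map (QuotientGroup.mk' K) = _
    rw [hCg, Subgroup.map_sup, MonoidHom.map_zpowers]
    rfl
  have hpg : IsPGroup p P' := by
    rintro ⟨x, hx⟩
    obtain ⟨y, hy, rfl⟩ := hx
    obtain ⟨n, hn⟩ := hp y hy
    refine ⟨n, Subtype.ext ?_⟩
    have : (QuotientGroup.mk' K) (y ^ p ^ n) = 1 := by
      rw [← MonoidHom.mem_ker, QuotientGroup.ker_mk']
      exact hn
    simpa [map_pow] using this
  obtain ⟨s, hs, hc, hi⟩ := h2 Y p hex (Q ⧸ K) hY P' C' hP' hC' hpg ((g : Q ⧸ K)) hmap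
    q (by
      intro x
      induction x using QuotientGroup.induction_on with
      | H z =>
        obtain ⟨n, hn⟩ := hq z
        exact ⟨n, ⟨_, hn, by simp⟩⟩)
  obtain ⟨t, ht, htc, hti⟩ := Fin.push hπ hadj hs hc hi
  exact ⟨t, ht, htc, fun h x hx => by
    have := hti (h : Q ⧸ K) x hx
    rwa [hsm] at this⟩

end Pool.Agent.MSO
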