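import Pool.Agent.MSO.Targets

/-!
# OLF: finite complexes (MP_d6353f_al (a), MSO)
-/

namespace Pool.Agent.MSO

open List Pool.Agent.MSF
open Pool.Agent.MSN (NonObtuse)

universe u

namespace OLF

variable {V : Type u} [LinearOrder V] {G : SimpleGraph V} {Q : Type} [Group Q] [MulAction Q V]

/-- The image of a nonempty clique. -/
def act (hG : ∀ (h : Q) (a b : V), G.Adj (h • a) (h • b) ↔ G.Adj a b) (h : Q) (s : NC G) : NC G :=
  ⟨s.1.image (fun x => h • x), s.2.1.image _, by
    intro a ha b hb hab
    simp only [Finset.coe_image, Set.mem_image, Finset.mem_coe] at ha hb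
    obtain ⟨a', ha', rfl⟩ := ha
    obtain ⟨b', hb', rfl⟩ := hb
    exact (hG h a' b').2 (s.2.2 ha' hb' (fun e => hab (by rw [e])))⟩

/-- The action on the nonempty cliques. -/
@[reducible]
def actM (hG : ∀ (h : Q) (a b : V), G.Adj (h • a) (h • b) ↔ G.Adj a b) : MulAction Q (NC G) where
  smul := act hG
  one_smul s := by
    apply Subtype.ext
    change s.1.image (fun x => (1 : Q) • x) = s.1
    simp
  mul_smul a b s := by
    apply Subtype.ext
    change s.1.image (fun x => (a * b) • x) = (s.1.image (fun x => b • x)).image (fun x => a • x)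
    rw [Finset.image_image]
    congr 1
    funext x
    simp [mul_smul]

/-- Comparable elements of the same size are equal. -/
lemma card_act (hG : ∀ (h : Q) (a b : V), G.Adj (h • a) (h • b) ↔ G.Adj a b) (h : Q) (s : NC G) :
    (act hG h s).1.card = s.1.card := by
  change (s.1.image (fun x => h • x)).card = s.1.card
  exact Finset.card_image_of_injective _ (MulAction.injective h)

end OLF

open OLF in
theorem tOLF (h1 : T_SUBD.{u}) (h2 : T_SMP.{u}) (h3 : T_CQR.{u}) : T_OLF.{u} := by
  intro V _ _ G p _ hK Q _ _ _ hG P C hP hC hPp g hCg q _ hq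
  classical
  let _ : Fintype (NC G) := Fintype.ofFinite _
  let LO : LinearOrder (NC G) := linearOrderOfSTO (WellOrderingRel : NC G → NC G → Prop)
  let _ : LinearOrder (NC G) := LO
  let _ : DecidableEq (NC G) := LO.toDecidableEq
  let _ : MulAction Q (NC G) := actM hG
  have hval : ∀ (h : Q) (s : NC G), (h • s).1 = s.1.image (fun x => h • x) := fun _ _ => rfl
  have hcard : ∀ (h : Q) (s : NC G), (h • s).1.card = s.1.card := fun h s => card_act hG h s
  have hS : SEx (ZMod p) (Cl (Cmp G)) := h1 (ZMod p) G hK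
  have hD : Dn (Cl (Cmp G)) := by
    intro s x hs a ha b hb hab
    refine hs ?_ ?_ hab
    · exact Finset.mem_of_mem_erase ha
    · exact Finset.mem_of_mem_erase hb
  have hI : Inva (Cl (Cmp G)) Q := by
    intro h s hs a ha b hb hab
    simp only [Finset.coe_image, Set.mem_image, Finset.mem_coe] at ha hb
    obtain ⟨a', ha', rfl⟩ := ha
    obtain ⟨b', hb', rfl⟩ := hb
    have hne : a' ≠ b' := fun e => hab (by rw [e])
    have h4 := (hs ha' hb' hne).2
    refine ⟨hab, ?_⟩
    rcases h4 with h4 | h4
    · left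
      rw [hval, hval]
      exact Finset.image_subset_image h4
    · right
      rw [hval, hval]
      exact Finset.image_subset_image h4
  have hR : Reg (Cl (Cmp G)) Q := by
    intro h s hs hsi x hx
    have hx' : h • x ∈ s := by
      rw [← hsi]
      exact Finset.mem_image_of_mem _ hx
    by_contra hne
    have h4 := (hs hx' hx hne).2
    apply hne
    apply Subtype.ext
    rcases h4 with h4 | h4
    · exact Finset.eq_of_subset_of_card_le h4 (by rw [hcard])
    · exact (Finset.eq_of_subset_of_card_le h4 (by rw [hcard])).symm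
  have hS' := h2 p (Cl (Cmp G)) hD hS Q hI hR P hPp
  have hfix : ∀ (h : Q) (x : NC G), (∀ k ∈ P, k • x = x) → ∀ k ∈ P, k • (h • x) = h • x := by
    intro h x hx k hk
    have h5 : h⁻¹ * k * h ∈ P := by
      have := hP.conj_mem k hk h⁻¹
      simpa using this
    have h6 := hx _ h5
    calc k • (h • x) = h • ((h⁻¹ * k * h) • x) := by
          rw [← mul_smul, ← mul_smul]
          congr 1
          group
      _ = h • x := by rw [h6]
  obtain ⟨x, hx1, hx2⟩ := h3 p (fun s => Cl (Cmp G) s ∧ ∀ h ∈ P, ∀ x ∈ s, h • x = x)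
    (by
      intro s x hs
      exact ⟨hD s x hs.1, fun h hh y hy => hs.2 h hh y (Finset.mem_of_mem_erase hy)⟩)
    ⟨by simp [Cl], by simp⟩ hS' Q
    (by
      intro h s hs
      refine ⟨hI h s hs.1, ?_⟩
      intro k hk y hy
      obtain ⟨z, hz, rfl⟩ := Finset.mem_image.1 hy
      exact hfix h z (fun k hk => hs.2 k hk z hz) k hk)
    (by
      intro h s hs hsi x hx
      exact hR h s hs.1 hsi x hx)
    C hC g (by
      rw [hCg]
      exact Subgroup.mem_sup_right (Subgroup.mem_zpowers g))
    (by
      intro c hc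
      rw [hCg, Subgroup.mem_sup_of_normal_left] at hc
      obtain ⟨y, hy, z, hz, rfl⟩ := hc
      obtain ⟨n, rfl⟩ := Subgroup.mem_zpowers_iff.1 hz
      refine ⟨n, ?_⟩
      intro s hs x hx
      rw [mul_smul]
      exact hfix (g ^ n) x (fun k hk => hs.2 k hk x hx) y hy)
    q hq
  refine ⟨x.1, x.2.1, x.2.2, ?_⟩
  intro h y hy
  have h7 : h • y ∈ (h • x).1 := by
    rw [hval]
    exact Finset.mem_image_of_mem _ hy
  rw [hx2 h] at h7
  exact h7

end Pool.Agent.MSO
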