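import Pool.Agent.MSO.Targets
import Pool.Agent.MSN.GRNK

/-!
# RNK: exactness over `ZMod p` implies exactness over `ℚ`

Let `K` be the kernel and `R` the range of an integral square matrix `M` with `M * M = 0`. Exactness
mod `p` gives `K = R + p K`, so by Nakayama an integer which is `1` mod `p` kills `K / R`.
-/

set_option autoImplicit false

namespace Pool.Agent.MSO.RNK

open Pool.Agent.MSN.Grp.GRNK (cast_mulVec)

universe u

variable {ι : Type u} [Fintype ι]

/-- One step: a vector of the kernel is a vector of the range plus `p` times a vector of the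
kernel. -/
lemma step (p : ℕ) (hp : p ≠ 0) (M : Matrix ι ι ℤ) (hMM : M * M = 0)
    (hex : ∀ c : ι → ZMod p, (M.map (Int.cast : ℤ → ZMod p)).mulVec c = 0 →
      ∃ e, (M.map (Int.cast : ℤ → ZMod p)).mulVec e = c) (c : ι → ℤ) (hc : M.mulVec c = 0) :
    ∃ e f : ι → ℤ, c = M.mulVec e + (p : ℤ) • f ∧ M.mulVec f = 0 := by
  obtain ⟨e₂, he₂⟩ := hex (fun j => (c j : ZMod p)) (by
    funext i
    rw [cast_mulVec, hc]
    simp)
  choose e he using fun i => ZMod.intCast_surjective (e₂ i)
  have hee : e₂ = fun j => (e j : ZMod p) := by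
    funext j
    exact (he j).symm
  have hdvd : ∀ i, ∃ f : ℤ, c i - M.mulVec e i = p * f := by
    intro i
    have h1 := congrFun he₂ i
    rw [hee, cast_mulVec] at h1
    have h2 : ((c i - M.mulVec e i : ℤ) : ZMod p) = 0 := by
      push_cast
      rw [h1]
      simp
    exact (ZMod.intCast_zmod_eq_zero_iff_dvd _ p).mp h2
  choose f hf using hdvd
  have h1 : c = M.mulVec e + (p : ℤ) • f := by
    funext i
    have := hf i
    simp only [Pi.add_apply, Pi.smul_apply, smul_eq_mul]
    linarith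
  refine ⟨e, f, h1, ?_⟩
  have h2 : (p : ℤ) • M.mulVec f = 0 := by
    have h3 : M.mulVec c = M.mulVec (M.mulVec e) + (p : ℤ) • M.mulVec f := by
      conv_lhs => rw [h1]
      rw [Matrix.mulVec_add, Matrix.mulVec_smul]
    rw [hc, Matrix.mulVec_mulVec, hMM, Matrix.zero_mulVec, zero_add] at h3
    exact h3.symm
  funext i
  have h4 := congrFun h2 i
  simp only [Pi.smul_apply, smul_eq_mul, Pi.zero_apply] at h4
  simpa [hp] using h4

/-- A nonzero integer kills the kernel modulo the range. -/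
lemma killed (p : ℕ) [Fact p.Prime] (M : Matrix ι ι ℤ) (hMM : M * M = 0)
    (hex : ∀ c : ι → ZMod p, (M.map (Int.cast : ℤ → ZMod p)).mulVec c = 0 →
      ∃ e, (M.map (Int.cast : ℤ → ZMod p)).mulVec e = c) :
    ∃ a : ℤ, a ≠ 0 ∧ ∀ c : ι → ℤ, M.mulVec c = 0 → ∃ e, M.mulVec e = a • c := by
  have hp : p.Prime := Fact.out
  set R := LinearMap.range M.mulVecLin with hR
  set K := LinearMap.ker M.mulVecLin with hK
  set N : Submodule ℤ ((ι → ℤ) ⧸ R) := K.map R.mkQ with hN
  have hfg : N.FG := IsNoetherian.noetherian N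
  have hle : N ≤ (Ideal.span {(p : ℤ)}) • N := by
    intro x hx
    obtain ⟨c, hc, rfl⟩ := (Submodule.mem_map).mp hx
    have hc' : M.mulVec c = 0 := by
      have := LinearMap.mem_ker.mp hc
      simpa using this
    obtain ⟨e, f, hef, hf⟩ := step p hp.ne_zero M hMM hex c hc'
    have h1 : R.mkQ c = (p : ℤ) • R.mkQ f := by
      rw [hef, map_add, map_smul]
      have h2 : R.mkQ (M.mulVec e) = 0 := by
        rw [Submodule.mkQ_apply, Submodule.Quotient.mk_eq_zero]
        exact ⟨e, by simp⟩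
      rw [h2, zero_add]
    rw [h1]
    refine Submodule.smul_mem_smul (Ideal.mem_span_singleton_self _) ?_
    refine Submodule.mem_map_of_mem ?_
    exact LinearMap.mem_ker.mpr (by simpa using hf)
  obtain ⟨r, hr, hr0⟩ := Submodule.exists_sub_one_mem_and_smul_eq_zero_of_fg_of_le_smul
    (Ideal.span {(p : ℤ)}) N hfg hle
  refine ⟨r, ?_, ?_⟩
  · rintro rfl
    rw [Ideal.mem_span_singleton] at hr
    have h1 : (p : ℤ) ∣ 1 := by
      have h2 := hr.neg_right
      simpa using h2
    have h3 : p ∣ 1 := by exact_mod_cast h1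
    exact hp.one_lt.ne' (Nat.dvd_one.mp h3)
  · intro c hc
    have h1 : R.mkQ c ∈ N := Submodule.mem_map_of_mem (LinearMap.mem_ker.mpr (by simpa using hc))
    have h2 := hr0 _ h1
    rw [← map_smul, Submodule.mkQ_apply, Submodule.Quotient.mk_eq_zero] at h2
    obtain ⟨e, he⟩ := h2
    exact ⟨e, by simpa using he⟩

end Pool.Agent.MSO.RNK

namespace Pool.Agent.MSO

open RNK
open Pool.Agent.MSN.Grp.GRNK (cast_mulVec)

universe u

/-- Exactness over `ZMod p` implies exactness over `ℚ`. -/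
theorem tRNK : T_RNK.{u} := by
  intro ι _ _ p _ M hMM hex c hc
  obtain ⟨a, ha, hkill⟩ := killed p M hMM hex
  obtain ⟨b, hb⟩ := IsLocalization.exist_integer_multiples_of_finite (nonZeroDivisors ℤ) c
  choose c' hc' using hb
  have hb0 : ((b : ℤ) : ℚ) ≠ 0 := by
    exact_mod_cast nonZeroDivisors.coe_ne_zero b
  have ha0 : (a : ℚ) ≠ 0 := by exact_mod_cast ha
  have hcc : ∀ i, ((c' i : ℤ) : ℚ) = ((b : ℤ) : ℚ) * c i := by
    intro i
    have := hc' i
    simpa [zsmul_eq_mul] using this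
  have hint : M.mulVec c' = 0 := by
    funext i
    have h1 : ((M.mulVec c' i : ℤ) : ℚ) = 0 := by
      rw [← cast_mulVec]
      have h2 : (fun j => ((c' j : ℤ) : ℚ)) = ((b : ℤ) : ℚ) • c := by
        funext j
        rw [hcc j]
        simp
      rw [h2, Matrix.mulVec_smul, hc]
      simp
    exact_mod_cast h1
  obtain ⟨e, he⟩ := hkill c' hint
  refine ⟨fun j => ((a : ℚ) * ((b : ℤ) : ℚ))⁻¹ * (e j : ℚ), ?_⟩
  have h3 : (fun j => ((a : ℚ) * ((b : ℤ) : ℚ))⁻¹ * (e j : ℚ)) =
      ((a : ℚ) * ((b : ℤ) : ℚ))⁻¹ • (fun j => (e j : ℚ)) := by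
    funext j
    simp
  rw [h3, Matrix.mulVec_smul]
  funext i
  rw [Pi.smul_apply, cast_mulVec, he]
  simp only [Pi.smul_apply, smul_eq_mul, Int.cast_mul]
  rw [hcc i]
  field_simp

end Pool.Agent.MSO
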