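import Pool.Agent.MSO.Targets

/-! Target SGR of the project MSO: graded and ungraded exactness. -/

set_option autoImplicit false

namespace Pool.Agent.MSO

universe u

namespace SGR

variable {V : Type u} [LinearOrder V]

theorem ofGraded (F : Type) [CommRing F] (K : Finset V → Prop) (h : ∀ j, SExj F K j) :
    SEx F K := by
  intro c hc
  choose e he using fun j => h j c (fun t hK _ => hc t hK)
  refine ⟨fun s => e (s.card + 1) s, fun s hs => ?_⟩
  rw [he s.card s hs rfl]
  refine Finset.sum_congr rfl fun x hx => ?_
  have h1 : (s.erase x).card + 1 = s.card := Finset.card_erase_add_one hx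
  simp only [h1]

theorem toGraded (F : Type) [CommRing F] (K : Finset V → Prop) (h : SEx F K) (j : ℕ) :
    SExj F K j := by
  intro c hc
  obtain ⟨e, he⟩ := h (fun s => if s.card = j then c s else 0) (fun t ht => by
    by_cases hj : t.card = j + 1
    · rw [← hc t ht hj]
      refine Finset.sum_congr rfl fun x hx => ?_
      have h1 : (t.erase x).card + 1 = t.card := Finset.card_erase_add_one hx
      have h2 : (t.erase x).card = j := by omega
      simp only [h2, if_true]
    · refine Finset.sum_eq_zero fun x hx => ?_
      have h1 : (t.erase x).card + 1 = t.card := Finset.card_erase_add_one hx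
      have h2 : (t.erase x).card ≠ j := by omega
      simp only [h2, if_false, mul_zero])
  refine ⟨e, fun s hs hj => ?_⟩
  rw [← he s hs]
  simp only [hj, if_true]

end SGR

theorem tSGR : T_SGR.{u} := by
  intro V _ F _ K
  exact ⟨fun h => SGR.ofGraded F K h, fun h j => SGR.toGraded F K h j⟩

end Pool.Agent.MSO
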