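import Pool.Agent.MSO.Targets

/-!
# SMI: Smith theory for one permutation
-/

namespace Pool.Agent.MSO

open Pool.Agent.MSN.Grp (sg eps T_SGN)

universe u

namespace SMI

section

variable {V : Type u} [LinearOrder V]

/-- The coboundary on the functions on `K`. -/
noncomputable def D (p : ℕ) (K : Finset V → Prop) (hK : Dn K) :
    ({s : Finset V // K s} → ZMod p) →ₗ[ZMod p] ({s : Finset V // K s} → ZMod p) where
  toFun c := fun t => ∑ x ∈ t.1, ((sg t.1 x : ℤ) : ZMod p) * c ⟨t.1.erase x, hK t.1 x t.2⟩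
  map_add' c c' := by
    funext t
    simp only [Pi.add_apply, mul_add, Finset.sum_add_distrib]
  map_smul' r c := by
    funext t
    simp only [Pi.smul_apply, smul_eq_mul, RingHom.id_apply, Finset.mul_sum]
    exact Finset.sum_congr rfl fun x _ => by ring

theorem D_apply (p : ℕ) (K : Finset V → Prop) (hK : Dn K) (c : {s : Finset V // K s} → ZMod p)
    (t : {s : Finset V // K s}) :
    D p K hK c t = ∑ x ∈ t.1, ((sg t.1 x : ℤ) : ZMod p) * c ⟨t.1.erase x, hK t.1 x t.2⟩ := rfl

/-- The action on simplices. -/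
def act {K : Finset V → Prop} (g : Equiv.Perm V) (hg : ∀ s, K s → K (s.image g))
    (s : {s : Finset V // K s}) : {s : Finset V // K s} := ⟨s.1.image g, hg s.1 s.2⟩

/-- The action on functions. -/
noncomputable def P (p : ℕ) {K : Finset V → Prop} (g : Equiv.Perm V)
    (hg : ∀ s, K s → K (s.image g)) :
    ({s : Finset V // K s} → ZMod p) →ₗ[ZMod p] ({s : Finset V // K s} → ZMod p) where
  toFun c := fun s => ((eps g s.1 : ℤ) : ZMod p) * c (act g hg s)
  map_add' c c' := by
    funext t
    simp only [Pi.add_apply, mul_add]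
  map_smul' r c := by
    funext t
    simp only [Pi.smul_apply, smul_eq_mul, RingHom.id_apply]
    ring

theorem P_apply (p : ℕ) {K : Finset V → Prop} (g : Equiv.Perm V)
    (hg : ∀ s, K s → K (s.image g)) (c : {s : Finset V // K s} → ZMod p)
    (s : {s : Finset V // K s}) :
    P p g hg c s = ((eps g s.1 : ℤ) : ZMod p) * c (act g hg s) := rfl

theorem DD (h1 : T_SGN.{u}) (p : ℕ) (K : Finset V → Prop) (hK : Dn K)
    (c : {s : Finset V // K s} → ZMod p) : D p K hK (D p K hK c) = 0 := by
  funext t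
  rw [D_apply]
  simp only [D_apply, Finset.mul_sum, Pi.zero_apply]
  rw [Finset.sum_sigma']
  refine Finset.sum_involution (fun z _ => ⟨z.2, z.1⟩) ?_ ?_ ?_ ?_
  · rintro ⟨x, y⟩ hz
    simp only [Finset.mem_sigma, Finset.mem_erase] at hz
    obtain ⟨hx, hyx, hy⟩ := hz
    have h2 := (h1 (V := V)).1 t.1 x y hx hy (Ne.symm hyx)
    have h3 : ((sg t.1 x : ℤ) : ZMod p) * ((sg (t.1.erase x) y : ℤ) : ZMod p) +
        ((sg t.1 y : ℤ) : ZMod p) * ((sg (t.1.erase y) x : ℤ) : ZMod p) = 0 := by
      have := congrArg (Int.cast : ℤ → ZMod p) h2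
      push_cast at this
      exact this
    have h4 : (⟨(t.1.erase y).erase x, hK _ x (hK _ y t.2)⟩ : {s : Finset V // K s}) =
        ⟨(t.1.erase x).erase y, hK _ y (hK _ x t.2)⟩ := Subtype.ext (Finset.erase_right_comm ..)
    simp only
    rw [h4, ← mul_assoc, ← mul_assoc, ← add_mul, h3, zero_mul]
  · rintro ⟨x, y⟩ hz _ hcon
    simp only [Finset.mem_sigma, Finset.mem_erase] at hz
    have : y = x := congrArg Sigma.fst hcon
    exact hz.2.1 this
  · rintro ⟨x, y⟩ hz
    simp only [Finset.mem_sigma, Finset.mem_erase] at hz ⊢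
    exact ⟨hz.2.2, Ne.symm hz.2.1, hz.1⟩
  · rintro ⟨x, y⟩ hz
    rfl

theorem PD (h1 : T_SGN.{u}) (p : ℕ) (K : Finset V → Prop) (hK : Dn K) (g : Equiv.Perm V)
    (hg : ∀ s, K s → K (s.image g)) (c : {s : Finset V // K s} → ZMod p) :
    D p K hK (P p g hg c) = P p g hg (D p K hK c) := by
  funext t
  rw [D_apply, P_apply, D_apply]
  simp only [P_apply, act]
  rw [Finset.sum_image (fun x _ y _ h => g.injective h), Finset.mul_sum]
  refine Finset.sum_congr rfl fun x hx => ?_
  have h2 := (h1 (V := V)).2.1 g t.1 x hx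
  have h3 : ((eps g t.1 : ℤ) : ZMod p) * ((sg (t.1.image g) (g x) : ℤ) : ZMod p) =
      ((sg t.1 x : ℤ) : ZMod p) * ((eps g (t.1.erase x) : ℤ) : ZMod p) := by
    have := congrArg (Int.cast : ℤ → ZMod p) h2
    push_cast at this
    exact this
  rw [← mul_assoc, ← mul_assoc, h3]
  congr 2
  exact Subtype.ext (Finset.image_erase g.injective t.1 x)

theorem act_iter {K : Finset V → Prop} (g : Equiv.Perm V) (hg : ∀ s, K s → K (s.image g))
    (k : ℕ) : ∀ s : {s : Finset V // K s},
    ((act g hg)^[k] s).1 = s.1.image (g ^ k : Equiv.Perm V) := by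
  induction k with
  | zero =>
    intro s
    simp
  | succ k ih =>
    intro s
    rw [Function.iterate_succ_apply, ih, act, Finset.image_image, pow_succ]
    rfl

theorem P_pow (h1 : T_SGN.{u}) (p : ℕ) {K : Finset V → Prop} (g : Equiv.Perm V)
    (hg : ∀ s, K s → K (s.image g)) (k : ℕ) : ∀ (c : {s : Finset V // K s} → ZMod p)
    (s : {s : Finset V // K s}), (P p g hg ^ k) c s =
      ((eps (g ^ k : Equiv.Perm V) s.1 : ℤ) : ZMod p) * c ((act g hg)^[k] s) := by
  induction k with
  | zero =>
    intro c s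
    have h2 := (h1 (V := V)).2.2.2 s.1
    rw [pow_zero, pow_zero, h2]
    simp
  | succ k ih =>
    intro c s
    rw [pow_succ', Module.End.mul_apply, P_apply, ih]
    have h2 := (h1 (V := V)).2.2.1 (g ^ k) g s.1
    rw [pow_succ, h2, Function.iterate_succ_apply]
    push_cast
    rw [show (act g hg s).1 = s.1.image g from rfl]
    ring

theorem eps_fix (g : Equiv.Perm V) (s : Finset V) (h : ∀ x ∈ s, g x = x) : eps g s = 1 := by
  unfold eps
  rw [Finset.filter_false_of_mem, Finset.card_empty, pow_zero]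
  rintro ⟨x, y⟩ hz ⟨h2, h3⟩
  rw [Finset.mem_product] at hz
  simp only at h2 h3 hz
  rw [h x hz.1, h y hz.2] at h3
  exact absurd h2 (not_lt.2 h3.le)

theorem image_fix (g : Equiv.Perm V) (s : Finset V) (h : ∀ x ∈ s, g x = x) : s.image g = s := by
  ext y
  rw [Finset.mem_image]
  constructor
  · rintro ⟨x, hx, rfl⟩
    rw [h x hx]
    exact hx
  · intro hy
    exact ⟨y, hy, h y hy⟩

theorem fix_image {g : Equiv.Perm V} {s : Finset V} :
    (∀ x ∈ s.image g, g x = x) ↔ ∀ x ∈ s, g x = x := by
  constructor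
  · intro h x hx
    exact g.injective (h (g x) (Finset.mem_image_of_mem _ hx))
  · intro h y hy
    rw [Finset.mem_image] at hy
    obtain ⟨x, hx, rfl⟩ := hy
    rw [h x hx, h x hx]

theorem fix_iter {K : Finset V → Prop} (g : Equiv.Perm V) (hg : ∀ s, K s → K (s.image g))
    (k : ℕ) : ∀ s : {s : Finset V // K s},
    (∀ x ∈ ((act g hg)^[k] s).1, g x = x) ↔ ∀ x ∈ s.1, g x = x := by
  induction k with
  | zero => intro s; rfl
  | succ k ih =>
    intro s
    rw [Function.iterate_succ_apply, ih]
    exact fix_image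

/-- The functions which vanish on the fixed simplices and on those with less than `n` elements. -/
def A (p : ℕ) (K : Finset V → Prop) (g : Equiv.Perm V) (n : ℕ) :
    Submodule (ZMod p) ({s : Finset V // K s} → ZMod p) where
  carrier := {c | ∀ s : {s : Finset V // K s}, ((∀ x ∈ s.1, g x = x) ∨ s.1.card < n) → c s = 0}
  add_mem' {c c'} h h' := by
    intro s hs
    rw [Pi.add_apply, h s hs, h' s hs, add_zero]
  zero_mem' := by
    intro s _
    rfl
  smul_mem' r c h := by
    intro s hs
    rw [Pi.smul_apply, h s hs, smul_zero]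

omit [LinearOrder V] in
theorem mem_A {p : ℕ} {K : Finset V → Prop} {g : Equiv.Perm V} {n : ℕ}
    {c : {s : Finset V // K s} → ZMod p} : c ∈ A p K g n ↔
    ∀ s : {s : Finset V // K s}, ((∀ x ∈ s.1, g x = x) ∨ s.1.card < n) → c s = 0 := Iff.rfl

theorem P_mem_A {p : ℕ} {K : Finset V → Prop} {g : Equiv.Perm V}
    (hg : ∀ s, K s → K (s.image g)) {n : ℕ}
    {c : {s : Finset V // K s} → ZMod p} (h : c ∈ A p K g n) : P p g hg c ∈ A p K g n := by
  intro s hs
  rw [P_apply, h (act g hg s), mul_zero]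
  rcases hs with hs | hs
  · exact Or.inl (fix_image.2 hs)
  · right
    rw [act, Finset.card_image_of_injective _ g.injective]
    exact hs

theorem tau_mem_A {p : ℕ} {K : Finset V → Prop} {g : Equiv.Perm V}
    (hg : ∀ s, K s → K (s.image g)) {n : ℕ} (i : ℕ)
    {c : {s : Finset V // K s} → ZMod p} (h : c ∈ A p K g n) :
    ((P p g hg - 1) ^ i) c ∈ A p K g n := by
  induction i with
  | zero => simpa using h
  | succ i ih =>
    rw [pow_succ', Module.End.mul_apply, LinearMap.sub_apply]
    exact (A p K g n).sub_mem (P_mem_A hg ih) ih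

theorem reps {X : Type u} [Finite X] (p : ℕ) (hp : p.Prime) (f : X → X)
    (hf : ∀ x, f^[p] x = x) : ∃ R : X → Prop, ∀ x, f x ≠ x →
    ∃ k < p, R (f^[k] x) ∧ ∀ l < p, R (f^[l] x) → l = k := by
  obtain ⟨e, he⟩ := exists_injective_nat X
  refine ⟨fun x => ∀ j, e x ≤ e (f^[j] x), ?_⟩
  intro x hx
  have hmod : ∀ k, f^[k % p] x = f^[k] x := by
    intro k
    have h1 : Function.IsPeriodicPt f p x := hf x
    exact h1.iterate_mod_apply k
  obtain ⟨k0, hk0⟩ : ∃ k0, ∀ j, e (f^[k0] x) ≤ e (f^[j] x) := by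
    obtain ⟨k0, hk0⟩ := Nat.sInf_mem (s := Set.range fun j => e (f^[j] x))
      (Set.range_nonempty _)
    refine ⟨k0, fun j => ?_⟩
    simp only at hk0
    rw [hk0]
    exact Nat.sInf_le ⟨j, rfl⟩
  refine ⟨k0 % p, Nat.mod_lt _ hp.pos, ?_, ?_⟩
  · intro j
    rw [hmod k0, ← Function.iterate_add_apply]
    exact hk0 _
  · intro l hl hR
    have h1 : e (f^[l] x) ≤ e (f^[k0] x) := by
      have h2 := hR (k0 + (p * l - l))
      rw [← Function.iterate_add_apply] at h2
      have h3 : k0 + (p * l - l) + l = k0 + p * l := by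
        have : l ≤ p * l := Nat.le_mul_of_pos_left l hp.pos
        omega
      rw [h3, ← hmod (k0 + p * l), Nat.add_mul_mod_self_left, hmod] at h2
      exact h2
    have h4 : f^[l] x = f^[k0 % p] x := by
      rw [hmod]
      exact he (le_antisymm h1 (hk0 l))
    have hk : k0 % p < p := Nat.mod_lt _ hp.pos
    generalize k0 % p = k at h4 hk
    have key : ∀ a b, a < b → b < p → f^[a] x = f^[b] x → False := by
      intro a b hab hbp h5
      have h6 : Function.IsPeriodicPt f (b - a) (f^[a] x) := by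
        change f^[b - a] (f^[a] x) = f^[a] x
        rw [← Function.iterate_add_apply, show b - a + a = b by omega, h5]
      have h7 : Function.IsPeriodicPt f p (f^[a] x) := hf _
      have h8 := h6.gcd h7
      have h9 : (b - a).gcd p = 1 := by
        have : Nat.Coprime p (b - a) := (Nat.Prime.coprime_iff_not_dvd hp).2 ?_
        · exact this.symm
        · exact Nat.not_dvd_of_pos_of_lt (by omega) (by omega)
      rw [h9] at h8
      have h10 : f (f^[a] x) = f^[a] x := h8
      apply hx
      have h11 : f^[p - a] (f^[a] x) = x := by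
        rw [← Function.iterate_add_apply, show p - a + a = p by omega, hf]
      have h12 : Function.IsFixedPt f (f^[a] x) := h10
      have h13 := h12.iterate (p - a)
      have h14 : f^[p - a] (f^[a] x) = f^[a] x := h13
      rw [h14] at h11
      rw [← h11]
      rw [h11]
      rw [h11] at h10
      exact h10
    rcases lt_trichotomy l k with h | h | h
    · exact (key l k h hk h4).elim
    · exact h
    · exact (key k l h hl h4.symm).elim

end

section

variable {V : Type u} [Fintype V] [LinearOrder V]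

/-- The restriction to the simplices in `R`. -/
def E (p : ℕ) {K : Finset V → Prop} (R : {s : Finset V // K s} → Prop) [DecidablePred R] :
    ({s : Finset V // K s} → ZMod p) →ₗ[ZMod p] ({s : Finset V // K s} → ZMod p) where
  toFun c := fun s => if R s then c s else 0
  map_add' c c' := by
    funext t
    simp only [Pi.add_apply]
    split_ifs
    · rfl
    · simp
  map_smul' r c := by
    funext t
    simp only [Pi.smul_apply, smul_eq_mul, RingHom.id_apply]
    split_ifs
    · rfl
    · simp

omit [Fintype V] [LinearOrder V] in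
theorem E_apply (p : ℕ) {K : Finset V → Prop} (R : {s : Finset V // K s} → Prop)
    [DecidablePred R] (c : {s : Finset V // K s} → ZMod p) (s : {s : Finset V // K s}) :
    E p R c s = if R s then c s else 0 := rfl

omit [Fintype V] [LinearOrder V] in
theorem E_mem_A {p : ℕ} {K : Finset V → Prop} {g : Equiv.Perm V}
    (R : {s : Finset V // K s} → Prop) [DecidablePred R] {n : ℕ}
    {c : {s : Finset V // K s} → ZMod p} (h : c ∈ A p K g n) : E p R c ∈ A p K g n := by
  intro s hs
  rw [E_apply, h s hs, ite_self]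

omit [Fintype V] [LinearOrder V] in
theorem coe_pow {p : ℕ} {B : Type u} [AddCommGroup B] [Module (ZMod p) B]
    (f : B →ₗ[ZMod p] B) (S : Submodule (ZMod p) B) (h : ∀ c ∈ S, f c ∈ S) (k : ℕ) (c : S) :
    ((((f.restrict h) ^ k) c : S) : B) = (f ^ k) (c : B) := by
  induction k with
  | zero => rfl
  | succ k ih =>
    rw [pow_succ', pow_succ', Module.End.mul_apply, Module.End.mul_apply, ← ih]
    rfl

omit [Fintype V] [LinearOrder V] in
theorem coe_tau {p : ℕ} {B : Type u} [AddCommGroup B] [Module (ZMod p) B]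
    (f : B →ₗ[ZMod p] B) (S : Submodule (ZMod p) B) (h : ∀ c ∈ S, f c ∈ S) (k : ℕ) (c : S) :
    ((((f.restrict h - 1) ^ k) c : S) : B) = ((f - 1) ^ k) (c : B) := by
  induction k with
  | zero => rfl
  | succ k ih =>
    rw [pow_succ', pow_succ', Module.End.mul_apply, Module.End.mul_apply, ← ih]
    rfl

/-- Exactness of the powers of `P - 1` on `A`. -/
theorem free (h1 : T_SGN.{u}) (h2 : T_FRE.{u}) (p : ℕ) [Fact p.Prime] (K : Finset V → Prop)
    (g : Equiv.Perm V) (hg : ∀ s, K s → K (s.image g))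
    (hgp : ∀ s, K s → ∀ x ∈ s, (g ^ p : Equiv.Perm V) x = x)
    (hreg : ∀ s, K s → s.image g = s → ∀ x ∈ s, g x = x) (n i : ℕ) (hi : i = 1 ∨ i = p - 1)
    (c : {s : Finset V // K s} → ZMod p) (hc : c ∈ A p K g n)
    (h0 : ((P p g hg - 1) ^ i) c = 0) :
    ∃ b ∈ A p K g n, ((P p g hg - 1) ^ (p - i)) b = c := by
  classical
  have hp : p.Prime := Fact.out
  have hper : ∀ s : {s : Finset V // K s}, (act g hg)^[p] s = s := by
    intro s
    apply Subtype.ext
    rw [act_iter]
    exact image_fix _ _ (hgp s.1 s.2)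
  have hPp : ∀ c : {s : Finset V // K s} → ZMod p, (P p g hg ^ p) c = c := by
    intro c
    funext s
    rw [P_pow h1, hper, eps_fix _ _ (hgp s.1 s.2)]
    simp
  obtain ⟨R, hR⟩ := reps p hp (act g hg) hper
  have hfree : ∀ s : {s : Finset V // K s}, ¬ (∀ x ∈ s.1, g x = x) → act g hg s ≠ s := by
    intro s hs hcon
    exact hs (hreg s.1 s.2 (congrArg Subtype.val hcon))
  have hPA : ∀ c ∈ A p K g n, P p g hg c ∈ A p K g n := fun c h => P_mem_A hg h
  have hEA : ∀ c ∈ A p K g n, E p R c ∈ A p K g n := fun c h => E_mem_A R h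
  have hPk : ∀ k, ∀ c ∈ A p K g n, (P p g hg ^ k) c ∈ A p K g n := by
    intro k
    induction k with
    | zero => intro c h; simpa using h
    | succ k ih =>
      intro c h
      rw [pow_succ', Module.End.mul_apply]
      exact hPA _ (ih c h)
  have hiter : ∀ k (s : {s : Finset V // K s}),
      ((∀ x ∈ s.1, g x = x) ∨ s.1.card < n) → ((∀ x ∈ ((act g hg)^[k] s).1, g x = x) ∨
      ((act g hg)^[k] s).1.card < n) := by
    intro k s hs
    rcases hs with hs | hs
    · exact Or.inl ((fix_iter g hg k s).2 hs)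
    · right
      rw [act_iter, Finset.card_image_of_injective _ (Equiv.injective _)]
      exact hs
  have hF := h2 (A := A p K g n) p ((P p g hg).restrict hPA) ((E p R).restrict hEA) (by
      apply LinearMap.ext
      intro c
      apply Subtype.ext
      rw [coe_pow, hPp]
      rfl) (by
      intro c
      apply Subtype.ext
      funext s
      change E p R (E p R c.1) s = E p R c.1 s
      rw [E_apply, E_apply]
      split_ifs <;> rfl) (by
      intro m hm hmp c
      apply Subtype.ext
      funext s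
      change E p R ((((P p g hg).restrict hPA ^ m) (((E p R).restrict hEA) c) : A p K g n) :
        {s : Finset V // K s} → ZMod p) s = 0
      rw [coe_pow, E_apply]
      change (if R s then (P p g hg ^ m) (E p R c.1) s else 0) = 0
      split_ifs with hRs
      · rw [P_pow h1, E_apply]
        split_ifs with hRm
        · by_cases hs : (∀ x ∈ s.1, g x = x) ∨ s.1.card < n
          · rw [c.2 _ (hiter m s hs), mul_zero]
          · push Not at hs
            obtain ⟨x, hx, hx2⟩ := hs.1
            have hne := hfree s (fun h => hx2 (h x hx))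
            obtain ⟨k, _, _, hk⟩ := hR s hne
            have e1 := hk 0 hp.pos hRs
            have e2 := hk m hmp hRm
            omega
        · rw [mul_zero]
      · rfl) (by
      intro c
      apply Subtype.ext
      rw [AddSubmonoidClass.coe_finsetSum]
      funext s
      rw [Finset.sum_apply]
      have hterm : ∀ k, k ≤ p → (((((P p g hg).restrict hPA) ^ k) (((E p R).restrict hEA)
          ((((P p g hg).restrict hPA) ^ (p - k)) c)) : A p K g n) :
          {s : Finset V // K s} → ZMod p) s =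
          if R ((act g hg)^[k] s) then c.1 s else 0 := by
        intro k hk
        rw [coe_pow]
        change (P p g hg ^ k) (E p R ((((P p g hg).restrict hPA ^ (p - k)) c : A p K g n) :
          {s : Finset V // K s} → ZMod p)) s = _
        rw [coe_pow, P_pow h1, E_apply]
        split_ifs with hRk
        · rw [← P_pow h1, ← Module.End.mul_apply, ← pow_add, Nat.add_sub_cancel' hk, hPp]
        · rw [mul_zero]
      rw [Finset.sum_congr rfl fun k hk => hterm k (Finset.mem_range.1 hk).le]
      by_cases hs : (∀ x ∈ s.1, g x = x) ∨ s.1.card < n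
      · rw [show c.1 s = 0 from c.2 s hs]
        simp
      · push Not at hs
        obtain ⟨x, hx, hx2⟩ := hs.1
        have hne := hfree s (fun h => hx2 (h x hx))
        obtain ⟨k, hkp, hRk, hk⟩ := hR s hne
        rw [Finset.sum_eq_single_of_mem k (Finset.mem_range.2 hkp), if_pos hRk]
        intro l hl hlk
        rw [if_neg]
        intro hRl
        exact hlk (hk l (Finset.mem_range.1 hl) hRl))
  rcases hi with rfl | rfl
  · obtain ⟨b, hb⟩ := hF.1 ⟨c, hc⟩ (by
      apply Subtype.ext
      change P p g hg c = c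
      rw [pow_one, LinearMap.sub_apply, sub_eq_zero] at h0
      exact h0)
    refine ⟨b.1, b.2, ?_⟩
    rw [← coe_tau _ _ hPA, hb]
  · obtain ⟨b, hb⟩ := hF.2 ⟨c, hc⟩ (by
      apply Subtype.ext
      rw [coe_tau]
      exact h0)
    refine ⟨b.1, b.2, ?_⟩
    have h3 : p - (p - 1) = 1 := by
      have := hp.two_le
      omega
    rw [h3, pow_one]
    exact congrArg Subtype.val hb

omit [Fintype V] in
theorem nil (h1 : T_SGN.{u}) (p : ℕ) [Fact p.Prime] (K : Finset V → Prop)
    (g : Equiv.Perm V) (hg : ∀ s, K s → K (s.image g))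
    (hgp : ∀ s, K s → ∀ x ∈ s, (g ^ p : Equiv.Perm V) x = x)
    (c : {s : Finset V // K s} → ZMod p) : ((P p g hg - 1) ^ p) c = 0 := by
  have h2 : ((Polynomial.X - 1 : Polynomial (ZMod p))) ^ p = Polynomial.X ^ p - 1 := by
    rw [sub_pow_char, one_pow]
  have h3 := congrArg (Polynomial.aeval (P p g hg)) h2
  rw [map_pow, map_sub, map_sub, map_pow, Polynomial.aeval_X, map_one] at h3
  rw [h3, LinearMap.sub_apply, sub_eq_zero]
  funext s
  have hper : (act g hg)^[p] s = s := by
    apply Subtype.ext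
    rw [act_iter]
    exact image_fix _ _ (hgp s.1 s.2)
  rw [P_pow h1, hper, eps_fix _ _ (hgp s.1 s.2)]
  simp

omit [Fintype V] in
theorem tau_fix (p : ℕ) (K : Finset V → Prop)
    (g : Equiv.Perm V) (hg : ∀ s, K s → K (s.image g)) (i : ℕ) (hi : 1 ≤ i)
    (c : {s : Finset V // K s} → ZMod p)
    (hc : ∀ s : {s : Finset V // K s}, ¬ (∀ x ∈ s.1, g x = x) → c s = 0) :
    ((P p g hg - 1) ^ i) c = 0 := by
  obtain ⟨j, rfl⟩ : ∃ j, i = j + 1 := ⟨i - 1, by omega⟩
  rw [pow_succ, Module.End.mul_apply, LinearMap.sub_apply]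
  have h : P p g hg c = c := by
    funext s
    rw [P_apply]
    by_cases hs : ∀ x ∈ s.1, g x = x
    · rw [eps_fix g s.1 hs, show act g hg s = s from Subtype.ext (image_fix g s.1 hs)]
      simp
    · rw [hc s hs, hc (act g hg s) (fun h => hs (fix_image.1 h)), mul_zero]
  rw [h]
  simp

omit [Fintype V] in
theorem D_tau (h1 : T_SGN.{u}) (p : ℕ) (K : Finset V → Prop) (hK : Dn K)
    (g : Equiv.Perm V) (hg : ∀ s, K s → K (s.image g)) (i : ℕ)
    (c : {s : Finset V // K s} → ZMod p) :
    D p K hK (((P p g hg - 1) ^ i) c) = ((P p g hg - 1) ^ i) (D p K hK c) := by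
  induction i with
  | zero => simp
  | succ i ih =>
    rw [pow_succ', Module.End.mul_apply, Module.End.mul_apply, LinearMap.sub_apply,
      LinearMap.sub_apply, map_sub, PD h1, Module.End.one_apply, Module.End.one_apply, ih]

omit [Fintype V] in
theorem D_fix (p : ℕ) (K : Finset V → Prop) (hK : Dn K) (g : Equiv.Perm V)
    {a : {s : Finset V // K s} → ZMod p} {n : ℕ} (ha : a ∈ A p K g n)
    (t : {s : Finset V // K s}) (ht : ∀ x ∈ t.1, g x = x) : D p K hK a t = 0 := by
  rw [D_apply]
  refine Finset.sum_eq_zero fun x hx => ?_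
  rw [ha ⟨t.1.erase x, hK t.1 x t.2⟩ (Or.inl fun y hy => ht y (Finset.mem_of_mem_erase hy)),
    mul_zero]

theorem main (h1 : T_SGN.{u}) (h2 : T_FRE.{u}) (p : ℕ) [Fact p.Prime] (K : Finset V → Prop)
    (hK : Dn K) (g : Equiv.Perm V) (hg : ∀ s, K s → K (s.image g))
    (hgp : ∀ s, K s → ∀ x ∈ s, (g ^ p : Equiv.Perm V) x = x)
    (hreg : ∀ s, K s → s.image g = s → ∀ x ∈ s, g x = x)
    (hex : ∀ c : {s : Finset V // K s} → ZMod p, D p K hK c = 0 → ∃ e, D p K hK e = c)
    (m : ℕ) : ∀ n, Fintype.card V + 1 ≤ n + m → ∀ i, (i = 1 ∨ i = p - 1) →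
    ∀ a ∈ A p K g n, ∀ b : {s : Finset V // K s} → ZMod p,
    (∀ s : {s : Finset V // K s}, (¬ (∀ x ∈ s.1, g x = x) ∨ s.1.card < n) → b s = 0) →
    D p K hK (((P p g hg - 1) ^ i) a) = 0 →
    (∀ t : {s : Finset V // K s}, (∀ x ∈ t.1, g x = x) → D p K hK b t = 0) →
    ∃ a' ∈ A p K g 0, ∃ b' : {s : Finset V // K s} → ZMod p,
      ((P p g hg - 1) ^ i) a = D p K hK (((P p g hg - 1) ^ i) a') ∧
      ∀ s : {s : Finset V // K s}, (∀ x ∈ s.1, g x = x) → b s = D p K hK b' s := by
  classical
  have hp : p.Prime := Fact.out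
  have hp2 := hp.two_le
  induction m with
  | zero =>
    intro n hn i hi a ha b hb _ _
    have hcard : ∀ s : {s : Finset V // K s}, s.1.card < n := by
      intro s
      have := Finset.card_le_univ s.1
      omega
    have ha0 : a = 0 := by
      funext s
      exact ha s (Or.inr (hcard s))
    refine ⟨0, Submodule.zero_mem _, 0, ?_, ?_⟩
    · rw [ha0]
      simp
    · intro s _
      rw [hb s (Or.inr (hcard s))]
      simp
  | succ m ih =>
    intro n hn i hi a ha b hb hDa hDb
    have hi1 : 1 ≤ i := by omega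
    have hip : i ≤ p := by omega
    have hi' : p - i = 1 ∨ p - i = p - 1 := by omega
    have hbz : ((P p g hg - 1) ^ i) b = 0 :=
      tau_fix p K g hg i hi1 b fun s hs => hb s (Or.inl hs)
    have hc1 : ((P p g hg - 1) ^ i) (D p K hK (a + b)) = 0 := by
      rw [← D_tau h1, map_add, hbz, add_zero, hDa]
    have hc2 : D p K hK (a + b) ∈ A p K g (n + 1) := by
      rintro t (ht | ht)
      · rw [map_add, Pi.add_apply, D_fix p K hK g ha t ht, hDb t ht, add_zero]
      · rw [D_apply]
        refine Finset.sum_eq_zero fun x hx => ?_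
        have hlt : (t.1.erase x).card < n := by
          have h5 := Finset.card_erase_lt_of_mem hx
          omega
        rw [Pi.add_apply, ha _ (Or.inr hlt), hb _ (Or.inr hlt), add_zero, mul_zero]
    obtain ⟨a1, ha1, he1⟩ := free h1 h2 p K g hg hgp hreg (n + 1) i hi _ hc2 hc1
    obtain ⟨a2, ha2, _, he2, _⟩ := ih (n + 1) (by omega) (p - i) hi' a1 ha1 0
      (fun s _ => rfl) (by rw [he1, DD h1]) (fun t _ => by simp)
    rw [he1] at he2
    obtain ⟨e, he⟩ := hex (a + b - ((P p g hg - 1) ^ (p - i)) a2) (by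
      rw [map_sub, he2, sub_self])
    obtain ⟨eA, heA⟩ : ∃ eA : {s : Finset V // K s} → ZMod p,
        eA = fun s => if (∀ x ∈ s.1, g x = x) then 0 else e s := ⟨_, rfl⟩
    have heA0 : eA ∈ A p K g 0 := by
      rintro s (hs | hs)
      · rw [heA]
        exact if_pos hs
      · omega
    have heA1 : ((P p g hg - 1) ^ i) e = ((P p g hg - 1) ^ i) eA := by
      rw [← sub_eq_zero, ← map_sub]
      refine tau_fix p K g hg i hi1 _ fun s hs => ?_
      rw [Pi.sub_apply, heA]
      simp only
      rw [if_neg hs, sub_self]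
    refine ⟨eA, heA0, e, ?_, ?_⟩
    · rw [← heA1, D_tau h1, he, map_sub, map_add, hbz, add_zero, ← Module.End.mul_apply,
        ← pow_add, Nat.add_sub_cancel' hip, nil h1 p K g hg hgp, sub_zero]
    · intro s hs
      rw [he, Pi.sub_apply, Pi.add_apply, ha s (Or.inl hs),
        tau_mem_A hg (p - i) ha2 s (Or.inl hs)]
      simp

end

end SMI

theorem tSMI (h1 : Pool.Agent.MSN.Grp.T_SGN.{u}) (h2 : T_FRE.{u}) (_h3 : T_SGR.{u}) :
    T_SMI.{u} := by
  classical
  intro V _ _ p _ K hK hex g hg hgp hreg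
  have hex' : ∀ c : {s : Finset V // K s} → ZMod p, SMI.D p K hK c = 0 →
      ∃ e, SMI.D p K hK e = c := by
    intro c hc
    obtain ⟨e, he⟩ := hex (fun s => if h : K s then c ⟨s, h⟩ else 0) (by
      intro t ht
      have h4 := congrFun hc ⟨t, ht⟩
      rw [SMI.D_apply] at h4
      refine Eq.trans (Finset.sum_congr rfl fun x _ => ?_) h4
      rw [dif_pos (hK t x ht)])
    refine ⟨fun s => e s.1, ?_⟩
    funext s
    have h5 := he s.1 s.2
    simp only [dif_pos s.2] at h5
    rw [SMI.D_apply]
    exact h5.symm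
  intro c hc
  obtain ⟨a', _, b', _, hb'⟩ := SMI.main h1 h2 p K hK g hg hgp hreg hex' (Fintype.card V + 1) 0
    (by omega) 1 (Or.inl rfl) 0 (Submodule.zero_mem _)
    (fun s => if (∀ x ∈ s.1, g x = x) then c s.1 else 0) (by
      rintro s (hs | hs)
      · exact if_neg hs
      · omega) (by simp) (by
      intro t ht
      rw [SMI.D_apply]
      refine Eq.trans (Finset.sum_congr rfl fun x _ => ?_) (hc t.1 ⟨t.2, ht⟩)
      rw [if_pos fun y hy => ht y (Finset.mem_of_mem_erase hy)])
  refine ⟨fun s => if h : K s then b' ⟨s, h⟩ else 0, ?_⟩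
  intro s hs
  have h4 := hb' ⟨s, hs.1⟩ hs.2
  simp only [if_pos hs.2] at h4
  rw [h4, SMI.D_apply]
  refine Finset.sum_congr rfl fun x _ => ?_
  change ((sg s x : ℤ) : ZMod p) * b' ⟨s.erase x, hK s x hs.1⟩ =
    ((sg s x : ℤ) : ZMod p) * (if h : K (s.erase x) then b' ⟨s.erase x, h⟩ else 0)
  rw [dif_pos (hK s x hs.1)]

end Pool.Agent.MSO
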