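import Pool.Agent.MSO.Targets

/-!
# SMP: Smith theory for p-groups (MP_d6353f_al (a), MSO)
-/

set_option autoImplicit false

namespace Pool.Agent.MSO

universe u

namespace SMP

/-- a subgroup which contains a normal subgroup of prime index and an element outside is all -/
lemma full {R : Type} [Group R] [Finite R] {p : ℕ} (hp : p.Prime) {H S : Subgroup R}
    (hi : H.index = p) (hHS : H ≤ S) {a : R} (haH : a ∉ H) (haS : a ∈ S) : S = ⊤ := by
  have h1 := Subgroup.relIndex_mul_index hHS
  rw [hi] at h1
  have h2 : S.index ∣ p := ⟨H.relIndex S, by rw [mul_comm]; exact h1.symm⟩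
  rcases (Nat.dvd_prime hp).1 h2 with h3 | h3
  · exact Subgroup.index_eq_one.1 h3
  · exfalso
    rw [h3] at h1
    have h4 : H.relIndex S = 1 := by
      have h5 : H.relIndex S * p = 1 * p := by rw [h1, one_mul]
      exact Nat.eq_of_mul_eq_mul_right hp.pos h5
    rw [Subgroup.relIndex_eq_one] at h4
    exact haH (h4 haS)

end SMP

open SMP in
theorem tSMP (h1 : T_SMI.{u}) : T_SMP.{u} := by
  intro V _ _ p _ K hD hK Q _ _ _ hI hR P hP
  have hp : p.Prime := Fact.out
  have main : ∀ n : ℕ, ∀ R : Subgroup Q, Nat.card R = p ^ n →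
      SEx (ZMod p) (fun s => K s ∧ ∀ h ∈ R, ∀ x ∈ s, h • x = x) := by
    intro n
    induction n with
    | zero =>
      intro R hc
      rw [pow_zero] at hc
      have h2 : R = ⊥ := Subgroup.card_eq_one.1 hc
      have h3 : (fun s => K s ∧ ∀ h ∈ R, ∀ x ∈ s, h • x = x) = K := by
        funext s
        apply propext
        constructor
        · exact fun h => h.1
        · intro h
          refine ⟨h, fun g hg x _ => ?_⟩
          rw [h2, Subgroup.mem_bot] at hg
          rw [hg, one_smul]
      rw [h3]
      exact hK
    | succ n ih =>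
      intro R hc
      obtain ⟨H, hH⟩ := Sylow.exists_subgroup_card_pow_prime (G := R) p (n := n) (by
        rw [hc]
        exact pow_dvd_pow p (Nat.le_succ n))
      have hidx : H.index = p := by
        have h2 := H.card_mul_index
        rw [hH, hc, pow_succ] at h2
        exact Nat.eq_of_mul_eq_mul_left (pow_pos hp.pos n) h2
      have hN : H.Normal := by
        apply Subgroup.normal_of_index_eq_minFac_card
        rw [hidx, hc, hp.pow_minFac (Nat.succ_ne_zero n)]
      have hne : ∃ a : R, a ∉ H := by
        by_contra hcon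
        push Not at hcon
        have h2 : H = ⊤ := by
          ext x
          simp [hcon x]
        rw [h2, Subgroup.index_top] at hidx
        exact hp.one_lt.ne hidx
      obtain ⟨a, ha⟩ := hne
      set R' : Subgroup Q := H.map R.subtype with hR'
      have hR'c : Nat.card R' = p ^ n := by
        rw [← hH]
        exact Nat.card_congr (H.equivMapOfInjective R.subtype R.subtype_injective).symm.toEquiv
      have hmem : ∀ h : Q, h ∈ R' ↔ ∃ hh : h ∈ R, (⟨h, hh⟩ : R) ∈ H := by
        intro h
        rw [hR', Subgroup.mem_map]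
        constructor
        · rintro ⟨x, hx, rfl⟩
          exact ⟨x.2, hx⟩
        · rintro ⟨hh, hx⟩
          exact ⟨⟨h, hh⟩, hx, rfl⟩
      have ih' := ih R' hR'c
      set K' : Finset V → Prop := fun s => K s ∧ ∀ h ∈ R', ∀ x ∈ s, h • x = x with hK'
      set g : Equiv.Perm V := MulAction.toPerm (a : Q) with hg
      have hgx : ∀ x : V, g x = (a : Q) • x := fun x => rfl
      have hgp : ∀ (k : ℕ) (x : V), (g ^ k : Equiv.Perm V) x = ((a : Q) ^ k) • x := by
        intro k
        induction k with
        | zero => intro x; simp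
        | succ k ihk =>
          intro x
          rw [pow_succ, Equiv.Perm.mul_apply, ihk, hgx, pow_succ, mul_smul]
      have hD' : Dn K' := by
        intro s x hs
        refine ⟨hD s x hs.1, fun h hh y hy => hs.2 h hh y (Finset.mem_of_mem_erase hy)⟩
      have hres := h1 p K' hD' ih' g (by
        intro s hs
        refine ⟨hI a s hs.1, ?_⟩
        intro h hh y hy
        rw [Finset.mem_image] at hy
        obtain ⟨x, hx, rfl⟩ := hy
        rw [hgx]
        obtain ⟨hhR, hhH⟩ := (hmem h).1 hh
        have h4 : a⁻¹ * ⟨h, hhR⟩ * a ∈ H := by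
          have := hN.conj_mem _ hhH a⁻¹
          rwa [inv_inv] at this
        have h5 : ((a⁻¹ * ⟨h, hhR⟩ * a : R) : Q) ∈ R' := (hmem _).2 ⟨(a⁻¹ * ⟨h, hhR⟩ * a : R).2, h4⟩
        have h6 := hs.2 _ h5 x hx
        have h7 : ((a⁻¹ * ⟨h, hhR⟩ * a : R) : Q) = (a : Q)⁻¹ * h * a := rfl
        rw [h7] at h6
        calc h • (a : Q) • x = (a : Q) • (((a : Q)⁻¹ * h * a) • x) := by
              rw [smul_smul, smul_smul]
              congr 1
              group
          _ = (a : Q) • x := by rw [h6]) (by
        intro s hs x hx
        rw [hgp]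
        have h4 : a ^ p ∈ H := by
          have := H.pow_index_mem a
          rwa [hidx] at this
        have h5 : ((a ^ p : R) : Q) ∈ R' := (hmem _).2 ⟨(a ^ p : R).2, h4⟩
        have h6 := hs.2 _ h5 x hx
        exact h6) (by
        intro s hs him x hx
        exact hR a s hs.1 him x hx)
      have h3 : (fun s => K s ∧ ∀ h ∈ R, ∀ x ∈ s, h • x = x) =
          fun s => K' s ∧ ∀ x ∈ s, g x = x := by
        funext s
        apply propext
        constructor
        · rintro ⟨h4, h5⟩
          refine ⟨⟨h4, fun h hh x hx => ?_⟩, fun x hx => h5 a a.2 x hx⟩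
          exact h5 h ((hmem h).1 hh).1 x hx
        · rintro ⟨⟨h4, h5⟩, h6⟩
          refine ⟨h4, fun h hh x hx => ?_⟩
          -- the stabiliser of x in R
          set S : Subgroup R := (MulAction.stabilizer Q x).comap R.subtype with hS
          have h7 : H ≤ S := by
            intro y hy
            rw [hS, Subgroup.mem_comap, MulAction.mem_stabilizer_iff]
            exact h5 y ((hmem _).2 ⟨y.2, hy⟩) x hx
          have h8 : a ∈ S := by
            rw [hS, Subgroup.mem_comap, MulAction.mem_stabilizer_iff]
            exact h6 x hx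
          have h9 := full hp hidx h7 ha h8
          have h10 : (⟨h, hh⟩ : R) ∈ S := by
            rw [h9]
            exact Subgroup.mem_top _
          rw [hS, Subgroup.mem_comap, MulAction.mem_stabilizer_iff] at h10
          exact h10
      rw [h3]
      exact hres
  obtain ⟨n, hn⟩ := IsPGroup.iff_card.1 hP
  exact main n P hn

end Pool.Agent.MSO
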