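import Pool.Agent.MSO.Targets

/-!
# SUBD: barycentric subdivision
-/

set_option autoImplicit false

namespace Pool.Agent.MSO

open List Pool.Agent.MSF
open Pool.Agent.MSN.Grp (sg eps T_SGN)

universe u

namespace SUBD

/-- The signed sum over pairs of different elements vanishes. -/
theorem pairs {V : Type u} [LinearOrder V] (h : T_SGN.{u}) {F : Type} [CommRing F] (t : Finset V)
    (c : Finset V → F) :
    ∑ x ∈ t, ((sg t x : ℤ) : F) * ∑ y ∈ t.erase x, ((sg (t.erase x) y : ℤ) : F) *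
      c ((t.erase x).erase y) = 0 := by
  simp_rw [Finset.mul_sum]
  rw [Finset.sum_sigma' t (fun x => t.erase x)
    (fun x y => ((sg t x : ℤ) : F) * (((sg (t.erase x) y : ℤ) : F) * c ((t.erase x).erase y)))]
  refine Finset.sum_involution (fun p _ => ⟨p.2, p.1⟩) ?_ ?_ ?_ ?_
  · rintro ⟨x, y⟩ hp
    simp only [Finset.mem_sigma, Finset.mem_erase] at hp
    show ((sg t x : ℤ) : F) * (((sg (t.erase x) y : ℤ) : F) * c ((t.erase x).erase y)) +
      ((sg t y : ℤ) : F) * (((sg (t.erase y) x : ℤ) : F) * c ((t.erase y).erase x)) = 0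
    rw [Finset.erase_right_comm (s := t) (a := y) (b := x), ← mul_assoc, ← mul_assoc, ← add_mul,
      ← Int.cast_mul, ← Int.cast_mul, ← Int.cast_add,
      h.1 t x y hp.1 hp.2.2 (fun hh => hp.2.1 hh.symm), Int.cast_zero, zero_mul]
  · rintro ⟨x, y⟩ hp _ heq
    simp only [Finset.mem_sigma, Finset.mem_erase] at hp
    exact hp.2.1 (congrArg Sigma.fst heq)
  · rintro ⟨x, y⟩ hp
    simp only [Finset.mem_sigma, Finset.mem_erase] at hp ⊢
    exact ⟨hp.2.2, fun hh => hp.2.1 hh.symm, hp.1⟩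
  · rintro ⟨x, y⟩ hp
    rfl

/-- The product of a matrix given by indicator functions and a vector. -/
theorem mv {I : Type u} {α : Type u} {F : Type} [Fintype I] [DecidableEq I] [CommRing F]
    (A : Finset α) (er : α → I) (w : α → F) (c : I → F) :
    ∑ j, (∑ x ∈ A, if er x = j then w x else 0) * c j = ∑ x ∈ A, w x * c (er x) := by
  have e1 : ∀ j : I, (∑ x ∈ A, if er x = j then w x else 0) * c j =
      ∑ x ∈ A, if er x = j then w x * c j else 0 := by
    intro j
    rw [Finset.sum_mul]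
    refine Finset.sum_congr rfl fun x _ => ?_
    split_ifs
    · rfl
    · rw [zero_mul]
  rw [Finset.sum_congr rfl fun j _ => e1 j, Finset.sum_comm]
  refine Finset.sum_congr rfl fun x _ => ?_
  rw [Finset.sum_ite_eq]
  simp

section

variable {V W : Type u} [LinearOrder V] [LinearOrder W] (G : SimpleGraph V) (f : W → Finset V)
  (K : Finset W → Prop)

/-- The pairs (chain, clique contained in its members). -/
abbrev Ix : Type u := {p : Finset W × Finset V //
  K p.1 ∧ G.IsClique (p.2 : Set V) ∧ ∀ s ∈ p.1, p.2 ⊆ f s}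

variable {G f K}

/-- Remove a vertex of the clique. -/
def e1 (i : Ix G f K) (x : V) : Ix G f K :=
  ⟨(i.1.1, i.1.2.erase x), i.2.1, i.2.2.1.subset (by simp),
    fun s hs => (Finset.erase_subset _ _).trans (i.2.2.2 s hs)⟩

/-- Remove an element of the chain. -/
def e2 (hK : ∀ σ s, K σ → K (σ.erase s)) (i : Ix G f K) (s : W) : Ix G f K :=
  ⟨(i.1.1.erase s, i.1.2), hK _ _ i.2.1, i.2.2.1,
    fun s' hs => i.2.2.2 s' (Finset.mem_of_mem_erase hs)⟩

/-- The first coboundary. -/
def a1 (F : Type) [Field F] [DecidableEq (Ix G f K)] (i j : Ix G f K) : F :=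
  ∑ x ∈ i.1.2, if e1 i x = j then ((sg i.1.2 x : ℤ) : F) else 0

/-- The second coboundary. -/
def a2 (F : Type) [Field F] [DecidableEq (Ix G f K)] (hK : ∀ σ s, K σ → K (σ.erase s))
    (i j : Ix G f K) : F :=
  ∑ s ∈ i.1.1, if e2 hK i s = j then (-1 : F) ^ i.1.2.card * ((sg i.1.1 s : ℤ) : F) else 0

/-- The matrix. -/
def DD (F : Type) [Field F] [DecidableEq (Ix G f K)] (hK : ∀ σ s, K σ → K (σ.erase s)) :
    Matrix (Ix G f K) (Ix G f K) F :=
  Matrix.of fun i j => a1 F i j + a2 F hK i j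

variable {F : Type} [Field F] [DecidableEq (Ix G f K)] (hK : ∀ σ s, K σ → K (σ.erase s))

theorem mvD [Fintype (Ix G f K)] (c : Ix G f K → F) (i : Ix G f K) : (DD F hK).mulVec c i =
    ∑ x ∈ i.1.2, ((sg i.1.2 x : ℤ) : F) * c (e1 i x) +
    ∑ s ∈ i.1.1, (-1 : F) ^ i.1.2.card * ((sg i.1.1 s : ℤ) : F) * c (e2 hK i s) := by
  rw [Matrix.mulVec, dotProduct]
  have h : ∀ j, (DD F hK) i j * c j = a1 F i j * c j + a2 F hK i j * c j :=
    fun j => add_mul _ _ _
  rw [Finset.sum_congr rfl fun j _ => h j, Finset.sum_add_distrib]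
  unfold a1 a2
  rw [mv, mv]

theorem DD_ne {i j : Ix G f K} (h : (DD F hK) i j ≠ 0) :
    (∃ x ∈ i.1.2, e1 i x = j) ∨ ∃ s ∈ i.1.1, e2 hK i s = j := by
  by_contra hcon
  push Not at hcon
  apply h
  show a1 F i j + a2 F hK i j = 0
  unfold a1 a2
  rw [Finset.sum_eq_zero fun x hx => if_neg (hcon.1 x hx),
    Finset.sum_eq_zero fun s hs => if_neg (hcon.2 s hs), add_zero]

open Classical in
/-- Extension by zero. -/
noncomputable def ext (c : Ix G f K → F) (σ : Finset W) (t : Finset V) : F :=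
  if h' : K σ ∧ G.IsClique (t : Set V) ∧ ∀ s ∈ σ, t ⊆ f s then c ⟨(σ, t), h'⟩ else 0

theorem ext_of (c : Ix G f K → F) (j : Ix G f K) : c j = ext c j.1.1 j.1.2 := by
  obtain ⟨⟨σ', t'⟩, hj⟩ := j
  unfold ext
  rw [dif_pos hj]

theorem DD_mv [Fintype (Ix G f K)] (h : T_SGN.{u}) (c : Ix G f K → F) (i : Ix G f K) :
    ∑ x ∈ i.1.2, ((sg i.1.2 x : ℤ) : F) * (∑ y ∈ i.1.2.erase x,
      ((sg (i.1.2.erase x) y : ℤ) : F) * c (e1 (e1 i x) y) +
      ∑ s ∈ i.1.1, (-1 : F) ^ (i.1.2.erase x).card * ((sg i.1.1 s : ℤ) : F) *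
      c (e2 hK (e1 i x) s)) +
    ∑ s ∈ i.1.1, (-1 : F) ^ i.1.2.card * ((sg i.1.1 s : ℤ) : F) *
      (∑ x ∈ i.1.2, ((sg i.1.2 x : ℤ) : F) * c (e1 (e2 hK i s) x) +
      ∑ s' ∈ i.1.1.erase s, (-1 : F) ^ i.1.2.card * ((sg (i.1.1.erase s) s' : ℤ) : F) *
      c (e2 hK (e2 hK i s) s')) = 0 := by
  simp only [mul_add, Finset.sum_add_distrib]
  have hA : ∑ x ∈ i.1.2, ((sg i.1.2 x : ℤ) : F) * ∑ y ∈ i.1.2.erase x,
      ((sg (i.1.2.erase x) y : ℤ) : F) * c (e1 (e1 i x) y) = 0 := by
    refine Eq.trans ?_ (pairs h i.1.2 (fun t' => ext c i.1.1 t'))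
    refine Finset.sum_congr rfl fun x _ => ?_
    congr 1
    refine Finset.sum_congr rfl fun y _ => ?_
    rw [ext_of c (e1 (e1 i x) y)]
    rfl
  have hB : ∑ s ∈ i.1.1, (-1 : F) ^ i.1.2.card * ((sg i.1.1 s : ℤ) : F) *
      ∑ s' ∈ i.1.1.erase s, (-1 : F) ^ i.1.2.card * ((sg (i.1.1.erase s) s' : ℤ) : F) *
      c (e2 hK (e2 hK i s) s') = 0 := by
    have h1 := pairs h i.1.1 (fun σ' => ext c σ' i.1.2)
    have h2 : ∀ s ∈ i.1.1, (-1 : F) ^ i.1.2.card * ((sg i.1.1 s : ℤ) : F) *
        ∑ s' ∈ i.1.1.erase s, (-1 : F) ^ i.1.2.card * ((sg (i.1.1.erase s) s' : ℤ) : F) *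
        c (e2 hK (e2 hK i s) s') =
        (-1 : F) ^ i.1.2.card * (-1 : F) ^ i.1.2.card * (((sg i.1.1 s : ℤ) : F) *
          ∑ s' ∈ i.1.1.erase s, ((sg (i.1.1.erase s) s' : ℤ) : F) *
          ext c ((i.1.1.erase s).erase s') i.1.2) := by
      intro s _
      have h3 : ∀ s' ∈ i.1.1.erase s, (-1 : F) ^ i.1.2.card *
          ((sg (i.1.1.erase s) s' : ℤ) : F) *
          c (e2 hK (e2 hK i s) s') = (-1 : F) ^ i.1.2.card *
          (((sg (i.1.1.erase s) s' : ℤ) : F) * ext c ((i.1.1.erase s).erase s') i.1.2) := by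
        intro s' _
        rw [ext_of c (e2 hK (e2 hK i s) s'), mul_assoc]
        rfl
      rw [Finset.sum_congr rfl h3, ← Finset.mul_sum]
      ring
    rw [Finset.sum_congr rfl h2, ← Finset.mul_sum, h1, mul_zero]
  have hC : ∑ x ∈ i.1.2, ((sg i.1.2 x : ℤ) : F) * ∑ s ∈ i.1.1,
      (-1 : F) ^ (i.1.2.erase x).card *
      ((sg i.1.1 s : ℤ) : F) * c (e2 hK (e1 i x) s) +
      ∑ s ∈ i.1.1, (-1 : F) ^ i.1.2.card * ((sg i.1.1 s : ℤ) : F) *
      ∑ x ∈ i.1.2, ((sg i.1.2 x : ℤ) : F) * c (e1 (e2 hK i s) x) = 0 := by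
    simp only [Finset.mul_sum]
    rw [Finset.sum_comm (s := i.1.1), ← Finset.sum_add_distrib]
    refine Finset.sum_eq_zero fun x hx => ?_
    rw [← Finset.sum_add_distrib]
    refine Finset.sum_eq_zero fun s _ => ?_
    have h1 : c (e2 hK (e1 i x) s) = c (e1 (e2 hK i s) x) := rfl
    have h2 : i.1.2.card = (i.1.2.erase x).card + 1 := (Finset.card_erase_add_one hx).symm
    rw [h1, h2, pow_succ]
    ring
  linear_combination hA + hB + hC

theorem DD_sq [Fintype (Ix G f K)] (h : T_SGN.{u}) :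
    (DD F hK : Matrix (Ix G f K) (Ix G f K) F) * DD F hK = 0 := by
  apply Matrix.mulVec_injective
  funext c
  rw [← Matrix.mulVec_mulVec, Matrix.zero_mulVec]
  funext i
  rw [mvD]
  simp only [mvD]
  exact DD_mv hK h c i

end

/-- The restriction of a matrix of square zero. -/
theorem restr_sq {I : Type u} {F : Type} [Field F] [Fintype I] [DecidableEq I]
    (D : Matrix I I F) (U : I → Prop) [DecidablePred U] (hD : D * D = 0)
    (hU : ∀ i j, D i j ≠ 0 → U j → U i) :
    (Matrix.of fun (i j : {i // U i}) => D i.1 j.1) *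
      (Matrix.of fun (i j : {i // U i}) => D i.1 j.1) = 0 := by
  ext i k
  have h5 := congrFun (congrFun hD i.1) k.1
  rw [Matrix.mul_apply] at h5 ⊢
  refine Eq.trans ?_ h5
  show ∑ j : {i // U i}, D i.1 j.1 * D j.1 k.1 = ∑ j, D i.1 j * D j k.1
  rw [← Finset.sum_subtype (Finset.univ.filter U) (by simp) (fun j => D i.1 j * D j k.1),
    Finset.sum_filter]
  refine Finset.sum_congr rfl fun j _ => ?_
  split_ifs with h
  · rfl
  · symm
    by_contra hne
    exact h (hU j k.1 (right_ne_zero_of_mul hne) k.2)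

theorem core (h1 : T_SGN.{u}) (h2 : T_FIL.{u}) (h3 : T_TWO.{u}) (h4 : T_CON.{u})
    {V W : Type u} [Fintype V] [LinearOrder V] [Fintype W] [LinearOrder W] (F : Type) [Field F]
    (G : SimpleGraph V) (f : W → Finset V) (K : Finset W → Prop)
    (hK : ∀ σ s, K σ → K (σ.erase s))
    (hlow : ∀ σ, K σ → σ.Nonempty → ∃ s0 ∈ σ, ∀ s ∈ σ, f s0 ⊆ f s)
    (hne : ∀ s, (f s).Nonempty ∧ G.IsClique (f s : Set V))
    (hcone : ∀ t : Finset V, t.Nonempty → G.IsClique (t : Set V) → ∃ w0 : W, f w0 = t ∧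
      ∀ σ σ', K σ → (∀ s ∈ σ, t ⊆ f s) → (∀ a ∈ σ', a = w0 ∨ a ∈ σ) → K σ')
    (hG : SEx F (Cl G)) : SEx F K := by
  classical
  have hfin : Fintype (Ix G f K) := Fintype.ofFinite _
  -- (i)
  have hM : MEx (DD F hK : Matrix (Ix G f K) (Ix G f K) F) := by
    refine h2 F (DD F hK) (fun i => i.1.1.card) (DD_sq hK h1) ?_ ?_
    · intro i j hij
      rcases DD_ne hK hij with ⟨x, -, hx⟩ | ⟨s, hs, hx⟩
      · rw [← hx]
        exact le_rfl
      · rw [← hx]
        exact Finset.card_le_card (Finset.erase_subset _ _)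
    · have hent : ∀ i j : Ix G f K, (Matrix.of fun i j : Ix G f K =>
          if i.1.1.card = j.1.1.card then (DD F hK) i j else (0 : F)) i j = a1 F i j := by
        intro i j
        show (if i.1.1.card = j.1.1.card then a1 F i j + a2 F hK i j else (0 : F)) = a1 F i j
        split_ifs with hl
        · have : a2 F hK i j = 0 := by
            refine Finset.sum_eq_zero fun s hs => if_neg fun hh => ?_
            rw [← hh] at hl
            have h5 : i.1.1.card = (i.1.1.erase s).card := hl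
            rw [← Finset.card_erase_add_one hs] at h5
            omega
          rw [this, add_zero]
        · symm
          refine Finset.sum_eq_zero fun x _ => if_neg fun hh => hl ?_
          rw [← hh]
          rfl
      intro c hc
      have hc' : ∀ i : Ix G f K, ∑ x ∈ i.1.2, ((sg i.1.2 x : ℤ) : F) * c (e1 i x) = 0 := by
        intro i
        have h5 := congrFun hc i
        rw [Matrix.mulVec, dotProduct, Finset.sum_congr rfl fun j _ => by rw [hent i j]] at h5
        unfold a1 at h5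
        rw [mv] at h5
        exact h5
      have hse : ∀ σ : Finset W, K σ →
          SEx F (fun t : Finset V => G.IsClique (t : Set V) ∧ ∀ s ∈ σ, t ⊆ f s) := by
        intro σ hσ
        rcases σ.eq_empty_or_nonempty with rfl | hne'
        · intro c0 hc0
          obtain ⟨e, he⟩ := hG c0 (fun t ht => hc0 t ⟨ht, by simp⟩)
          exact ⟨e, fun s hs => he s hs.1⟩
        · obtain ⟨s0, hs0, hsub⟩ := hlow σ hσ hne'
          obtain ⟨x0, hx0⟩ := (hne s0).1
          refine h4 F _ x0 ?_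
          rintro t ⟨ht, ht'⟩
          have h5 : insert x0 t ⊆ f s0 := Finset.insert_subset hx0 (ht' s0 hs0)
          exact ⟨(hne s0).2.subset (by exact_mod_cast h5), fun s hs => h5.trans (hsub s hs)⟩
      have hσe : ∀ σ : Finset W, ∃ e : Finset V → F, K σ →
          ∀ t : Finset V, (G.IsClique (t : Set V) ∧ ∀ s ∈ σ, t ⊆ f s) →
            ext c σ t = ∑ x ∈ t, ((sg t x : ℤ) : F) * e (t.erase x) := by
        intro σ
        by_cases hσ : K σ
        · obtain ⟨e, he⟩ := hse σ hσ (ext c σ) (by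
            intro t ht
            refine Eq.trans ?_ (hc' ⟨(σ, t), hσ, ht.1, ht.2⟩)
            refine Finset.sum_congr rfl fun x _ => ?_
            rw [ext_of c (e1 ⟨(σ, t), hσ, ht.1, ht.2⟩ x)]
            rfl)
          exact ⟨e, fun _ => he⟩
        · exact ⟨0, fun h => absurd h hσ⟩
      choose e he using hσe
      refine ⟨fun i => e i.1.1 i.1.2, ?_⟩
      funext i
      rw [Matrix.mulVec, dotProduct, Finset.sum_congr rfl fun j _ => by rw [hent i j]]
      unfold a1
      rw [mv, ext_of c i, he i.1.1 i.2.1 i.1.2 i.2.2]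
      rfl
  -- (ii)
  let U : Ix G f K → Prop := fun i => i.1.2.Nonempty
  have hU : ∀ i j : Ix G f K, (DD F hK) i j ≠ 0 → U j → U i := by
    intro i j hij hj
    rcases DD_ne hK hij with ⟨x, -, hx⟩ | ⟨s, hs, hx⟩
    · rw [← hx] at hj
      exact Finset.Nonempty.mono (Finset.erase_subset _ _) hj
    · rw [← hx] at hj
      exact hj
  have hMU : MEx (Matrix.of fun (i j : {i // U i}) => (DD F hK) i.1 j.1) := by
    refine h2 F _ (fun i => i.1.1.2.card) (restr_sq _ U (DD_sq hK h1) hU) ?_ ?_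
    · intro i j hij
      rcases DD_ne hK hij with ⟨x, -, hx⟩ | ⟨s, hs, hx⟩
      · rw [← hx]
        exact Finset.card_le_card (Finset.erase_subset _ _)
      · rw [← hx]
        exact le_rfl
    · let e2' : {i // U i} → W → {i // U i} := fun i s => ⟨e2 hK i.1 s, i.2⟩
      have hent : ∀ i j : {i // U i}, (Matrix.of fun i j : {i // U i} =>
          if i.1.1.2.card = j.1.1.2.card then
            (Matrix.of fun (i j : {i // U i}) => (DD F hK) i.1 j.1) i j else (0 : F)) i j =
          ∑ s ∈ i.1.1.1, if e2' i s = j then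
            (-1 : F) ^ i.1.1.2.card * ((sg i.1.1.1 s : ℤ) : F) else 0 := by
        intro i j
        show (if i.1.1.2.card = j.1.1.2.card then a1 F i.1 j.1 + a2 F hK i.1 j.1 else (0 : F)) = _
        split_ifs with hl
        · have : a1 F i.1 j.1 = 0 := by
            refine Finset.sum_eq_zero fun x hx => if_neg fun hh => ?_
            rw [← hh] at hl
            have h5 : i.1.1.2.card = (i.1.1.2.erase x).card := hl
            rw [← Finset.card_erase_add_one hx] at h5
            omega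
          rw [this, zero_add]
          refine Finset.sum_congr rfl fun s _ => ?_
          have h6 : (e2 hK i.1 s = j.1) ↔ (e2' i s = j) :=
            ⟨fun h => Subtype.ext h, fun h => congrArg Subtype.val h⟩
          by_cases h7 : e2' i s = j
          · rw [if_pos (h6.2 h7), if_pos h7]
          · rw [if_neg (fun h => h7 (h6.1 h)), if_neg h7]
        · symm
          refine Finset.sum_eq_zero fun s _ => if_neg fun hh => hl ?_
          rw [← hh]
          rfl
      intro c hc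
      have hc' : ∀ i : {i // U i}, ∑ s ∈ i.1.1.1,
          (-1 : F) ^ i.1.1.2.card * ((sg i.1.1.1 s : ℤ) : F) * c (e2' i s) = 0 := by
        intro i
        have h5 := congrFun hc i
        rw [Matrix.mulVec, dotProduct, Finset.sum_congr rfl fun j _ => by rw [hent i j]] at h5
        rw [mv] at h5
        exact h5
      let c0 : Ix G f K → F := fun i => if h : U i then c ⟨i, h⟩ else 0
      have hc0 : ∀ j : {i // U i}, c j = ext c0 j.1.1.1 j.1.1.2 := by
        intro j
        rw [← ext_of c0 j.1]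
        show c j = dite (U j.1) (fun h => c ⟨j.1, h⟩) (fun _ => 0)
        rw [dif_pos j.2]
      have hsg : ∀ n : ℕ, (-1 : F) ^ n * (-1 : F) ^ n = 1 := by
        intro n
        rw [← mul_pow, neg_one_mul, neg_neg, one_pow]
      have hte : ∀ t : Finset V, ∃ e : Finset W → F, t.Nonempty → G.IsClique (t : Set V) →
          ∀ σ : Finset W, (K σ ∧ ∀ s ∈ σ, t ⊆ f s) →
            ext c0 σ t = ∑ s ∈ σ, ((sg σ s : ℤ) : F) * e (σ.erase s) := by
        intro t
        by_cases ht : t.Nonempty ∧ G.IsClique (t : Set V)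
        · obtain ⟨w0, hw0, hins⟩ := hcone t ht.1 ht.2
          have hse : SEx F (fun σ : Finset W => K σ ∧ ∀ s ∈ σ, t ⊆ f s) := by
            refine h4 F _ w0 ?_
            rintro σ ⟨hσ, hσ'⟩
            refine ⟨hins σ _ hσ hσ' (fun a ha => Finset.mem_insert.1 ha), ?_⟩
            intro s hs
            rcases Finset.mem_insert.1 hs with rfl | hs
            · exact hw0.ge
            · exact hσ' s hs
          obtain ⟨e, he⟩ := hse (fun σ => ext c0 σ t) (by
            rintro σ ⟨hσ, hσ'⟩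
            have h5 := hc' ⟨⟨(σ, t), hσ, ht.2, hσ'⟩, ht.1⟩
            have h6 : (-1 : F) ^ t.card * ∑ s ∈ σ, ((sg σ s : ℤ) : F) * ext c0 (σ.erase s) t = 0 := by
              refine Eq.trans ?_ h5
              rw [Finset.mul_sum]
              refine Finset.sum_congr rfl fun s _ => ?_
              rw [hc0, mul_assoc]
              rfl
            have h7 := congrArg (fun y => (-1 : F) ^ t.card * y) h6
            simp only [mul_zero] at h7
            rw [← mul_assoc, hsg, one_mul] at h7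
            exact h7)
          exact ⟨e, fun _ _ => he⟩
        · exact ⟨0, fun h h' => absurd ⟨h, h'⟩ ht⟩
      choose e he using hte
      refine ⟨fun i => (-1 : F) ^ i.1.1.2.card * e i.1.1.2 i.1.1.1, ?_⟩
      funext i
      rw [Matrix.mulVec, dotProduct, Finset.sum_congr rfl fun j _ => by rw [hent i j]]
      rw [mv, hc0 i, he i.1.1.2 i.2 i.1.2.2.1 i.1.1.1 ⟨i.1.2.1, i.1.2.2.2⟩]
      refine Finset.sum_congr rfl fun s _ => ?_
      show (-1 : F) ^ i.1.1.2.card * ((sg i.1.1.1 s : ℤ) : F) * ((-1 : F) ^ i.1.1.2.card *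
        e i.1.1.2 (i.1.1.1.erase s)) = ((sg i.1.1.1 s : ℤ) : F) * e i.1.1.2 (i.1.1.1.erase s)
      calc (-1 : F) ^ i.1.1.2.card * ((sg i.1.1.1 s : ℤ) : F) * ((-1 : F) ^ i.1.1.2.card *
          e i.1.1.2 (i.1.1.1.erase s))
          = ((-1 : F) ^ i.1.1.2.card * (-1 : F) ^ i.1.1.2.card) *
            (((sg i.1.1.1 s : ℤ) : F) * e i.1.1.2 (i.1.1.1.erase s)) := by ring
        _ = _ := by rw [hsg, one_mul]
  -- (iii)
  have hN := h3 F (DD F hK) U (DD_sq hK h1) hU hM hMU
  intro c hc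
  let e2' : {i // ¬ U i} → W → {i // ¬ U i} := fun i s => ⟨e2 hK i.1 s, i.2⟩
  have hent : ∀ i j : {i // ¬ U i},
      (Matrix.of fun (i j : {i // ¬ U i}) => (DD F hK) i.1 j.1) i j =
      ∑ s ∈ i.1.1.1, if e2' i s = j then ((sg i.1.1.1 s : ℤ) : F) else 0 := by
    intro i j
    show a1 F i.1 j.1 + a2 F hK i.1 j.1 = _
    have h5 : i.1.1.2 = ∅ := Finset.not_nonempty_iff_eq_empty.1 i.2
    have h6 : a1 F i.1 j.1 = 0 := by
      unfold a1
      rw [h5, Finset.sum_empty]
    rw [h6, zero_add]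
    refine Finset.sum_congr rfl fun s _ => ?_
    have h6 : (e2 hK i.1 s = j.1) ↔ (e2' i s = j) :=
      ⟨fun h => Subtype.ext h, fun h => congrArg Subtype.val h⟩
    by_cases h7 : e2' i s = j
    · rw [if_pos (h6.2 h7), if_pos h7, h5, Finset.card_empty, pow_zero, one_mul]
    · rw [if_neg (fun h => h7 (h6.1 h)), if_neg h7]
  obtain ⟨e', he'⟩ := hN (fun j => c j.1.1.1) (by
    funext i
    rw [Matrix.mulVec, dotProduct, Finset.sum_congr rfl fun j _ => by rw [hent i j], mv]
    exact hc i.1.1.1 i.1.2.1)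
  have hmk : ∀ σ : Finset W, K σ →
      K σ ∧ G.IsClique ((∅ : Finset V) : Set V) ∧ ∀ s ∈ σ, (∅ : Finset V) ⊆ f s :=
    fun σ hσ => ⟨hσ, by simp, fun s _ => Finset.empty_subset _⟩
  refine ⟨fun σ => if h : K σ then e' ⟨⟨(σ, ∅), hmk σ h⟩, Finset.not_nonempty_empty⟩ else 0, ?_⟩
  intro σ hσ
  have h5 := congrFun he' ⟨⟨(σ, ∅), hmk σ hσ⟩, Finset.not_nonempty_empty⟩
  rw [Matrix.mulVec, dotProduct, Finset.sum_congr rfl fun j _ => by rw [hent _ j], mv] at h5
  refine h5.symm.trans ?_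
  refine Finset.sum_congr rfl fun s _ => ?_
  show ((sg σ s : ℤ) : F) * e' ⟨⟨(σ.erase s, ∅), hmk _ (hK σ s hσ)⟩, Finset.not_nonempty_empty⟩ =
    ((sg σ s : ℤ) : F) * (dite (K (σ.erase s))
      (fun h => e' ⟨⟨(σ.erase s, ∅), hmk _ h⟩, Finset.not_nonempty_empty⟩) (fun _ => 0))
  rw [dif_pos (hK σ s hσ)]

end SUBD

open SUBD in
theorem tSUBD (h1 : Pool.Agent.MSN.Grp.T_SGN.{u}) (h2 : T_FIL.{u}) (h3 : T_TWO.{u})
    (h4 : T_CON.{u}) : T_SUBD.{u} := by
  intro V _ _ F _ G _ hG
  classical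
  have hfin : Fintype (NC G) := Fintype.ofFinite _
  refine core h1 h2 h3 h4 F G (fun s : NC G => s.1) (Cl (Cmp G)) ?_ ?_ ?_ ?_ hG
  · intro σ s hσ
    exact SimpleGraph.IsClique.subset (by simp) hσ
  · intro σ hσ hne
    obtain ⟨s0, hs0, hmin⟩ := Finset.exists_min_image σ (fun s => s.1.card) hne
    refine ⟨s0, hs0, ?_⟩
    intro s hs
    by_cases hss : s0 = s
    · rw [hss]
    · rcases (hσ hs0 hs hss).2 with h | h
      · exact h
      · exact (Finset.eq_of_subset_of_card_le h (hmin s hs)).ge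
  · intro s
    exact s.2
  · intro t ht htc
    refine ⟨⟨t, ht, htc⟩, rfl, ?_⟩
    intro σ σ' hσ hsub hmem a ha b hb hab
    rcases hmem a ha with rfl | ha
    · rcases hmem b hb with rfl | hb
      · exact absurd rfl hab
      · exact ⟨hab, Or.inl (hsub b hb)⟩
    · rcases hmem b hb with rfl | hb
      · exact ⟨hab, Or.inr (hsub a ha)⟩
      · exact hσ ha hb hab

end Pool.Agent.MSO
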