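import Pool.Agent.MSO.Targets

/-!
# Two out of three for exact matrices
-/

namespace Pool.Agent.MSO

universe u

namespace TWO

variable {I : Type u} [Fintype I] {F : Type} [Field F]

/-- Extension by zero from a subtype. -/
theorem mulVec_ext {U : I → Prop} [DecidablePred U] (D : Matrix I I F) (c : {i // U i} → F)
    (i : I) :
    D.mulVec (fun j => if h : U j then c ⟨j, h⟩ else 0) i = ∑ j : {j // U j}, D i j.1 * c j := by
  classical
  rw [Matrix.mulVec, dotProduct, ← Fintype.sum_subtype_add_sum_subtype U]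
  have h1 : ∑ j : {j // ¬ U j}, D i j.1 * (if h : U j.1 then c ⟨j.1, h⟩ else 0) = 0 :=
    Finset.sum_eq_zero fun j _ => by rw [dif_neg j.2, mul_zero]
  rw [h1, add_zero]
  exact Finset.sum_congr rfl fun j _ => by rw [dif_pos j.2]

/-- Restriction of a product: the columns outside the subtype give zero. -/
theorem mulVec_res {U : I → Prop} [DecidablePred U] (D : Matrix I I F) (c : I → F) (i : I)
    (h : ∀ j, ¬ U j → D i j * c j = 0) :
    ∑ j : {j // U j}, D i j.1 * c j.1 = D.mulVec c i := by
  rw [Matrix.mulVec, dotProduct, ← Fintype.sum_subtype_add_sum_subtype U]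
  rw [Finset.sum_eq_zero (fun (j : {j // ¬ U j}) _ => h j.1 j.2), add_zero]

end TWO

theorem tTWO : T_TWO.{u} := by
  intro I _ _ F _ D U _ hDD hU hD hDU c hc
  -- extension by zero
  set c' : I → F := fun j => if h : ¬ U j then c ⟨j, h⟩ else 0 with hc'
  have hr0 : ∀ i, ¬ U i → D.mulVec c' i = 0 := by
    intro i hi
    rw [hc', TWO.mulVec_ext (U := fun i => ¬ U i) D c i]
    exact congrFun hc ⟨i, hi⟩
  -- `D c'` is closed on `U`
  have hcl : (Matrix.of fun (i j : {i // U i}) => D i.1 j.1).mulVec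
      (fun j => D.mulVec c' j.1) = 0 := by
    funext i
    show ∑ j : {j // U j}, D i.1 j.1 * D.mulVec c' j.1 = 0
    rw [TWO.mulVec_res D (D.mulVec c') i.1 fun j hj => by rw [hr0 j hj, mul_zero],
      Matrix.mulVec_mulVec, hDD, Matrix.zero_mulVec]
    rfl
  obtain ⟨f, hf⟩ := hDU _ hcl
  set f' : I → F := fun j => if h : U j then f ⟨j, h⟩ else 0 with hf'
  have hDf : D.mulVec f' = D.mulVec c' := by
    funext i
    by_cases hi : U i
    · rw [hf', TWO.mulVec_ext D f i]
      exact congrFun hf ⟨i, hi⟩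
    · rw [hr0 i hi, hf', TWO.mulVec_ext D f i]
      refine Finset.sum_eq_zero fun j _ => ?_
      have : D i j.1 = 0 := by
        by_contra hne
        exact hi (hU i j.1 hne j.2)
      rw [this, zero_mul]
  obtain ⟨g, hg⟩ := hD (c' - f') (by rw [Matrix.mulVec_sub, hDf, sub_self])
  refine ⟨fun j => g j.1, ?_⟩
  funext i
  show ∑ j : {j // ¬ U j}, D i.1 j.1 * g j.1 = c i
  rw [TWO.mulVec_res (U := fun i => ¬ U i) D g i.1 fun j hj => by
    have : D i.1 j = 0 := by
      by_contra hne
      exact i.2 (hU i.1 j hne (not_not.1 hj))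
    rw [this, zero_mul], hg]
  show c' i.1 - f' i.1 = c i
  rw [hc', hf']
  simp only [dif_pos i.2, dif_neg i.2, sub_zero]

end Pool.Agent.MSO
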