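import Pool.Agent.MSO.WDefs

/-!
# WGEN: remove a null loop (with values in an abelian group)
-/

set_option autoImplicit false

namespace Pool.Agent.MSO

open List Pool.Agent.MSF

universe u

namespace WGEN

variable {V : Type u} {A : Type} [AddCommGroup A] {G : SimpleGraph V} {ω : V → V → V → A}

/-- Cancel a path and its reverse. -/
theorem cancel (hZ : T_WZIP.{u}) (hω : Alt3 ω) {N : ℕ} (hN : SphN G ω N) {m : ℕ} (hm : m ≤ N)
    {t : V} {x : A} {X R : List V} (hXR : R ++ X ≠ []) :
    ∀ (Q : List V) (s : V), NullW G ω m (X ++ t :: (Q.reverse ++ s :: (Q ++ t :: R))) x →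
      NullW G ω m (X ++ t :: R) x := by
  intro Q
  induction Q with
  | nil =>
    intro s h
    exact hZ G ω hω N hN m t s X R x hm hXR (by simpa using h)
  | cons q Q ih =>
    intro s h
    apply ih q
    have h1 : NullW G ω m ((X ++ t :: Q.reverse) ++ q :: s :: q :: (Q ++ t :: R)) x := by
      simpa using h
    have h2 := hZ G ω hω N hN m q s (X ++ t :: Q.reverse) (Q ++ t :: R) x hm (by simp) h1
    simpa using h2

end WGEN

theorem tWGEN (h0 : T_WBAS.{u}) (h : T_WZIP.{u}) : T_WGEN.{u} := by
  intro V A _ G ω hω N hN m n a l l' x y hmn hl hl' hx hy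
  have hB := h0 G ω hω
  have h1 : NullW G ω n (a :: l'.reverse) (-y) := by
    have h2 : NullW G ω n (l'.reverse ++ [a]) (-y) := by simpa using hB.reverse _ _ _ hy
    exact hB.rotated _ _ _ _ h2 List.isRotated_append
  have h3 : NullW G ω m ((a :: l) ++ (a :: l')) x := by simpa using hx
  have h4 : NullW G ω m ((a :: l') ++ a :: l) x :=
    hB.rotated _ _ _ _ h3 List.isRotated_append
  have h5 : NullW G ω (m + n) ((a :: l') ++ a :: (l'.reverse ++ a :: l)) (x + -y) :=
    hB.loop _ _ _ _ _ _ _ _ h4 (by simpa using hl') h1 (by simp)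
  have h6 := WGEN.cancel (G := G) (m := m + n) h hω hN hmn (t := a) (X := []) (R := l)
    (by simpa using hl) l'.reverse a (by simpa using h5)
  rw [sub_eq_add_neg]
  simpa using h6

end Pool.Agent.MSO
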