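import Pool.Agent.MSO.WDefs

/-!
# WGLUE: gluing fillings with values (in an abelian group) along a path
-/

set_option autoImplicit false

namespace Pool.Agent.MSO

open List Pool.Agent.MSF

universe u

namespace WGLUE

variable {V : Type u} {A : Type} [AddCommGroup A] {G : SimpleGraph V} {ω : V → V → V → A}

/-- Cancel a path and its reverse. -/
theorem cancel (hZ : T_WZIP.{u}) (hω : Alt3 ω) {N : ℕ} (hN : SphN G ω N) {m : ℕ} (hm : m ≤ N)
    {t : V} {X R : List V} {x : A} (hXR : R ++ X ≠ []) :
    ∀ (Q : List V) (s : V), NullW G ω m (X ++ t :: (Q.reverse ++ s :: (Q ++ t :: R))) x →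
      NullW G ω m (X ++ t :: R) x := by
  intro Q
  induction Q with
  | nil =>
    intro s h
    exact hZ G ω hω N hN m t s X R x hm hXR (by simpa using h)
  | cons q Q ih =>
    intro s h
    apply ih q
    have h1 : NullW G ω m ((X ++ t :: Q.reverse) ++ q :: s :: q :: (Q ++ t :: R)) x := by
      simpa using h
    have h2 := hZ G ω hω N hN m q s (X ++ t :: Q.reverse) (Q ++ t :: R) x hm (by simp) h1
    simpa using h2

end WGLUE

/-- WGLUE from WZIP (WBAS is not needed). -/
theorem tWGLUE (_h0 : T_WBAS.{u}) (h : T_WZIP.{u}) : T_WGLUE.{u} := by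
  intro V A _ G ω hω N hN m n s t P Q R x y hmn h1 h2
  have h3 : NullW G ω (n + m) (s :: ((P ++ t :: Q.reverse) ++ s :: (Q ++ t :: R))) (y + x) :=
    NullW.split (by simp) (by simp) h2 h1
  have h4 : NullW G ω (n + m) ((s :: P) ++ t :: (Q.reverse ++ s :: (Q ++ t :: R))) (y + x) := by
    simpa using h3
  rw [Nat.add_comm, add_comm x y]
  have h5 := WGLUE.cancel h hω hN (by omega) (X := s :: P) (R := R) (by simp) Q s h4
  simpa using h5

end Pool.Agent.MSO
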