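import Pool.Agent.MSO.WDefs

/-!
# WPAIR: uniqueness of the value
-/

set_option autoImplicit false

namespace Pool.Agent.MSO

open List Pool.Agent.MSF

universe u

namespace WPAIR

variable {V : Type u} {A : Type} [AddCommGroup A] {G : SimpleGraph V} {ω : V → V → V → A}

theorem zero {w : List V} {t : A} {m : ℕ} (h : NullW G ω m w t) : m = 0 → t = 0 := by
  induction h with
  | pt a => exact fun _ => rfl
  | dig h => exact fun _ => rfl
  | rot _ ih => exact ih
  | tri _ _ _ _ _ => exact fun h => absurd h (Nat.succ_ne_zero _)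
  | split _ _ _ _ ih ih' =>
    intro h0
    rw [ih (by omega), ih' (by omega), add_zero]
  | weak _ _ => exact fun h => absurd h (Nat.succ_ne_zero _)

theorem parity {w : List V} {t : A} {m : ℕ} (h : NullW G ω m w t) :
    m = 0 → w.length = 1 ∨ w.length % 2 = 0 := by
  induction h with
  | pt a => exact fun _ => Or.inl rfl
  | dig h => exact fun _ => Or.inr (by simp)
  | rot _ ih =>
    intro h0
    have := ih h0
    simp only [List.length_cons, List.length_append, List.length_nil] at this ⊢
    omega
  | tri _ _ _ _ _ => exact fun h => absurd h (Nat.succ_ne_zero _)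
  | split hl hl' _ _ ih ih' =>
    intro h0
    have h1 := ih (by omega)
    have h2 := ih' (by omega)
    have h3 := List.length_pos_of_ne_nil hl
    have h4 := List.length_pos_of_ne_nil hl'
    simp only [List.length_cons, List.length_append] at h1 h2 ⊢
    omega
  | weak _ _ => exact fun h => absurd h (Nat.succ_ne_zero _)

/-- Closed walks of length three are irreducible. -/
theorem irr3 (k : ℕ) (a b z : V) (t : A) : IrrW G ω k [z, a, b] t := by
  intro c s r m n x y h hs hr _ _ _
  exfalso
  have h1 := h.perm.length_eq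
  have h3 := List.length_pos_of_ne_nil hs
  have h4 := List.length_pos_of_ne_nil hr
  simp only [List.length_cons, List.length_append, List.length_nil] at h1
  omega

theorem adj2 (hB : WBas G ω) {m : ℕ} {a b : V} {x : A} (h : NullW G ω m [a, b] x) :
    G.Adj a b := by
  have h1 := (hB.forget _ _ _ h).cw
  simp [CW] at h1
  exact h1.1

/-- Values of spheres of area at most `N`. -/
theorem sph (hB : WBas G ω) {N : ℕ} (hU : UnN G ω N) : SphN G ω N := by
  intro m a b x hm h
  exact hU m 0 [a, b] x 0 (by omega) h (NullW.dig (adj2 hB h))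

theorem rw_len {m : ℕ} {P : List V} {x : A} (h : NullRW G ω m P x) :
    (P.length = 1 ∧ x = 0) ∨ 3 ≤ P.length := by
  rcases h with ⟨⟨a, rfl⟩, h⟩ | ⟨a, l, hl, rfl, _⟩
  · exact Or.inl ⟨rfl, h⟩
  · right
    have h4 := List.length_pos_of_ne_nil hl
    simp only [List.length_cons, List.length_append, List.length_nil]
    omega

theorem sphS (h0 : T_WBAS.{u}) (h1 : T_WPEEL.{u}) (h3 : T_WPD.{u}) (ang : V → V → V → ℝ)
    (hA : Angled G ang) (hω : Alt3 ω) (hc : Cocy G ω) {N : ℕ} (hU : UnN G ω N) :
    SphN G ω (N + 1) := by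
  have hB := h0 G ω hω
  have hS := sph hB hU
  intro m a b x hm h
  by_cases hmN : m ≤ N
  · exact hS m a b x hmN h
  have hmN' : m = N + 1 := by omega
  subst hmN'
  by_contra hx
  rcases h1 G ω hω _ _ _ h a b [] (List.IsRotated.refl _) with
    ⟨z, m', x', hm', hba, hbz, hza, hxx, h4⟩ | ⟨P, Q, m₁, m₂, x₁, x₂, hPQ, hP, hQ, _, hxx⟩
  · have h4' : NullW G ω m' [z, a, b] x' := by simpa using h4
    have h5 : NullW G ω 1 [z, a, b] (ω z a b) := hB.triangle z a b hza hba.symm hbz.symm
    have h6 : ω b a z = - ω z a b := by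
      rw [hω.s12 b a z, hω.s23 a b z, hω.s12 a z b, neg_neg]
    have hne : x' ≠ ω z a b := by
      intro he
      apply hx
      rw [hxx, he, h6]
      exact add_neg_cancel _
    have hN1 : m' = N := by
      by_contra hne'
      exact hne (hU m' 1 _ _ _ (by omega) h4' h5)
    subst hN1
    have hpos : 1 ≤ m' := by
      by_contra hz
      have hz' : m' = 0 := by omega
      have := parity h4' hz'
      simp at this
    apply hne
    refine h3 G ang ω hA hω hc m' m' hS hU m' 1 [z, a, b] x' (ω z a b) rfl le_rfl hpos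
      (by omega) (by simp) ⟨h4', ?_⟩ (irr3 _ _ _ _ _) ⟨h5, ?_⟩ (irr3 _ _ _ _ _)
    · intro k hk
      by_contra hlt
      exact hne (hU k 1 _ _ _ (by omega) hk h5)
    · intro k hk
      by_contra hlt
      exact hne (hU m' k _ _ _ (by omega) h4' hk)
  · have hl : P.length + Q.length = 2 := by
      have := congrArg List.length hPQ
      simp only [List.length_cons, List.length_append, List.length_nil] at this
      omega
    rcases rw_len hP with ⟨hP1, hP2⟩ | hP1
    · rcases rw_len hQ with ⟨hQ1, hQ2⟩ | hQ1
      · apply hx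
        rw [hxx, hP2, hQ2, add_zero]
      · omega
    · omega

/-- The irreducibility of a filling, from the induction hypothesis on the length. -/
theorem irr (h0 : T_WBAS.{u}) (h2 : T_WGEN.{u}) (hω : Alt3 ω) {N : ℕ} (hS : SphN G ω N)
    {m n : ℕ} {w : List V} {t t' : A} (hmn : m + n ≤ N) (h' : NullW G ω n w t')
    (hne : t ≠ t')
    (ih : ∀ w' : List V, w'.length < w.length → ∀ (m n : ℕ) (t t' : A), m + n ≤ N →
      NullW G ω m w' t → NullW G ω n w' t' → t = t') : IrrW G ω m w t := by
  intro c s r m₁ n₁ x y hr hs hrr hx hy hxy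
  by_contra hle
  have hB := h0 G ω hω
  have h4 : NullW G ω n (c :: (s ++ c :: r)) t' := hB.rotated _ _ _ _ h' hr
  have h5 := h2 G ω hω N hS n n₁ c s r t' y (by omega) hs hrr h4 hy
  have hlen := hr.perm.length_eq
  have h6 := List.length_pos_of_ne_nil hrr
  have h7 := ih (c :: s) (by
    rw [hlen]
    simp only [List.length_cons, List.length_append]
    omega) m₁ (n + n₁) x (t' - y) (by omega) hx h5
  apply hne
  rw [← hxy, h7, sub_add_cancel]

theorem step (h0 : T_WBAS.{u}) (h1 : T_WPEEL.{u}) (h2 : T_WGEN.{u}) (h3 : T_WPD.{u})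
    (ang : V → V → V → ℝ) (hA : Angled G ang) (hω : Alt3 ω) (hc : Cocy G ω) {N : ℕ}
    (hU : UnN G ω N) : UnN G ω (N + 1) := by
  have hB := h0 G ω hω
  have hS := sphS h0 h1 h3 ang hA hω hc hU
  suffices H : ∀ (L : ℕ) (w : List V), w.length = L → ∀ (m n : ℕ) (t t' : A),
      m + n ≤ N + 1 → NullW G ω m w t → NullW G ω n w t' → t = t' from
    fun m n w t t' hmn h h' => H w.length w rfl m n t t' hmn h h'
  intro L
  induction L using Nat.strong_induction_on with
  | _ L ih =>
    intro w hw m n t t' hmn h h'
    have ih' : ∀ w' : List V, w'.length < w.length → ∀ (m n : ℕ) (t t' : A),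
        m + n ≤ N + 1 → NullW G ω m w' t → NullW G ω n w' t' → t = t' :=
      fun w' hw' => ih w'.length (by omega) w' rfl
    by_contra hne
    have hmnN : m + n = N + 1 := by
      by_contra hne'
      exact hne (hU m n w t t' (by omega) h h')
    by_cases h3l : 3 ≤ w.length
    · apply hne
      refine h3 G ang ω hA hω hc (N + 1) N hS hU m n w t t' hmnN (by omega) (by omega)
        (by omega) h3l ⟨h, ?_⟩ (irr h0 h2 hω hS hmn h' hne ih') ⟨h', ?_⟩
        (irr h0 h2 hω hS (by omega) h (Ne.symm hne) ih')
      · intro k hk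
        by_contra hlt
        exact hne (hU k n w t t' (by omega) hk h')
      · intro k hk
        by_contra hlt
        exact hne (hU m k w t t' (by omega) h hk)
    · rcases w with _ | ⟨a, _ | ⟨b, _ | ⟨c, w⟩⟩⟩
      · exact (hB.forget _ _ _ h).ne_nil rfl
      · exact hne ((hB.len1 _ _ _ h).trans (hB.len1 _ _ _ h').symm)
      · exact hne ((hS m a b t (by omega) h).trans (hS n a b t' (by omega) h').symm)
      · simp only [List.length_cons] at h3l
        omega

end WPAIR

theorem tWPAIR (h0 : T_WBAS.{u}) (h1 : T_WPEEL.{u}) (h2 : T_WGEN.{u}) (h3 : T_WPD.{u}) :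
    T_WPAIR.{u} := by
  intro V A _ G ang ω hA hω hc m n w t t' h h'
  have hU : ∀ N, UnN G ω N := by
    intro N
    induction N with
    | zero =>
      intro m n w t t' hmn h h'
      rw [WPAIR.zero h (by omega), WPAIR.zero h' (by omega)]
    | succ N ih => exact WPAIR.step h0 h1 h2 h3 ang hA hω hc ih
  exact hU (m + n) m n w t t' le_rfl h h'

end Pool.Agent.MSO
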