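import Pool.Agent.MSO.WDefs

set_option autoImplicit false

/-! WPD: pairs of discs. -/

namespace Pool.Agent.MSO

open List Pool.Agent.MSF

universe u

namespace WPD

variable {V : Type u} {A : Type} [AddCommGroup A] {G : SimpleGraph V}

/-! ### Cyclic lists of corners -/

theorem cycC_rot {c : Corner V} {D : List (Corner V)} (h : CycC (c :: D)) : CycC (D ++ [c]) := by
  cases D with
  | nil => simpa using h
  | cons b D =>
    have h1 : List.IsChain Corner.Next (c :: b :: (D ++ [c])) := by simpa [CycC] using h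
    rw [List.isChain_cons_cons] at h1
    have h2 : List.IsChain Corner.Next ((b :: D) ++ c :: [b]) := by
      rw [List.isChain_split]
      refine ⟨by simpa using h1.2, ?_⟩
      rw [List.isChain_cons_cons]
      exact ⟨h1.1, by simp⟩
    have h3 : List.IsChain Corner.Next (b :: ((D ++ [c]) ++ [b])) := by simpa using h2
    exact h3

theorem cycC_swap {X Y : List (Corner V)} (h : CycC (X ++ Y)) : CycC (Y ++ X) := by
  induction X generalizing Y with
  | nil => simpa using h
  | cons c X ih =>
    have h1 : CycC (X ++ (Y ++ [c])) := by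
      have : CycC (c :: (X ++ Y)) := by simpa using h
      simpa using cycC_rot this
    simpa using ih h1

/-- The neighbours of a corner. -/
theorem corner_nb {D₁ D₂ : List (Corner V)} {c : Corner V} (h : CycC (D₁ ++ c :: D₂))
    {q p : V} {R : List V} (hR : D₂.map Corner.v ++ D₁.map Corner.v = q :: (R ++ [p])) :
    c.n = q ∧ c.p = p := by
  have h1 : CycC (c :: (D₂ ++ D₁)) := by
    have := cycC_swap h
    simpa using this
  have h2 : (D₂ ++ D₁).map Corner.v = q :: (R ++ [p]) := by rw [List.map_append, hR]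
  obtain ⟨d, E, hE⟩ : ∃ d E, D₂ ++ D₁ = d :: E := by
    cases hE : D₂ ++ D₁ with
    | nil => rw [hE] at h2; simp at h2
    | cons d E => exact ⟨d, E, rfl⟩
  have h3 : List.IsChain Corner.Next (c :: ((D₂ ++ D₁) ++ [c])) := h1
  constructor
  · rw [hE, List.cons_append, List.isChain_cons_cons] at h3
    rw [hE] at h2
    simp only [List.map_cons, List.cons.injEq] at h2
    rw [← h2.1]
    exact h3.1.1
  · have hne : (D₂ ++ D₁) ≠ [] := by rw [hE]; simp
    have hl : ((D₂ ++ D₁).getLast hne).v = p := by
      have : ((D₂ ++ D₁).map Corner.v).getLast? = some p := by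
        rw [h2]
        have : q :: (R ++ [p]) = (q :: R) ++ [p] := by simp
        rw [this, List.getLast?_concat]
      rw [List.getLast?_map, List.getLast?_eq_getLast_of_ne_nil hne] at this
      simpa using this
    have h4 : D₂ ++ D₁ = (D₂ ++ D₁).dropLast ++ [(D₂ ++ D₁).getLast hne] :=
      (List.dropLast_append_getLast hne).symm
    have h5 : List.IsChain Corner.Next ((c :: (D₂ ++ D₁).dropLast) ++
        ((D₂ ++ D₁).getLast hne) :: [c]) := by
      have e : (c :: (D₂ ++ D₁).dropLast) ++ ((D₂ ++ D₁).getLast hne) :: [c] =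
          c :: ((D₂ ++ D₁) ++ [c]) := by
        conv_rhs => rw [h4]
        simp
      rw [e]; exact h3
    rw [List.isChain_split] at h5
    have h6 := h5.2
    rw [List.isChain_cons_cons] at h6
    rw [← hl]
    exact h6.1.2

/-! ### Lengths and values -/

theorem plen_append (ang : V → V → V → ℝ) (v x : V) : ∀ (L₁ L₂ : List V),
    plen ang v (L₁ ++ x :: L₂) = plen ang v (L₁ ++ [x]) + plen ang v (x :: L₂)
  | [], L₂ => by simp [plen]
  | [a], L₂ => by
    simp [plen]
  | (a :: b :: L), L₂ => by
    have := plen_append ang v x (b :: L) L₂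
    simp only [List.cons_append, plen] at this ⊢
    rw [this]
    ring

theorem plen_reverse (ang : V → V → V → ℝ) (v : V) (hs : ∀ v a b, ang v a b = ang v b a) :
    ∀ (L : List V), plen ang v L.reverse = plen ang v L
  | [] => rfl
  | [a] => rfl
  | (a :: b :: L) => by
    have ih := plen_reverse ang v hs (b :: L)
    have e : (a :: b :: L).reverse = L.reverse ++ b :: [a] := by simp
    rw [e, plen_append]
    have e2 : L.reverse ++ [b] = (b :: L).reverse := by simp
    rw [e2, ih]
    simp only [plen]
    rw [hs v b a]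
    ring

theorem fval_append (ω : V → V → V → A) (v x : V) : ∀ (L₁ L₂ : List V),
    fval ω v (L₁ ++ x :: L₂) = fval ω v (L₁ ++ [x]) + fval ω v (x :: L₂)
  | [], L₂ => by simp [fval]
  | [a], L₂ => by
    simp [fval]
  | (a :: b :: L), L₂ => by
    have := fval_append ω v x (b :: L) L₂
    simp only [List.cons_append, fval] at this ⊢
    rw [this]
    abel

theorem fval_reverse (ω : V → V → V → A) (v : V) (hs : ∀ v a b, ω v a b = -ω v b a) :
    ∀ (L : List V), fval ω v L.reverse = -fval ω v L
  | [] => by simp [fval]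
  | [a] => by simp [fval]
  | (a :: b :: L) => by
    have ih := fval_reverse ω v hs (b :: L)
    have e : (a :: b :: L).reverse = L.reverse ++ b :: [a] := by simp
    rw [e, fval_append]
    have e2 : L.reverse ++ [b] = (b :: L).reverse := by simp
    rw [e2, ih]
    simp only [fval]
    rw [hs v b a]
    abel

/-! ### The common corner -/

theorem exists_corner : ∀ (D D' : List (Corner V)), D.length = D'.length →
    0 < (D.map fun c => Real.pi - c.th).sum + (D'.map fun c => Real.pi - c.th).sum →
    ∃ (D₁ D₂ D₁' D₂' : List (Corner V)) (c c' : Corner V), D = D₁ ++ c :: D₂ ∧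
      D' = D₁' ++ c' :: D₂' ∧ D₁.length = D₁'.length ∧ c.th + c'.th < 2 * Real.pi
  | [], [], _, h => by simp at h
  | [], (_ :: _), h, _ => by simp at h
  | (_ :: _), [], h, _ => by simp at h
  | (c :: D), (c' :: D'), hl, h => by
    by_cases hc : c.th + c'.th < 2 * Real.pi
    · exact ⟨[], D, [], D', c, c', rfl, rfl, rfl, hc⟩
    · have hl' : D.length = D'.length := by simpa using hl
      have h' : 0 < (D.map fun c => Real.pi - c.th).sum + (D'.map fun c => Real.pi - c.th).sum := by
        simp only [List.map_cons, List.sum_cons] at h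
        linarith
      obtain ⟨D₁, D₂, D₁', D₂', d, d', h1, h2, h3, h4⟩ := exists_corner D D' hl' h'
      exact ⟨c :: D₁, D₂, c' :: D₁', D₂', d, d', by rw [h1]; rfl, by rw [h2]; rfl, by simp [h3], h4⟩

end WPD

open WPD in
theorem tWPD (h0 : T_WBAS.{u}) (h1 : T_WGLUE.{u}) (h2 : T_WFILL.{u}) (h3 : T_WEXP.{u})
    (h4 : T_WFOR.{u}) (h5 : T_WDEX.{u}) (h6 : Pool.Agent.MSF.T_DISC1.{u})
    (h7 : Pool.Agent.MSF.T_DISC2.{u}) : T_WPD.{u} := by
  intro V A _ G ang ω hA hS hC M N hSph hUn m n w t t' hmn hm hn hmnM hw hmw hiw hnw hin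
  obtain ⟨D, hD, hDw⟩ := h5 G ang ω hA hS hC M hSph m w t hm hw hmw hiw
  obtain ⟨D', hD', hDw'⟩ := h5 G ang ω hA hS hC M hSph n w t' hn hw hnw hin
  have dD := h4 G ang ω m D t hD
  have dD' := h4 G ang ω n D' t' hD'
  have g1 := h7 G ang hA m D dD
  have g2 := h7 G ang hA n D' dD'
  obtain ⟨-, cD, okD⟩ := h6 G ang hA m D dD
  obtain ⟨-, cD', okD'⟩ := h6 G ang hA n D' dD'
  have hlen : D.length = D'.length := by
    have e1 := congrArg List.length hDw
    have e2 := congrArg List.length hDw'
    simp only [List.length_map] at e1 e2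
    omega
  have hpi := Real.pi_pos
  obtain ⟨D₁, D₂, D₁', D₂', c, c', e1, e2, e3, e4⟩ := exists_corner D D' hlen (by linarith)
  have hmap : D₁.map Corner.v ++ c.v :: D₂.map Corner.v =
      D₁'.map Corner.v ++ c'.v :: D₂'.map Corner.v := by
    have : D.map Corner.v = D'.map Corner.v := by rw [hDw, hDw']
    rw [e1, e2] at this
    simpa using this
  have hmap' := List.append_inj hmap (by simp [e3])
  obtain ⟨m1, m2⟩ := hmap'
  simp only [List.cons.injEq] at m2
  obtain ⟨mv, m2⟩ := m2
  -- the neighbours
  have hRex : ∃ q R p, D₂.map Corner.v ++ D₁.map Corner.v = q :: (R ++ [p]) := by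
    have hl : 2 ≤ (D₂.map Corner.v ++ D₁.map Corner.v).length := by
      have e1' := congrArg List.length hDw
      rw [e1] at e1'
      simp only [List.length_map, List.length_append, List.length_cons] at e1' ⊢
      omega
    generalize D₂.map Corner.v ++ D₁.map Corner.v = L at hl
    cases L with
    | nil => simp at hl
    | cons q L =>
      cases L using List.reverseRecOn with
      | nil => simp at hl
      | append_singleton R p => exact ⟨q, R, p, rfl⟩
  obtain ⟨q, R, p, hR⟩ := hRex
  have hR' : D₂'.map Corner.v ++ D₁'.map Corner.v = q :: (R ++ [p]) := by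
    rw [← m1, ← m2]; exact hR
  rw [e1] at cD okD
  rw [e2] at cD' okD'
  obtain ⟨cn, cp⟩ := corner_nb cD hR
  obtain ⟨cn', cp'⟩ := corner_nb cD' hR'
  have ok := okD c (by simp)
  have ok' := okD' c' (by simp)
  -- abbreviations
  have okc := ok.chain
  have okl := ok.link
  have okn := ok.len
  have okc' := ok'.chain
  have okl' := ok'.link
  have okn' := ok'.len
  rw [cn, cp] at okc okl okn
  rw [cn', cp'] at okc' okl' okn'
  rw [← mv] at okl' okn'
  -- expansions
  obtain ⟨k, hk, hkm⟩ := (h3 G ang ω hA hS m D t hD).2 D₁ D₂ c e1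
  obtain ⟨k', hk', hkn⟩ := (h3 G ang ω hA hS n D' t' hD').2 D₁' D₂' c' e2
  rw [cn, cp] at hk
  rw [cn', cp', ← mv, ← m1, ← m2] at hk'
  have hBas := h0 G ω hS
  -- the closed walk in the link
  have hsω : ∀ v a b, ω v a b = -ω v b a := hS.s23
  set x := c.v with hx
  have hW : CW G (p :: (c.F ++ q :: c'.F.reverse)) := by
    have hne : c.F ++ q :: c'.F.reverse ≠ [] := by simp
    rw [CW_cons hne]
    have e : p :: (c.F ++ q :: c'.F.reverse ++ [p]) = (p :: c.F) ++ q :: (c'.F.reverse ++ [p]) := by
      simp
    rw [e, List.isChain_split]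
    refine ⟨by simpa using okc, ?_⟩
    have : q :: (c'.F.reverse ++ [p]) = (p :: (c'.F ++ [q])).reverse := by simp
    rw [this, List.isChain_reverse]
    exact okc'.imp fun a b h => h.symm
  have hL : ∀ y ∈ p :: (c.F ++ q :: c'.F.reverse), G.Adj x y := by
    intro y hy
    simp only [List.mem_cons, List.mem_append, List.mem_reverse] at hy
    rcases hy with rfl | hy | rfl | hy
    · exact okl _ (by simp)
    · exact okl _ (by simp [hy])
    · exact okl _ (by simp)
    · exact okl' _ (by simp [hy])
  have hcl : clen ang x (p :: (c.F ++ q :: c'.F.reverse)) = c.th + c'.th := by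
    show plen ang x (p :: ((c.F ++ q :: c'.F.reverse) ++ [p])) = _
    have e : p :: ((c.F ++ q :: c'.F.reverse) ++ [p]) = (p :: c.F) ++ q :: (c'.F.reverse ++ [p]) := by
      simp
    rw [e, plen_append]
    have e' : q :: (c'.F.reverse ++ [p]) = (p :: (c'.F ++ [q])).reverse := by simp
    rw [e', plen_reverse ang x hA.symm, okn, okn']
    simp
  have hcv : cval ω x (p :: (c.F ++ q :: c'.F.reverse)) =
      fval ω x (p :: (c.F ++ [q])) - fval ω x (p :: (c'.F ++ [q])) := by
    show fval ω x (p :: ((c.F ++ q :: c'.F.reverse) ++ [p])) = _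
    have e : p :: ((c.F ++ q :: c'.F.reverse) ++ [p]) = (p :: c.F) ++ q :: (c'.F.reverse ++ [p]) := by
      simp
    rw [e, fval_append]
    have e' : q :: (c'.F.reverse ++ [p]) = (p :: (c'.F ++ [q])).reverse := by simp
    rw [e', fval_reverse ω x hsω, sub_eq_add_neg]
    simp
  have hfill := h2 G ang ω hA hS hC x (p :: (c.F ++ q :: c'.F.reverse)) (by simp; omega) hW hL
    (by rw [hcl]; exact e4)
  rw [hcv] at hfill
  have hfl : (p :: (c.F ++ q :: c'.F.reverse)).length - 2 = c.F.length + c'.F.length := by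
    simp [List.length_append]
  rw [hfl] at hfill
  -- rotate the second expansion
  have hrot2 : D₁.map Corner.v ++ (c'.F ++ D₂.map Corner.v) ~r p :: (c'.F ++ q :: R) := by
    have r1 : D₁.map Corner.v ++ (c'.F ++ D₂.map Corner.v) ~r
        (c'.F ++ D₂.map Corner.v) ++ D₁.map Corner.v := List.isRotated_append
    have r2 : (c'.F ++ D₂.map Corner.v) ++ D₁.map Corner.v = (c'.F ++ q :: R) ++ [p] := by
      rw [List.append_assoc, hR]; simp
    rw [r2] at r1
    have r3 : (c'.F ++ q :: R) ++ [p] ~r [p] ++ (c'.F ++ q :: R) := List.isRotated_append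
    exact r1.trans r3
  have hk2 := hBas.rotated _ _ _ _ hk' hrot2
  have hglue := h1 G ω hS M hSph k' (c.F.length + c'.F.length) p q c.F c'.F R _ _ (by omega)
    hk2 hfill
  have hrot1 : p :: (c.F ++ q :: R) ~r D₁.map Corner.v ++ (c.F ++ D₂.map Corner.v) := by
    have r1 : D₁.map Corner.v ++ (c.F ++ D₂.map Corner.v) ~r
        (c.F ++ D₂.map Corner.v) ++ D₁.map Corner.v := List.isRotated_append
    have r2 : (c.F ++ D₂.map Corner.v) ++ D₁.map Corner.v = (c.F ++ q :: R) ++ [p] := by
      rw [List.append_assoc, hR]; simp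
    rw [r2] at r1
    have r3 : (c.F ++ q :: R) ++ [p] ~r [p] ++ (c.F ++ q :: R) := List.isRotated_append
    exact (r1.trans r3).symm
  have hfin := hBas.rotated _ _ _ _ hglue hrot1
  have hval := hUn _ _ _ _ _ (by omega) hk hfin
  set f := fval ω x (p :: (c.F ++ [q]))
  set f' := fval ω x (p :: (c'.F ++ [q]))
  have : t + f = t' + f := by
    calc t + f = t' + f' + (f - f') := hval
      _ = t' + f := by abel
  exact add_right_cancel this

end Pool.Agent.MSO
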