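import Pool.Agent.MSO.WDefs

/-! Job MSO-WPEEL: peel off an edge of a null closed walk, with values. -/

namespace Pool.Agent.MSO

open List Pool.Agent.MSF

universe u

namespace WPEEL

variable {V : Type u} {A : Type} [AddCommGroup A] {G : SimpleGraph V} {ω : V → V → V → A}

theorem w_swap (hB : WBas G ω) {m : ℕ} {X Y : List V} {x : A}
    (h : NullW G ω m (X ++ Y) x) : NullW G ω m (Y ++ X) x :=
  hB.rotated _ _ _ _ h List.isRotated_append

theorem w_triAt (hB : WBas G ω) {m : ℕ} {a b z : V} {X Y : List V} {x : A}
    (h : NullW G ω m (X ++ a :: z :: b :: Y) x) (hab : G.Adj a b) (haz : G.Adj a z)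
    (hzb : G.Adj z b) : NullW G ω (m + 1) (X ++ a :: b :: Y) (x + ω a b z) :=
  hB.triAt _ _ _ _ _ _ _ h hab haz hzb

theorem w_loop (hB : WBas G ω) {m n : ℕ} {a : V} {X Y L : List V} {x y : A}
    (h : NullW G ω m (X ++ a :: Y) x) (h' : NullW G ω n (a :: L) y) (hXY : X ++ Y ≠ [])
    (hL : L ≠ []) : NullW G ω (m + n) (X ++ a :: (L ++ a :: Y)) (x + y) :=
  hB.loop _ _ _ _ _ _ _ _ h hL h' hXY

theorem w_attach (hB : WBas G ω) {m : ℕ} {p y : V} {P : List V} {x : A}
    (h : NullRW G ω m (p :: P) x) (hy : G.Adj y p) : NullW G ω m (y :: p :: P) x := by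
  rcases h with ⟨⟨a, ha⟩, rfl⟩ | ⟨a, l, hl, he, h⟩
  · obtain ⟨rfl, rfl⟩ := List.cons_eq_cons.1 ha
    exact hB.mono _ _ _ _ (NullW.dig hy) (Nat.zero_le _)
  · obtain ⟨rfl, rfl⟩ := List.cons_eq_cons.1 he
    have h1 : NullW G ω m ([] ++ p :: l) x := h
    have h2 := hB.spur _ _ _ _ _ _ h1 hy.symm (by simpa using hl)
    have h3 : NullW G ω m ([p] ++ (y :: p :: l)) x := by simpa using h2
    simpa using w_swap hB h3

theorem rw_loop (hB : WBas G ω) {m n : ℕ} {a : V} {X Y L : List V} {x y : A}
    (h : NullRW G ω m (X ++ a :: Y) x) (h' : NullW G ω n (a :: L) y) (hL : L ≠ []) :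
    NullRW G ω (m + n) (X ++ a :: (L ++ a :: Y)) (x + y) := by
  rcases h with ⟨⟨c, hc⟩, rfl⟩ | ⟨c, l, hl, he, h⟩
  · have hX : X = [] := by
      cases X with
      | nil => rfl
      | cons x X => simp at hc
    subst hX
    simp only [List.nil_append, List.cons.injEq] at hc
    obtain ⟨rfl, rfl⟩ := hc
    refine Or.inr ⟨a, L, hL, by simp, ?_⟩
    rw [zero_add]
    exact hB.mono _ _ _ _ h' (Nat.le_add_left _ _)
  · rcases List.eq_nil_or_concat Y with rfl | ⟨Y', c', rfl⟩
    · -- `a` is the last vertex
      cases X with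
      | nil => simp at he
      | cons x0 X =>
        simp only [List.cons_append, List.cons.injEq] at he
        obtain ⟨rfl, he⟩ := he
        have he2 := List.append_inj' he (by simp)
        obtain ⟨rfl, he3⟩ := he2
        simp only [List.cons.injEq, and_true] at he3
        subst he3
        refine Or.inr ⟨a, X ++ a :: L, by simp, by simp, ?_⟩
        exact NullW.split hl hL h h'
    · have he' : X ++ a :: Y' = c :: l ∧ c' = c := by
        have : (X ++ a :: Y') ++ [c'] = (c :: l) ++ [c] := by simpa using he
        have := List.append_inj' this (by simp)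
        exact ⟨this.1, by simpa using this.2⟩
      obtain ⟨he1, rfl⟩ := he'
      have h1 : NullW G ω m (X ++ a :: Y') x := by rw [he1]; exact h
      have hne : X ++ Y' ≠ [] := by
        rintro h0
        obtain ⟨rfl, rfl⟩ := List.append_eq_nil_iff.1 h0
        simp only [List.nil_append, List.cons.injEq] at he1
        exact hl he1.2.symm
      have h2 := w_loop hB h1 h' hne hL
      refine Or.inr ?_
      cases X with
      | nil =>
        simp only [List.nil_append, List.cons.injEq] at he1
        obtain ⟨rfl, rfl⟩ := he1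
        refine ⟨a, L ++ a :: Y', by simp, by simp, by simpa using h2⟩
      | cons x0 X =>
        simp only [List.cons_append, List.cons.injEq] at he1
        obtain ⟨rfl, rfl⟩ := he1
        refine ⟨x0, X ++ a :: (L ++ a :: Y'), by simp, by simp, by simpa using h2⟩

/-- The two alternatives, for the linear list `W`. -/
def Goal (G : SimpleGraph V) (ω : V → V → V → A) (m : ℕ) (W : List V) (x : A) : Prop :=
  (∃ (q p z : V) (m' : ℕ) (x' : A), W.head? = some q ∧ W.getLast? = some p ∧ m' < m ∧
      G.Adj p q ∧ G.Adj p z ∧ G.Adj z q ∧ x = x' + ω p q z ∧ NullW G ω m' (z :: W) x') ∨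
  (∃ (P Q : List V) (m₁ m₂ : ℕ) (x₁ x₂ : A), W = P ++ Q ∧ NullRW G ω m₁ P x₁ ∧
      NullRW G ω m₂ Q x₂ ∧ m₁ + m₂ ≤ m ∧ x = x₁ + x₂)

theorem Goal.succ {m : ℕ} {W : List V} {x : A} (h : Goal G ω m W x) :
    Goal G ω (m + 1) W x := by
  rcases h with ⟨q, p, z, m', x', h1, h2, h3, h4, h5, h6, h7, h8⟩ |
    ⟨P, Q, m1, m2, x1, x2, h1, h2, h3, h4, h5⟩
  · exact Or.inl ⟨q, p, z, m', x', h1, h2, by omega, h4, h5, h6, h7, h8⟩
  · exact Or.inr ⟨P, Q, m1, m2, x1, x2, h1, h2, h3, by omega, h5⟩

theorem rot_cases {w W : List V} (h : w ~r W) : ∃ X Y, w = Y ++ X ∧ W = X ++ Y := by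
  obtain ⟨n, hn⟩ := h
  by_cases hw : w = []
  · subst hw
    refine ⟨[], [], rfl, ?_⟩
    simpa using hn.symm
  · have hlen : 0 < w.length := List.length_pos_iff.2 hw
    refine ⟨w.drop (n % w.length), w.take (n % w.length), (List.take_append_drop _ _).symm, ?_⟩
    rw [← hn, ← List.rotate_mod, List.rotate_eq_drop_append_take (Nat.mod_lt _ hlen).le]

theorem nullR_triAt (hB : WBas G ω) {m : ℕ} {a b z : V} {X Y : List V} {x : A}
    (h : NullRW G ω m (X ++ a :: z :: b :: Y) x)
    (hab : G.Adj a b) (haz : G.Adj a z) (hzb : G.Adj z b) :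
    NullRW G ω (m + 1) (X ++ a :: b :: Y) (x + ω a b z) := by
  rcases h with ⟨⟨c, hc⟩, _⟩ | ⟨c, l, hl, he, h⟩
  · have := congrArg List.length hc
    simp only [List.length_append, List.length_cons, List.length_nil] at this
    omega
  · rcases List.eq_nil_or_concat Y with rfl | ⟨Y', c', rfl⟩
    · -- `b` is the last vertex
      have h1 : (X ++ [a, z]) ++ [b] = (c :: l) ++ [c] := by simpa using he
      obtain ⟨h2, h3⟩ := List.append_inj' h1 (by simp)
      have hbc : b = c := by simpa using h3
      subst hbc
      cases X with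
      | nil =>
        simp only [List.nil_append, List.cons.injEq] at h2
        exact absurd h2.1 hab.ne
      | cons x0 X =>
        simp only [List.cons_append, List.cons.injEq] at h2
        obtain ⟨rfl, rfl⟩ := h2
        refine Or.inr ⟨x0, X ++ [a], by simp, by simp, ?_⟩
        have h4 : NullW G ω m ((x0 :: X) ++ [a, z]) x := by simpa using h
        have h5 : NullW G ω m ([] ++ a :: z :: x0 :: X) x := by simpa using w_swap hB h4
        have h6 : NullW G ω (m + 1) ([a] ++ x0 :: X) (x + ω a x0 z) := by
          simpa using w_triAt hB h5 hab haz hzb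
        simpa using w_swap hB h6
    · have h1 : (X ++ a :: z :: b :: Y') ++ [c'] = (c :: l) ++ [c] := by simpa using he
      obtain ⟨h2, h3⟩ := List.append_inj' h1 (by simp)
      have hbc : c' = c := by simpa using h3
      subst hbc
      have h4 : NullW G ω m (X ++ a :: z :: b :: Y') x := by rw [h2]; exact h
      have h5 := w_triAt hB h4 hab haz hzb
      cases X with
      | nil =>
        simp only [List.nil_append, List.cons.injEq] at h2
        obtain ⟨rfl, rfl⟩ := h2
        exact Or.inr ⟨a, b :: Y', by simp, by simp, by simpa using h5⟩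
      | cons x0 X =>
        simp only [List.cons_append, List.cons.injEq] at h2
        obtain ⟨rfl, rfl⟩ := h2
        exact Or.inr ⟨x0, X ++ a :: b :: Y', by simp, by simp, by simpa using h5⟩

/-- A null rooted path with at least two vertices. -/
theorem nullR_two {m : ℕ} {x y : V} {L : List V} {t : A}
    (h : NullRW G ω m (x :: y :: L) t) :
    ∃ L', L = L' ++ [x] ∧ NullW G ω m (x :: y :: L') t := by
  rcases h with ⟨⟨c, hc⟩, _⟩ | ⟨c, l, hl, he, h⟩
  · simp at hc
  · simp only [List.cons.injEq] at he
    obtain ⟨rfl, he⟩ := he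
    cases l with
    | nil => exact absurd rfl hl
    | cons y' l =>
      simp only [List.cons_append, List.cons.injEq] at he
      obtain ⟨rfl, rfl⟩ := he
      exact ⟨l, rfl, h⟩

theorem nullR_head_last {m : ℕ} {P : List V} {t : A} (h : NullRW G ω m P t) :
    ∃ a, P.head? = some a ∧ P.getLast? = some a := by
  rcases h with ⟨⟨a, rfl⟩, _⟩ | ⟨a, l, hl, rfl, h⟩
  · exact ⟨a, by simp, by simp⟩
  · refine ⟨a, by simp, ?_⟩
    rw [← List.cons_append, List.getLast?_append]
    simp

theorem goal_tri (hω : Alt3 ω) (hB : WBas G ω) {m : ℕ} {a b z : V} {X Y : List V} {x : A}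
    (hab : G.Adj a b) (haz : G.Adj a z)
    (hzb : G.Adj z b) (h : Goal G ω m (X ++ a :: z :: b :: Y) x) :
    Goal G ω (m + 1) (X ++ a :: b :: Y) (x + ω a b z) := by
  rcases h with ⟨q, p, z', m', x', h1, h2, h3, h4, h5, h6, h7, h8⟩ |
    ⟨P, Q, m1, m2, x1, x2, h1, h2, h3, h4, h5⟩
  · refine Or.inl ⟨q, p, z', m' + 1, x' + ω a b z, ?_, ?_, by omega, h4, h5, h6, ?_, ?_⟩
    · cases X with
      | nil => simpa using h1
      | cons x X => simpa using h1
    · have e1 : X ++ a :: z :: b :: Y = (X ++ [a, z]) ++ (b :: Y) := by simp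
      have e2 : X ++ a :: b :: Y = (X ++ [a]) ++ (b :: Y) := by simp
      rw [e1, List.getLast?_append_of_ne_nil _ (by simp)] at h2
      rw [e2, List.getLast?_append_of_ne_nil _ (by simp)]
      exact h2
    · rw [h7]; abel
    · have h9 : NullW G ω m' ((z' :: X) ++ a :: z :: b :: Y) x' := by simpa using h8
      simpa using w_triAt hB h9 hab haz hzb
  · rcases List.append_eq_append_iff.1 h1 with ⟨a', rfl, he⟩ | ⟨c', rfl, rfl⟩
    · rcases a' with _ | ⟨y1, _ | ⟨y2, _ | ⟨y3, a''⟩⟩⟩
      · -- the cut is before `a`
        simp only [List.nil_append] at he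
        subst he
        refine Or.inr ⟨X, a :: b :: Y, m1, m2 + 1, x1, x2 + ω a b z, by simp,
          by simpa using h2, ?_, by omega, by rw [h5]; abel⟩
        have := nullR_triAt (X := []) hB h3 hab haz hzb
        simpa using this
      · -- the cut is between `a` and `z`
        simp only [List.cons_append, List.nil_append, List.cons.injEq] at he
        obtain ⟨rfl, rfl⟩ := he
        obtain ⟨Y', rfl, hY'⟩ := nullR_two h3
        obtain ⟨c, hc1, hc2⟩ := nullR_head_last h2
        have hca : a = c := by
          rw [List.getLast?_append_of_ne_nil _ (by simp)] at hc2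
          simpa using hc2
        subst hca
        refine Or.inl ⟨a, z, b, m1 + m2, x1 + x2, ?_, ?_, by omega, haz.symm, hzb, hab.symm,
          ?_, ?_⟩
        · have e2 : X ++ a :: b :: (Y' ++ [z]) = (X ++ [a]) ++ (b :: (Y' ++ [z])) := by simp
          rw [e2, List.head?_append, hc1]
          rfl
        · have e2 : X ++ a :: b :: (Y' ++ [z]) = (X ++ a :: b :: Y') ++ [z] := by simp
          rw [e2, List.getLast?_append_of_ne_nil _ (by simp)]
          simp
        · rw [h5, hω.s12 z a b, hω.s23 a z b, neg_neg]
        · have h8 : NullW G ω m1 (b :: (X ++ [a])) x1 := by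
            cases hP : X ++ [a] with
            | nil => simp at hP
            | cons x0 P' =>
              rw [hP] at h2 hc1
              simp only [List.head?_cons, Option.some.injEq] at hc1
              subst hc1
              exact w_attach hB h2 hab.symm
          have h9 : NullW G ω m2 (b :: (Y' ++ [z])) x2 := by simpa using hY'.rot
          have h10 := NullW.split (by simp) (by simp) h8 h9
          simpa using h10
      · -- the cut is between `z` and `b`
        simp only [List.cons_append, List.nil_append, List.cons.injEq] at he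
        obtain ⟨rfl, rfl, rfl⟩ := he
        obtain ⟨c, hc1, hc2⟩ := nullR_head_last h3
        have hcb : b = c := by simpa using hc1
        subst hcb
        have h8 : ∃ X', X = z :: X' ∧ NullW G ω m1 (X ++ [a]) x1 := by
          rcases h2 with ⟨⟨c, hc⟩, _⟩ | ⟨c, l, hl, he, h⟩
          · have := congrArg List.length hc
            simp at this
          · have h11 : (X ++ [a]) ++ [z] = (c :: l) ++ [c] := by simpa using he
            obtain ⟨h12, h13⟩ := List.append_inj' h11 (by simp)
            have hbc : z = c := by simpa using h13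
            subst hbc
            cases X with
            | nil =>
              simp only [List.nil_append, List.cons.injEq] at h12
              exact absurd h12.2.symm hl
            | cons x0 X =>
              have h14 := h12
              simp only [List.cons_append, List.cons.injEq] at h12
              obtain ⟨rfl, rfl⟩ := h12
              exact ⟨X, rfl, by simpa using h⟩
        obtain ⟨X', rfl, h8⟩ := h8
        refine Or.inl ⟨z, b, a, m1 + m2, x1 + x2, by simp, ?_, by omega, hzb.symm, hab.symm,
          haz, ?_, ?_⟩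
        · have e2 : (z :: X') ++ a :: b :: Y = ((z :: X') ++ [a]) ++ (b :: Y) := by simp
          rw [e2, List.getLast?_append_of_ne_nil _ (by simp)]
          exact hc2
        · rw [h5, hω.s23 b z a, hω.s12 b a z, neg_neg]
        · have h9 : NullW G ω m2 (a :: b :: Y) x2 := w_attach hB h3 hab
          have h10 : NullW G ω m1 (a :: (z :: X')) x1 := by simpa using w_swap hB h8
          have h11 := NullW.split (by simp) (by simp) h10 h9
          simpa using h11
      · -- the cut is after `b`
        simp only [List.cons_append, List.cons.injEq] at he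
        obtain ⟨rfl, rfl, rfl, rfl⟩ := he
        refine Or.inr ⟨X ++ a :: b :: a'', Q, m1 + 1, m2, x1 + ω a b z, x2, by simp, ?_, h3,
          by omega, by rw [h5]; abel⟩
        exact nullR_triAt hB h2 hab haz hzb
    · refine Or.inr ⟨P, c' ++ a :: b :: Y, m1, m2 + 1, x1, x2 + ω a b z, by simp, h2, ?_,
        by omega, by rw [h5]; abel⟩
      exact nullR_triAt hB h3 hab haz hzb

theorem goal_loop (hB : WBas G ω) {m n : ℕ} {a : V} {U R L : List V} {x y : A}
    (h : Goal G ω m (U ++ a :: R) x)
    (h' : NullW G ω n (a :: L) y) (hL : L ≠ []) :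
    Goal G ω (m + n) (U ++ a :: (L ++ a :: R)) (x + y) := by
  rcases h with ⟨q, p, z, m', x', h1, h2, h3, h4, h5, h6, h7, h8⟩ |
    ⟨P, Q, m1, m2, x1, x2, h1, h2, h3, h4, h5⟩
  · refine Or.inl ⟨q, p, z, m' + n, x' + y, ?_, ?_, by omega, h4, h5, h6, ?_, ?_⟩
    · cases U with
      | nil => simpa using h1
      | cons x X => simpa using h1
    · have e2 : U ++ a :: (L ++ a :: R) = (U ++ a :: L) ++ (a :: R) := by simp
      rw [List.getLast?_append_of_ne_nil _ (by simp)] at h2
      rw [e2, List.getLast?_append_of_ne_nil _ (by simp)]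
      exact h2
    · rw [h7]; abel
    · have h9 : NullW G ω m' ((z :: U) ++ a :: R) x' := by simpa using h8
      simpa using w_loop hB h9 h' (by simp) hL
  · rcases List.append_eq_append_iff.1 h1 with ⟨a', rfl, he⟩ | ⟨c', rfl, rfl⟩
    · rcases a' with _ | ⟨y1, a''⟩
      · simp only [List.nil_append] at he
        subst he
        refine Or.inr ⟨U, a :: (L ++ a :: R), m1, m2 + n, x1, x2 + y, by simp,
          by simpa using h2, ?_, by omega, by rw [h5]; abel⟩
        have := rw_loop (X := []) hB h3 h' hL
        simpa using this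
      · simp only [List.cons_append, List.cons.injEq] at he
        obtain ⟨rfl, rfl⟩ := he
        refine Or.inr ⟨U ++ a :: (L ++ a :: a''), Q, m1 + n, m2, x1 + y, x2, by simp,
          rw_loop hB h2 h' hL, h3, by omega, by rw [h5]; abel⟩
    · refine Or.inr ⟨P, c' ++ a :: (L ++ a :: R), m1, m2 + n, x1, x2 + y, by simp, h2,
        rw_loop hB h3 h' hL, by omega, by rw [h5]; abel⟩

theorem main (hω : Alt3 ω) (hB : WBas G ω) {m : ℕ} {w : List V} {x : A}
    (h : NullW G ω m w x) :
    ∀ W, w ~r W → 2 ≤ W.length → Goal G ω m W x := by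
  induction h with
  | pt a =>
    intro W hW hl
    have := hW.perm.length_eq
    simp at this
    omega
  | @dig a b hab =>
    intro W hW hl
    have hlen := hW.perm.length_eq
    match W, hlen with
    | [x, y], _ =>
      exact Or.inr ⟨[x], [y], 0, 0, 0, 0, rfl, Or.inl ⟨⟨x, rfl⟩, rfl⟩, Or.inl ⟨⟨y, rfl⟩, rfl⟩,
        le_rfl, by simp⟩
  | @rot m a l t _ ih =>
    intro W hW hl
    refine ih W (List.IsRotated.trans ⟨1, by simp⟩ hW) hl
  | @tri m a b z l t hab haz hzb h ih =>
    intro W hW hl
    obtain ⟨X, Y, h1, rfl⟩ := rot_cases hW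
    rcases Y with _ | ⟨y1, _ | ⟨y2, Y⟩⟩
    · simp only [List.nil_append] at h1
      subst h1
      have h2 : Goal G ω m ([] ++ a :: z :: b :: l) t := ih _ (List.IsRotated.refl _) (by simp)
      simpa using goal_tri hω hB hab haz hzb h2
    · simp only [List.cons_append, List.nil_append, List.cons.injEq] at h1
      obtain ⟨rfl, rfl⟩ := h1
      refine Or.inl ⟨b, a, z, m, t, by simp, ?_, by omega, hab, haz, hzb, rfl, ?_⟩
      · rw [List.getLast?_append_of_ne_nil _ (by simp)]
        simp
      · simpa using h.rot
    · simp only [List.cons_append, List.cons.injEq] at h1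
      obtain ⟨rfl, rfl, rfl⟩ := h1
      have h2 : Goal G ω m (X ++ a :: z :: b :: Y) t := by
        refine ih _ ?_ (by simp; omega)
        have := List.isRotated_append (l := a :: z :: b :: Y) (l' := X)
        simpa using this
      simpa using goal_tri hω hB hab haz hzb h2
  | @split m n a l l' t t' hl hl' h h' ih ih' =>
    intro W hW hlW
    obtain ⟨X, Y, h1, rfl⟩ := rot_cases hW
    have hlen : 1 ≤ l.length := List.length_pos_iff.2 hl
    have hlen' : 1 ≤ l'.length := List.length_pos_iff.2 hl'
    rcases Y with _ | ⟨y1, Y⟩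
    · simp only [List.nil_append] at h1
      subst h1
      have h2 : Goal G ω n ([] ++ a :: l') t' :=
        ih' _ (List.IsRotated.refl _) (by simp; omega)
      have h3 := goal_loop hB h2 h hl
      rw [Nat.add_comm, add_comm t t']
      simpa using h3
    · simp only [List.cons_append, List.cons.injEq] at h1
      obtain ⟨rfl, h1⟩ := h1
      rcases List.append_eq_append_iff.1 h1 with ⟨bs, rfl, he⟩ | ⟨as, rfl, rfl⟩
      · rcases bs with _ | ⟨b1, bs⟩
        · simp only [List.nil_append] at he
          subst he
          have h2 : Goal G ω m ([] ++ a :: l) t :=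
            ih _ (List.IsRotated.refl _) (by simp; omega)
          have h3 := goal_loop hB h2 h' hl'
          simpa using h3
        · simp only [List.cons_append, List.cons.injEq] at he
          obtain ⟨rfl, rfl⟩ := he
          have h2 : Goal G ω n (X ++ a :: bs) t' := by
            refine ih' _ ?_ (by simp only [List.length_append, List.length_cons] at hlen' ⊢; omega)
            have := List.isRotated_append (l := a :: bs) (l' := X)
            simpa using this
          have h3 := goal_loop hB h2 h hl
          rw [Nat.add_comm, add_comm t t']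
          simpa using h3
      · have h2 : Goal G ω m (as ++ a :: Y) t := by
          refine ih _ ?_ (by simp only [List.length_append, List.length_cons] at hlen ⊢; omega)
          have := List.isRotated_append (l := a :: Y) (l' := as)
          simpa using this
        have h3 := goal_loop hB h2 h' hl'
        simpa using h3
  | weak _ ih =>
    intro W hW hl
    exact (ih W hW hl).succ

end WPEEL

/-- WPEEL. -/
theorem tWPEEL (h : T_WBAS.{u}) : T_WPEEL.{u} := by
  intro V A _ G ω hω m w x hw q p t hW
  rcases WPEEL.main hω (h G ω hω) hw _ hW (by simp) with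
    ⟨q', p', z, m', x', h1, h2, h3, h4, h5, h6, h7, h8⟩ |
    ⟨P, Q, m1, m2, x1, x2, h1, h2, h3, h4, h5⟩
  · have hq : q = q' := by simpa using h1
    have hp : p = p' := by
      rw [← List.cons_append, List.getLast?_append_of_ne_nil _ (by simp)] at h2
      simpa using h2
    subst hq hp
    exact Or.inl ⟨z, m', x', h3, h4, h5, h6, h7, h8⟩
  · exact Or.inr ⟨P, Q, m1, m2, x1, x2, h1, h2, h3, h4, h5⟩

end Pool.Agent.MSO
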