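import Pool.Agent.MSO.WDefs

/-!
# WZIP: removing a spur (with values)
-/

set_option autoImplicit false

namespace Pool.Agent.MSO

open List Pool.Agent.MSF

universe u

namespace WZIP

variable {V : Type u} {G : SimpleGraph V} {A : Type} [AddCommGroup A] {ω : V → V → V → A}

theorem ne_nil {m : ℕ} {P : List V} {x : A} (h : NullRW G ω m P x) : P ≠ [] := by
  rcases h with ⟨⟨a, rfl⟩, -⟩ | ⟨a, l, -, rfl, -⟩ <;> simp

theorem not_two {m : ℕ} {a b : V} {x : A} (h : NullRW G ω m [a, b] x) : False := by
  rcases h with ⟨⟨y, hy⟩, -⟩ | ⟨y, l, hl, hy, -⟩
  · simp at hy
  · have := congrArg List.length hy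
    simp at this
    exact hl this

/-- A rooted path of length one has value zero. -/
theorem one {m : ℕ} {a : V} {x : A} (h : NullRW G ω m [a] x) : x = 0 := by
  rcases h with ⟨-, h⟩ | ⟨y, l, hl, hy, -⟩
  · exact h
  · have := congrArg List.length hy
    simp at this

/-- Move the first part of a cyclic list to the end. -/
theorem swap (hB : WBas G ω) {m : ℕ} {X Y : List V} {x : A}
    (h : NullW G ω m (X ++ Y) x) : NullW G ω m (Y ++ X) x :=
  hB.rotated _ _ _ _ h List.isRotated_append

/-- Attach an edge to a rooted closed path. -/
theorem attach (hB : WBas G ω) {m : ℕ} {p y : V} {P : List V} {x : A}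
    (h : NullRW G ω m (p :: P) x) (hy : G.Adj y p) : NullW G ω m (y :: p :: P) x := by
  rcases h with ⟨⟨a, ha⟩, rfl⟩ | ⟨a, l, hl, he, h⟩
  · obtain ⟨rfl, rfl⟩ := List.cons_eq_cons.1 ha
    exact hB.mono _ _ _ _ (NullW.dig hy) (Nat.zero_le _)
  · obtain ⟨rfl, rfl⟩ := List.cons_eq_cons.1 he
    have h1 : NullW G ω m ([] ++ p :: l) x := h
    have h2 := hB.spur _ _ _ _ _ _ h1 hy.symm (by simpa using hl)
    have h3 : NullW G ω m ([p] ++ (y :: p :: l)) x := by simpa using h2
    simpa using swap hB h3

/-- The main claim for a cyclic list starting with the spur. -/
theorem main (hB : WBas G ω) (hω : Alt3 ω) (hP : T_WPEEL.{u}) {N : ℕ} (hN : SphN G ω N)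
    (a b : V) : ∀ (m : ℕ), m ≤ N → ∀ (n : ℕ) (l : List V) (x : A), l.length = n → l ≠ [] →
    NullW G ω m (a :: b :: a :: l) x → NullW G ω m (a :: l) x := by
  intro m
  induction m using Nat.strong_induction_on with
  | _ m ihm =>
    intro hmN n
    induction n using Nat.strong_induction_on with
    | _ n ihn =>
      intro l x hln hl h
      have ih : ∀ (m' : ℕ) (r : List V) (x' : A), m' ≤ m → r.length < n → r ≠ [] →
          NullW G ω m' (a :: b :: a :: r) x' → NullW G ω m' (a :: r) x' := by
        intro m' r x' hm' hr hr0 hN'
        rcases Nat.lt_or_ge m' m with hlt | hge
        · exact ihm m' hlt (by omega) _ r x' rfl hr0 hN'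
        · have he : m' = m := le_antisymm hm' hge
          subst he
          exact ihn _ hr r x' rfl hr0 hN'
      cases l with
      | nil => exact absurd rfl hl
      | cons c l' =>
        have hcw := (hB.forget _ _ _ h).cw
        have hac : G.Adj a c := by
          have := hcw
          simp only [CW, List.cons_append, List.isChain_cons_cons] at this
          exact this.2.2.1
        have hrot : (a :: b :: a :: c :: l') ~r (c :: ((l' ++ [a, b]) ++ [a])) := by
          have := List.isRotated_append (l := [a, b, a]) (l' := c :: l')
          simpa using this
        rcases hP G ω hω m _ x h c a (l' ++ [a, b]) hrot with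
          ⟨z, m', x', hm', -, haz, hzc, hx, hN'⟩ | ⟨P, Q, m₁, m₂, x₁, x₂, hPQ, h1, h2, hmm, hx⟩
        · have h3 : NullW G ω m' ([a, b, a] ++ (z :: c :: l')) x' := by
            apply swap hB
            simpa using hN'
          have h4 : NullW G ω m' (a :: z :: c :: l') x' :=
            ihm m' hm' (by omega) _ (z :: c :: l') x' rfl (by simp) (by simpa using h3)
          rw [hx]
          exact hB.mono _ _ _ _ (NullW.tri hac haz hzc h4) hm'
        · have hPQ' : (c :: l') ++ [a, b, a] = P ++ Q := by
            rw [← hPQ]; simp
          -- the case `P = c :: l'`
          have hcase : P = c :: l' → Q = [a, b, a] → NullW G ω m (a :: c :: l') x := by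
            intro hPe hQe
            rw [hPe] at h1
            rw [hQe] at h2
            have hx2 : x₂ = 0 := by
              rcases h2 with ⟨⟨y, hy⟩, -⟩ | ⟨y, L, hL, hy, hNL⟩
              · simp at hy
              · have hy' : a :: ([b] ++ [a]) = y :: (L ++ [y]) := by
                  rw [← hy]; simp
                simp only [List.cons.injEq] at hy'
                obtain ⟨rfl, hy'⟩ := hy'
                have h5 := List.append_inj' hy' (by simp)
                obtain ⟨rfl, -⟩ := h5
                exact hN m₂ a b x₂ (by omega) hNL
            rw [hx, hx2, add_zero]
            exact hB.mono _ _ _ _ (attach hB h1 hac) (by omega)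
          rcases List.append_eq_append_iff.1 hPQ' with ⟨a', ha1, ha2⟩ | ⟨c', hc1, hc2⟩
          · -- `P = (c :: l') ++ a'`, `[a, b, a] = a' ++ Q`
            cases a' with
            | nil => exact hcase (by simpa using ha1) (by simpa using ha2.symm)
            | cons y a' =>
              simp only [List.cons_append, List.cons.injEq] at ha2
              obtain ⟨rfl, ha2⟩ := ha2
              cases a' with
              | nil =>
                simp only [List.nil_append] at ha2
                rw [← ha2] at h2
                exact (not_two h2).elim
              | cons y a' =>
                simp only [List.cons_append, List.cons.injEq] at ha2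
                obtain ⟨rfl, ha2⟩ := ha2
                cases a' with
                | nil =>
                  -- `P = c :: l' ++ [a, b]`, `Q = [a]`
                  simp only [List.nil_append] at ha2
                  rw [← ha2] at h2
                  have hx2 : x₂ = 0 := one h2
                  rcases h1 with ⟨⟨y, hy⟩, -⟩ | ⟨y, L, hL, hy, hNL⟩
                  · rw [ha1] at hy
                    simp at hy
                  · rw [ha1] at hy
                    have hy' : c :: ((l' ++ [a]) ++ [b]) = y :: (L ++ [y]) := by
                      rw [← hy]; simp
                    simp only [List.cons.injEq] at hy'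
                    obtain ⟨rfl, hy'⟩ := hy'
                    have h5 := List.append_inj' hy' (by simp)
                    obtain ⟨rfl, h6⟩ := h5
                    have h7 : NullW G ω m₁ ((c :: l') ++ [a]) x₁ := by simpa using hNL
                    have h8 : NullW G ω m₁ (a :: c :: l') x₁ := by simpa using swap hB h7
                    rw [hx, hx2, add_zero]
                    exact hB.mono _ _ _ _ h8 (by omega)
                | cons w a' =>
                  simp only [List.cons_append, List.cons.injEq] at ha2
                  obtain ⟨-, ha2⟩ := ha2
                  have hQ : Q = [] := by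
                    have := (List.append_eq_nil_iff.1 ha2.symm).2
                    exact this
                  exact absurd hQ (ne_nil h2)
          · -- `c :: l' = P ++ c'`, `Q = c' ++ [a, b, a]`
            cases c' with
            | nil => exact hcase (by simpa using hc1.symm) (by simpa using hc2)
            | cons y r =>
              have hxa : y = a ∧ NullW G ω m₂ (a :: (r ++ [a, b])) x₂ := by
                rcases h2 with ⟨⟨w, hy⟩, -⟩ | ⟨w, L, hL, hy, hNL⟩
                · rw [hc2] at hy
                  simp at hy
                · rw [hc2] at hy
                  have hy' : y :: ((r ++ [a, b]) ++ [a]) = w :: (L ++ [w]) := by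
                    rw [← hy]; simp
                  simp only [List.cons.injEq] at hy'
                  obtain ⟨rfl, hy'⟩ := hy'
                  have h5 := List.append_inj' hy' (by simp)
                  obtain ⟨rfl, h6⟩ := h5
                  simp only [List.cons.injEq, and_true] at h6
                  subst h6
                  exact ⟨rfl, hNL⟩
              obtain ⟨hx0, hNa⟩ := hxa
              rw [hx0] at hc1
              have hr : r ≠ [] := by
                rintro rfl
                have h3 : CW G (([a, b, a] ++ P) ++ [a]) := by
                  have := hcw
                  rw [hc1] at this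
                  simpa using this
                have h4 : CW G ([a] ++ ([a, b, a] ++ P)) := h3.rotated List.isRotated_append
                have h5 : CW G ([] ++ a :: a :: (b :: a :: P)) := by simpa using h4
                exact h5.not_adj_self
              have h3 : NullW G ω m₂ (a :: b :: a :: r) x₂ := by
                have h9 : NullW G ω m₂ ((a :: r) ++ [a, b]) x₂ := by simpa using hNa
                simpa using swap hB h9
              have hlen : r.length < n := by
                have := congrArg List.length hc1
                simp only [List.length_cons, List.length_append] at this hln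
                omega
              have h4 : NullW G ω m₂ (a :: r) x₂ := ih m₂ r x₂ (by omega) hlen hr h3
              have hP0 : P ≠ [] := ne_nil h1
              have h5 : NullW G ω m₁ (a :: P) x₁ := by
                cases P with
                | nil => exact absurd rfl hP0
                | cons p P' =>
                  simp only [List.cons_append, List.cons.injEq] at hc1
                  obtain ⟨rfl, -⟩ := hc1
                  exact attach hB h1 hac
              have h6 : NullW G ω (m₁ + m₂) (a :: (P ++ a :: r)) (x₁ + x₂) :=
                NullW.split hP0 hr h5 h4
              rw [hc1, hx]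
              exact hB.mono _ _ _ _ h6 hmm

end WZIP

theorem tWZIP (h0 : T_WBAS.{u}) (h : T_WPEEL.{u}) : T_WZIP.{u} := by
  intro V A _ G ω hω N hN m a b X Y x hm hne hx
  have hB := h0 G ω hω
  have h1 : NullW G ω m (a :: b :: a :: (Y ++ X)) x := by
    have := WZIP.swap hB hx
    simpa using this
  have h2 : NullW G ω m (a :: (Y ++ X)) x := WZIP.main hB hω h hN a b m hm _ (Y ++ X) x rfl hne h1
  have h3 : NullW G ω m ((a :: Y) ++ X) x := by simpa using h2
  exact WZIP.swap hB h3

end Pool.Agent.MSO
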