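import Pool.Agent.MSN.ASM
import Pool.Agent.MSO.WBAS
import Pool.Agent.MSO.WPEEL
import Pool.Agent.MSO.WZIP
import Pool.Agent.MSO.WGLUE
import Pool.Agent.MSO.WGEN
import Pool.Agent.MSO.WFILL
import Pool.Agent.MSO.WEXP
import Pool.Agent.MSO.WFOR
import Pool.Agent.MSO.WA3
import Pool.Agent.MSO.WRED
import Pool.Agent.MSO.WANGZ
import Pool.Agent.MSO.WDEX
import Pool.Agent.MSO.WPD
import Pool.Agent.MSO.WPAIR
import Pool.Agent.MSO.WH
import Pool.Agent.MSO.WUNIQ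
import Pool.Agent.MSO.SGR
import Pool.Agent.MSO.EXA
import Pool.Agent.MSO.EXB
import Pool.Agent.MSO.EXC
import Pool.Agent.MSO.EXD
import Pool.Agent.MSO.EUL
import Pool.Agent.MSO.KEYP
import Pool.Agent.MSO.FIL
import Pool.Agent.MSO.TWO
import Pool.Agent.MSO.RNK
import Pool.Agent.MSO.CONE
import Pool.Agent.MSO.SUBD
import Pool.Agent.MSO.FRE
import Pool.Agent.MSO.SMI
import Pool.Agent.MSO.SMP
import Pool.Agent.MSO.LEF
import Pool.Agent.MSO.CQR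
import Pool.Agent.MSO.OLF
import Pool.Agent.MSO.OLA
import Pool.Agent.MSO.OMAIN

/-!
# Assembly (MP_d6353f_al (a), MSO)
-/

namespace Pool.Agent.MSO.Asm

open Pool.Agent.MSF Pool.Agent.MSO

universe u

theorem uniq : T_UNIQ.{u} := by
  have wpeel : T_WPEEL.{u} := tWPEEL tWBAS
  have wzip : T_WZIP.{u} := tWZIP tWBAS wpeel
  have wglue : T_WGLUE.{u} := tWGLUE tWBAS wzip
  have wgen : T_WGEN.{u} := tWGEN tWBAS wzip
  have wfill : T_WFILL.{u} := tWFILL tWBAS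
  have wexp : T_WEXP.{u} := tWEXP tWBAS tDISC1
  have wa3 : T_WA3.{u} := tWA3 tWBAS wpeel
  have wred : T_WRED.{u} := tWRED tWBAS
  have wangz : T_WANGZ.{u} := tWANGZ tWBAS tDISC1 tWFOR wexp wfill wglue
  have wdex : T_WDEX.{u} := tWDEX tWBAS wa3 wred wangz tDISC1 tWFOR
  have wpd : T_WPD.{u} := tWPD tWBAS wglue wfill wexp tWFOR wdex tDISC1 tDISC2
  have wpair : T_WPAIR.{u} := tWPAIR tWBAS wpeel wgen wpd
  have wh : T_WH.{u} := tWH tWBAS wzip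
  have h : T_WBAS.{u} → T_WPAIR.{u} → T_WH.{u} → T_UNIQ.{u} := tWUNIQ
  intro V
  exact h tWBAS wpair wh

theorem keyp : T_KEYP.{u} :=
  tKEYP uniq tSGR tEXA tEXB tEXC tEXD (tEUL Pool.Agent.MSN.Grp.tSGN) Pool.Agent.MSN.Asm.key
    Pool.Agent.MSN.Alg.tCHI tLARGE tTRIG

theorem olf : T_OLF.{u} :=
  tOLF (tSUBD Pool.Agent.MSN.Grp.tSGN tFIL tTWO (tCON Pool.Agent.MSN.Grp.tSGN))
    (tSMP (tSMI Pool.Agent.MSN.Grp.tSGN tFRE tSGR))
    (tCQR (tLEF Pool.Agent.MSN.Grp.tSGN tRNK Pool.Agent.MSN.Grp.tTRC))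

theorem ola : T_OLA.{u} := tOLA keyp olf Pool.Agent.MSN.Fin.finite_reduction

theorem omain : T_OMAIN.{u} := tOMAIN ola Pool.Agent.MSN.Asm.sol

end Pool.Agent.MSO.Asm
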