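import Pool.Agent.MSO.Targets
import Pool.Agent.MSN.GCQF

/-!
# CQR: a group with a normal subgroup of `q`-power index which acts through powers of one element
-/

namespace Pool.Agent.MSO.CQR

open Pool.Agent.MSF
open Pool.Agent.MSN.Grp (eps)

universe u

/-- Closed under all subsets. -/
theorem dn_subset {V : Type u} [DecidableEq V] {K : Finset V → Prop} (hD : Dn K) {s : Finset V} :
    K s → ∀ t : Finset V, t ⊆ s → K t := by
  induction s using Finset.strongInduction with
  | H s ih =>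
    intro hs t ht
    by_cases h : t = s
    · rw [h]; exact hs
    · obtain ⟨x, hx, hxt⟩ := Finset.exists_of_ssubset (ht.ssubset_of_ne h)
      refine ih (s.erase x) (Finset.erase_ssubset hx) (hD s x hs) t ?_
      intro y hy
      refine Finset.mem_erase.2 ⟨?_, ht hy⟩
      rintro rfl
      exact hxt hy

/-- Without inversions the sign is `1`. -/
theorem eps_fix {V : Type u} [LinearOrder V] {f : V → V} {s : Finset V} (hf : ∀ x ∈ s, f x = x) :
    eps f s = 1 := by
  unfold eps
  have h : ((s ×ˢ s).filter fun p => p.1 < p.2 ∧ f p.2 < f p.1) = ∅ := by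
    apply Finset.filter_eq_empty_iff.2
    rintro ⟨a, b⟩ hab ⟨h1, h2⟩
    rw [Finset.mem_product] at hab
    simp only [hf a hab.1, hf b hab.2] at h1 h2
    exact lt_asymm h1 h2
  rw [h]
  simp

theorem img_fix {V : Type u} [DecidableEq V] {f : V → V} {s : Finset V} (hf : ∀ x ∈ s, f x = x) :
    s.image f = s := by
  ext y
  rw [Finset.mem_image]
  constructor
  · rintro ⟨x, hx, rfl⟩
    rw [hf x hx]; exact hx
  · intro hy
    exact ⟨y, hy, hf y hy⟩

/-- The nonempty simplices with elements fixed by `g`, of sign `a`. -/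
abbrev Y {V : Type u} (K : Finset V → Prop) {Q : Type} [Group Q] [MulAction Q V] (g : Q)
    (a : ℤ) : Type u :=
  {s : Finset V // s.Nonempty ∧ K s ∧ (∀ x ∈ s, g • x = x) ∧ (-1 : ℤ) ^ s.card = a}

abbrev act {V : Type u} [DecidableEq V] (K : Finset V → Prop) {Q : Type} [Group Q] [MulAction Q V]
    (g : Q) (a : ℤ) (hI : Inva K Q)
    (h3 : ∀ (h : Q) (s : Finset V), K s → (∀ x ∈ s, g • x = x) → ∀ x ∈ s, g • (h • x) = h • x) :
    MulAction Q (Y (V := V) K g a) where
  smul h s := ⟨s.1.image (fun x => h • x), s.2.1.image _, hI h s.1 s.2.2.1, by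
    intro y hy
    obtain ⟨x, hx, rfl⟩ := Finset.mem_image.1 hy
    exact h3 h s.1 s.2.2.1 s.2.2.2.1 x hx, by
    rw [Finset.card_image_of_injective _ (MulAction.injective h)]
    exact s.2.2.2.2⟩
  one_smul s := by
    apply Subtype.ext
    change s.1.image (fun x => (1 : Q) • x) = s.1
    exact img_fix fun x _ => one_smul Q x
  mul_smul x y s := by
    apply Subtype.ext
    change s.1.image (fun v => (x * y) • v) = (s.1.image (fun v => y • v)).image (fun v => x • v)
    rw [Finset.image_image]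
    apply Finset.image_congr
    intro v _
    exact mul_smul x y v

end Pool.Agent.MSO.CQR

namespace Pool.Agent.MSO

open Pool.Agent.MSF
open Pool.Agent.MSN.Grp (eps)

universe u

theorem tCQR0 (h1 : T_LEF.{u}) : ∀ {V : Type u} [Fintype V] [LinearOrder V] (p : ℕ)
    [Fact p.Prime] (K : Finset V → Prop), Dn K → K ∅ → SEx (ZMod p) K →
    ∀ (Q : Type) [Group Q] [Finite Q] [MulAction Q V],
    Inva K Q → Reg K Q → ∀ C : Subgroup Q, C.Normal → ∀ g : Q, g ∈ C →
    (∀ c ∈ C, ∃ n : ℤ, ∀ s, K s → ∀ x ∈ s, c • x = (g ^ n) • x) →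
    ∀ (q : ℕ) [Fact q.Prime], (∀ x : Q, ∃ n : ℕ, x ^ (q ^ n) ∈ C) →
    ∃ x : V, K {x} ∧ ∀ h : Q, h • x = x := by
  classical
  intro V _ _ p _ K hD h0 hE Q _ _ _ hI hR C hN g hg hC q _ hq
  by_contra hno
  push Not at hno
  have hz : ∀ (s : Finset V), (∀ x ∈ s, g • x = x) → ∀ (n : ℤ), ∀ x ∈ s, (g ^ n) • x = x := by
    intro s hs n x hx
    have h5 : g ∈ MulAction.stabilizer Q x := hs x hx
    exact zpow_mem h5 n
  have hCf : ∀ c ∈ C, ∀ s, K s → (∀ x ∈ s, g • x = x) → ∀ x ∈ s, c • x = x := by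
    intro c hc s hs hf x hx
    obtain ⟨n, hn⟩ := hC c hc
    rw [hn s hs x hx]
    exact hz s hf n x hx
  have h3 : ∀ (h : Q) (s : Finset V), K s → (∀ x ∈ s, g • x = x) → ∀ x ∈ s,
      g • (h • x) = h • x := by
    intro h s hs hf x hx
    have h5 : h⁻¹ * g * h ∈ C := by
      have h6 := hN.conj_mem g hg h⁻¹
      rwa [inv_inv] at h6
    have h6 := hCf _ h5 s hs hf x hx
    calc g • (h • x) = h • ((h⁻¹ * g * h) • x) := by
          rw [← mul_smul, ← mul_smul]; congr 1; group
      _ = h • x := by rw [h6]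
  have h5 : ∀ a : ℤ, q ∣ Nat.card (CQR.Y (V := V) K g a) := by
    intro a
    let _ : MulAction Q (CQR.Y (V := V) K g a) := CQR.act K g a hI h3
    refine Pool.Agent.MSN.Grp.GCQF.dvd_card C ?_ q hq ?_
    · intro c hc s
      apply Subtype.ext
      change s.1.image (fun x => c • x) = s.1
      exact CQR.img_fix (hCf c hc s.1 s.2.2.1 s.2.2.2.1)
    · intro s
      by_contra hcon
      push Not at hcon
      obtain ⟨x, hx⟩ := s.2.1
      obtain ⟨h, hh⟩ := hno x (CQR.dn_subset hD s.2.2.1 {x} (Finset.singleton_subset_iff.2 hx))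
      have h6 : s.1.image (fun x => h • x) = s.1 := congrArg Subtype.val (hcon h)
      exact hh (hR h s.1 s.2.2.1 h6 x hx)
  have h6 := h1 p K hD hE (MulAction.toPerm g) (by
    intro s
    constructor
    · exact fun hs => hI g s hs
    · intro hs
      have h7 := hI g⁻¹ _ hs
      have h8 : (s.image (MulAction.toPerm g)).image (fun x => g⁻¹ • x) = s := by
        rw [Finset.image_image]
        exact CQR.img_fix fun x _ => inv_smul_smul g x
      rwa [h8] at h7)
  have hmem : ∀ s : Finset V, K s → (s.image (MulAction.toPerm g) = s ↔ ∀ x ∈ s, g • x = x) := by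
    intro s hs
    constructor
    · exact fun h => hR g s hs h
    · exact fun h => CQR.img_fix h
  have h7 : ∑ s ∈ Finset.univ.filter (fun s : Finset V => K s ∧ ∀ x ∈ s, g • x = x),
      (-1 : ℤ) ^ s.card = 0 := by
    rw [← h6]
    refine Finset.sum_congr ?_ ?_
    · ext s
      simp only [Finset.mem_filter, Finset.mem_univ, true_and]
      constructor
      · rintro ⟨h8, h9⟩
        exact ⟨h8, (hmem s h8).2 h9⟩
      · rintro ⟨h8, h9⟩
        exact ⟨h8, (hmem s h8).1 h9⟩
    · intro s hs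
      rw [Finset.mem_filter] at hs
      have h8 : ∀ x ∈ s, (MulAction.toPerm g : Equiv.Perm V) x = x :=
        (hmem s hs.2.1).1 (by simpa using hs.2.2)
      rw [CQR.eps_fix h8, mul_one]
  have h8 : (∅ : Finset V) ∈
      Finset.univ.filter (fun s : Finset V => K s ∧ ∀ x ∈ s, g • x = x) := by
    simp [h0]
  rw [← Finset.add_sum_erase _ _ h8, Finset.card_empty, pow_zero,
    ← Finset.sum_filter_add_sum_filter_not _ (fun s : Finset V => (-1 : ℤ) ^ s.card = 1)] at h7
  have h9 : ∀ (a : ℤ) (T : Finset (Finset V)), (∀ s, s ∈ T ↔ s.Nonempty ∧ K s ∧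
      (∀ x ∈ s, g • x = x) ∧ (-1 : ℤ) ^ s.card = a) → (q : ℤ) ∣ ∑ s ∈ T, (-1 : ℤ) ^ s.card := by
    intro a T hT
    have h10 : ∑ s ∈ T, (-1 : ℤ) ^ s.card = ∑ _s ∈ T, a :=
      Finset.sum_congr rfl fun s hs => ((hT s).1 hs).2.2.2
    rw [h10, Finset.sum_const, nsmul_eq_mul]
    refine Dvd.dvd.mul_right ?_ _
    have h11 : T.card = Nat.card (CQR.Y (V := V) K g a) := (Nat.subtype_card T hT).symm
    rw [h11]
    exact Int.natCast_dvd_natCast.2 (h5 a)
  have h12 := h9 1 _ (by
      intro s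
      simp only [Finset.mem_filter, Finset.mem_erase, Finset.mem_univ, true_and,
        Finset.nonempty_iff_ne_empty]
      tauto :
    ∀ s, s ∈ (((Finset.univ.filter (fun s : Finset V => K s ∧
      ∀ x ∈ s, g • x = x)).erase ∅).filter (fun s => (-1 : ℤ) ^ s.card = 1)) ↔ _)
  have h13 := h9 (-1) _ (by
      intro s
      have h14 : (¬ (-1 : ℤ) ^ s.card = 1) ↔ (-1 : ℤ) ^ s.card = -1 := by
        rcases neg_one_pow_eq_or ℤ s.card with h | h <;> rw [h] <;> norm_num
      simp only [Finset.mem_filter, Finset.mem_erase, Finset.mem_univ, true_and,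
        Finset.nonempty_iff_ne_empty, h14]
      tauto :
    ∀ s, s ∈ (((Finset.univ.filter (fun s : Finset V => K s ∧
      ∀ x ∈ s, g • x = x)).erase ∅).filter (fun s => ¬ (-1 : ℤ) ^ s.card = 1)) ↔ _)
  have h15 := dvd_add h12 h13
  have h16 : (q : ℤ) ∣ 1 := by
    have h17 : (q : ℤ) ∣ 0 := dvd_zero _
    rw [← h7] at h17
    exact (dvd_add_left h15).1 h17
  have h18 : q ∣ 1 := by exact_mod_cast h16
  exact (Fact.out : q.Prime).one_lt.ne' (Nat.dvd_one.1 h18)

theorem tCQR (h1 : T_LEF.{u}) : T_CQR.{u} := tCQR0 h1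

end Pool.Agent.MSO
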