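import Pool.Agent.MSO.WDefs
import Pool.Agent.MSN.Grp

/-!
# Targets: exactness over fields, Smith theory, Oliver groups (MP_d6353f_al (a), MSO)

Every `T_X` is one job: prove `theorem tX …` in `Pool/Agent/MSO/X`, namespace `Pool.Agent.MSO`.
Families of finite sets `K : Finset V → Prop` are abstract simplicial complexes (with the empty
simplex); `sg`, `eps` (signs) are in Pool/Agent/MSN/Grp, with the rules `T_SGN` (proved in
Pool/Agent/MSN/GSGN as `Pool.Agent.MSN.Grp.tSGN`).
-/

namespace Pool.Agent.MSO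

open List Pool.Agent.MSF
open Pool.Agent.MSN (NonObtuse)
open Pool.Agent.MSN.Grp (sg eps T_SGN)
open Pool.Agent.MSN.Alg (nC)
open Pool.Agent.MSN.Fin (IsP)

universe u

/-! ### Signed exactness -/

/-- Exactness of the augmented signed cochain complex of the family `K`, with values in `F`
(all degrees at once). -/
def SEx {V : Type u} [LinearOrder V] (F : Type) [CommRing F] (K : Finset V → Prop) : Prop :=
  ∀ c : Finset V → F,
    (∀ t : Finset V, K t → ∑ x ∈ t, ((sg t x : ℤ) : F) * c (t.erase x) = 0) →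
    ∃ e : Finset V → F, ∀ s : Finset V, K s → c s = ∑ x ∈ s, ((sg s x : ℤ) : F) * e (s.erase x)

/-- Exactness at the cochains on the sets with `j` elements. -/
def SExj {V : Type u} [LinearOrder V] (F : Type) [CommRing F] (K : Finset V → Prop) (j : ℕ) : Prop :=
  ∀ c : Finset V → F,
    (∀ t : Finset V, K t → t.card = j + 1 → ∑ x ∈ t, ((sg t x : ℤ) : F) * c (t.erase x) = 0) →
    ∃ e : Finset V → F, ∀ s : Finset V, K s → s.card = j →
      c s = ∑ x ∈ s, ((sg s x : ℤ) : F) * e (s.erase x)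

/-- Closed under subsets. -/
def Dn {V : Type u} [DecidableEq V] (K : Finset V → Prop) : Prop :=
  ∀ (s : Finset V) (x : V), K s → K (s.erase x)

/-- The cliques of `G`. -/
def Cl {V : Type u} (G : SimpleGraph V) : Finset V → Prop := fun s => G.IsClique (s : Set V)

/-- SGR: graded and ungraded exactness. `→`: `e s = e_(s.card + 1) s` where `e_j` is chosen for `j`
(`(s.erase x).card + 1 = s.card`). `←`: put `c' s = c s` if `s.card = j`, else zero; then `c'` is closed
(for `t.card ≠ j + 1` all terms are zero). -/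
def T_SGR : Prop := ∀ {V : Type u} [LinearOrder V] (F : Type) [CommRing F] (K : Finset V → Prop),
  (∀ j, SExj F K j) ↔ SEx F K

/-- EXA: `j = 0, 1` for a connected graph (as Alg.T_EXA). `j = 0`: a vertex `v` exists, `t = {v}` gives
`c ∅ = 0`. `j = 1`: for an edge `a b`, `t = {a, b}` gives `c {a} = c {b}` (signs `1`, `-1`); connected;
`e = fun _ => c {o}`. -/
def T_EXA : Prop := ∀ {V : Type u} [LinearOrder V] (F : Type) [CommRing F] (G : SimpleGraph V),
  G.Connected → SExj F (Cl G) 0 ∧ SExj F (Cl G) 1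

/-- Alternating functions of two variables on edges. -/
def Ex2 {V : Type u} (F : Type) [CommRing F] (G : SimpleGraph V) : Prop :=
  ∀ c : V → V → F, (∀ a b, c a b = - c b a) →
    (∀ a b d, G.Adj a b → G.Adj b d → G.Adj a d → c a b + c b d = c a d) →
    ∃ f : V → F, ∀ a b, G.Adj a b → c a b = f b - f a

/-- Alternating functions of three variables on triangles. -/
def Ex3 {V : Type u} (F : Type) [CommRing F] (G : SimpleGraph V) : Prop :=
  ∀ ω : V → V → V → F, Alt3 ω → Cocy G ω →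
    ∃ η : V → V → F, (∀ a b, η a b = - η b a) ∧
      ∀ a b d, G.Adj a b → G.Adj b d → G.Adj a d → ω a b d = η a b + η b d - η a d

/-- EXB: as Alg.T_EXB (MSN/AEXB), with signs. `val P` = sum of `c x y` over consecutive
elements of `P`. -/
def T_EXB : Prop := ∀ {V : Type u} (F : Type) [CommRing F] (G : SimpleGraph V), SimplyConn G →
  (∀ a b, ∃ P, IsP G a b P) → Ex2 F G

/-- EXC: as Alg.T_EXC (MSN/AEXC), with signs. `Ex2 → j = 2`: `c' a b = c {a, b}` if `a < b`,
`- c {a, b}` if `b < a`, `0` if `a = b`; `e {a} = f a` (put `e s = ∑ x ∈ s, f x`). `Ex3 → j = 3`: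
`ω a b d = ± c {a, b, d}`, with the sign of the permutation that sorts `a, b, d` (zero if two are
equal); `e {a, b} = η a b` for `a < b`. -/
def T_EXC : Prop := ∀ {V : Type u} [LinearOrder V] (F : Type) [CommRing F] (G : SimpleGraph V),
  (Ex2 F G → SExj F (Cl G) 2) ∧ (Ex3 F G → SExj F (Cl G) 3)

/-- EXD: as Alg.T_EXD (MSN/AEXD; calculus of `HW` in MSN/ADefs), with signs. `η x y` = value
of a homotopy from `g x ++ [y]` to `g y`, zero if `x`, `y` are not adjacent; triangle `a b d`:
`ω a b d + η a b + η b d = η a d`; take `- η`. -/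
def T_EXD : Prop := ∀ {V : Type u} (F : Type) [CommRing F] (G : SimpleGraph V), SimplyConn G →
  (∀ a b, ∃ P, IsP G a b P) →
  (∀ ω : V → V → V → F, Alt3 ω → Cocy G ω → ∀ (P : List V) (t : F), P ≠ [] →
    List.IsChain G.Adj P → HW G ω P P t → t = 0) → Ex3 F G

/-- EUL: exactness in the top degree by counting. Let `A j` = functions on the cliques with `j`
elements, `d j : A j → A (j+1)` the signed coboundary; `d ∘ d = 0` by T_SGN (1). Exactness for `j ≤ 3`
gives `rank (d 0) = nC 0 = 1`, `rank (d j) = nC j - rank (d (j-1))`, so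
`rank (d 3) = nC 3 - nC 2 + nC 1 - nC 0`, which is `nC 4` by the hypothesis on the alternating sum
(`nC j = 0` for `j ≥ 5`). So `d 3` is onto. `j ≥ 5`: no cliques. -/
def T_EUL : Prop := ∀ {V : Type u} [Fintype V] [LinearOrder V] (F : Type) [Field F]
  (G : SimpleGraph V), G.CliqueFree 5 →
  (∀ n : ℕ, Fintype.card V < n → ∑ j ∈ Finset.range n, (-1 : ℤ) ^ j * (nC G j : ℤ) = 0) →
  (∀ j, j ≤ 3 → SExj F (Cl G) j) → ∀ j, SExj F (Cl G) j

/-- KEYP (uses MSO.T_UNIQ, T_SGR, T_EXA, T_EXB, T_EXC, T_EXD, T_EUL, MSN.Grp.T_KEY,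
MSN.Alg.T_CHI, MSF.T_LARGE, MSF.T_TRIG): as the proof of `key` in MSN/GKEY / MSN/AALGA. -/
def T_KEYP : Prop := ∀ {V : Type u} [Fintype V] [LinearOrder V] (G : SimpleGraph V)
  (len : V → V → ℝ), MetricallySystolic G len → NonObtuse G len → G.CliqueFree 5 →
  ∀ (p : ℕ) [Fact p.Prime], SEx (ZMod p) (Cl G)

/-! ### Linear algebra of exact matrices -/

/-- Exactness of a matrix. -/
def MEx {I : Type u} [Fintype I] {F : Type} [Field F] (D : Matrix I I F) : Prop :=
  ∀ c : I → F, D.mulVec c = 0 → ∃ e, D.mulVec e = c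

/-- FIL: filtration. Claim for all `k`: there is `e` such that `c - D e` is zero at all indices of
level `< k`. Step: let `c' = c - D e`; for `l i = k`, `0 = (D c') i = (D₀ c'_k) i`, where `c'_k` is the
part of `c'` of level `k`; so `D₀ c'_k = 0`, `c'_k = D₀ f`, `f` may be restricted to level `k`; replace `e`
by `e + f`. -/
def T_FIL : Prop := ∀ {I : Type u} [Fintype I] [DecidableEq I] (F : Type) [Field F]
  (D : Matrix I I F) (l : I → ℕ), D * D = 0 → (∀ i j, D i j ≠ 0 → l j ≤ l i) →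
  MEx (Matrix.of fun i j => if l i = l j then D i j else 0) → MEx D

/-- TWO: two out of three. Let `c` be closed on `{i // ¬ U i}`, `c'` its extension by zero. `D c'` is
supported in `U` and closed, so `D c' = D f` with `f` supported in `U`; `c' - f` is closed, so
`c' - f = D g`; restrict to the complement of `U`. -/
def T_TWO : Prop := ∀ {I : Type u} [Fintype I] [DecidableEq I] (F : Type) [Field F]
  (D : Matrix I I F) (U : I → Prop) [DecidablePred U], D * D = 0 →
  (∀ i j, D i j ≠ 0 → U j → U i) → MEx D →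
  MEx (Matrix.of fun (i j : {i // U i}) => D i.1 j.1) →
  MEx (Matrix.of fun (i j : {i // ¬ U i}) => D i.1 j.1)

/-- RNK: exactness over `ZMod p` implies exactness over `ℚ` (MSN/GRNK is the case `p = 2`). -/
def T_RNK : Prop := ∀ {ι : Type u} [Fintype ι] [DecidableEq ι] (p : ℕ) [Fact p.Prime]
  (M : Matrix ι ι ℤ), M * M = 0 →
  (∀ c : ι → ZMod p, (M.map (Int.cast : ℤ → ZMod p)).mulVec c = 0 →
    ∃ e, (M.map (Int.cast : ℤ → ZMod p)).mulVec e = c) →
  ∀ c : ι → ℚ, (M.map (Int.cast : ℤ → ℚ)).mulVec c = 0 →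
    ∃ e, (M.map (Int.cast : ℤ → ℚ)).mulVec e = c

/-! ### Cones and subdivisions -/

/-- CON (uses T_SGN): a cone is exact. `e s = 0` if `x₀ ∈ s`, else
`e s = sg (insert x₀ s) x₀ * c (insert x₀ s)`. If `x₀ ∈ s` only the term `x = x₀` counts. If `x₀ ∉ s`
use that `c` is closed at `t = insert x₀ s`, and
`sg t x₀ * sg s x + sg t x * sg (t.erase x) x₀ = 0` (T_SGN (1)), `sg ^ 2 = 1`. -/
def T_CON : Prop := ∀ {V : Type u} [LinearOrder V] (F : Type) [CommRing F] (K : Finset V → Prop),
  ∀ x₀ : V, (∀ s, K s → K (insert x₀ s)) → SEx F K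

/-- Nonempty cliques. -/
abbrev NC {V : Type u} (G : SimpleGraph V) : Type u :=
  {s : Finset V // s.Nonempty ∧ G.IsClique (s : Set V)}

/-- The comparability graph of the nonempty cliques (its cliques are the chains). -/
def Cmp {V : Type u} (G : SimpleGraph V) : SimpleGraph (NC G) where
  Adj s t := s ≠ t ∧ (s.1 ⊆ t.1 ∨ t.1 ⊆ s.1)
  symm := ⟨fun _ _ h => ⟨h.1.symm, h.2.symm⟩⟩
  loopless := ⟨fun _ h => h.1 rfl⟩

/-- SUBD (uses T_SGN, T_FIL, T_TWO, T_CON): barycentric subdivision. Let `I` be the set of pairs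
`(σ, t)`, `σ` a finite set of elements of `NC G` which is a chain (clique of `Cmp G`), `t` a clique of
`G` (possibly empty) with `t ⊆ s` for all `s ∈ σ`. `D = D₁ + D₂`: `D₁ (σ,t') (σ,t) = sg t' x` if
`t = t'.erase x`, `x ∈ t'`; `D₂ (σ',t) (σ,t) = (-1)^t.card * sg σ' s` if `σ = σ'.erase s`, `s ∈ σ'`.
`D * D = 0` (T_SGN (1) for both, and `D₁ D₂ = - D₂ D₁`).
(i) `MEx D` by FIL with level `σ.card`: the level preserving part is `D₁`; for fixed `σ ≠ ∅` the sets
`t ⊆` (smallest element of `σ`) form a cone with apex any vertex of this nonempty smallest element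
(CON); for `σ = ∅` it is the hypothesis.
(ii) On `U = {t ≠ ∅}`, `MEx` by FIL with level `t.card`: the level preserving part is `D₂`; for fixed
`t ≠ ∅` the chains in `{s | t ⊆ s}` form a cone with apex `t` (CON).
(iii) TWO: exactness on `{t = ∅}`, which is the claim. -/
def T_SUBD : Prop := ∀ {V : Type u} [Fintype V] [LinearOrder V] (F : Type) [Field F]
  (G : SimpleGraph V) [LinearOrder (NC G)], SEx F (Cl G) → SEx F (Cl (Cmp G))

/-! ### Smith theory -/

/-- FRE: free modules over the group ring of the cyclic group of order `p`. `P ^ p = 1`; `E` is a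
projection (onto the functions supported on a set of representatives) such that
`E P^m E = 0` for `0 < m < p` and every `c` is `∑ k < p, P^k E P^(p-k) c`. Over `ZMod p`,
`(P - 1)^(p-1) = ∑ k < p, P^k`. (1) If `P c = c`, then `c = ∑ P^k E c = (P-1)^(p-1) (E c)`. (2) If
`(P-1)^(p-1) c = 0`, let `c_k = E P^(p-k) c`, so `c = ∑ P^k c_k`; then `∑_m P^m (∑_k c_k) = 0`, apply `E`:
`∑_k c_k = 0`; so `c = ∑_k (P^k - 1) c_k = (P - 1) ∑_k (1 + P + … + P^(k-1)) c_k`. -/
def T_FRE : Prop := ∀ {A : Type u} [AddCommGroup A] (p : ℕ) [Fact p.Prime] [Module (ZMod p) A]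
  (P E : A →ₗ[ZMod p] A), P ^ p = 1 → (∀ c, E (E c) = E c) →
  (∀ m, 0 < m → m < p → ∀ c, E ((P ^ m) (E c)) = 0) →
  (∀ c, c = ∑ k ∈ Finset.range p, (P ^ k) (E ((P ^ (p - k)) c))) →
  (∀ c, P c = c → ∃ b, ((P - 1) ^ (p - 1)) b = c) ∧
  (∀ c, ((P - 1) ^ (p - 1)) c = 0 → ∃ b, (P - 1) b = c)

/-- SMI (uses T_SGN, T_FRE, T_SGR): Smith theory for one permutation `g` whose `p`-th power is
trivial on the vertices of `K`. Let `B` = functions on `{s // K s}` (or functions on finite sets,
considered only on `K`), `D` the signed coboundary, `(P c) s = eps g s * c (s.image g)`; `P` commutes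
with `D` (T_SGN (2)), `P ^ p = 1` (T_SGN (3); `eps (g ^ p) s = 1` as `g ^ p` fixes the elements of `s`).
`K' s` iff `K s` and `g` fixes the elements of `s`; `A` = the functions which vanish on `K'`. By
regularity and `p` prime, `g` acts freely on `K \ K'` (`K s`, `s.image (g^k) = s` with `0 < k < p` implies
`s.image g = s`, hence `K' s`); with a set of representatives FRE applies to `A`:
`ker τ = im τ^(p-1)`, `ker τ^(p-1) = im τ` on `A`, `τ = P - 1`. For `ρ ∈ {τ, τ^(p-1)}` let `ρ'` be the other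
one (`p = 2`: `ρ = ρ' = τ`); `c ↦ (ρ c, c|K')` maps `B` onto `ρ A × (functions on K')` with kernel `ρ' A`
(a function supported in `K'` is fixed by `P`). Downward induction on `n` (`n > card V`: nothing to
prove): every closed element of `ρ A` or of the functions on `K'`, in degree `n` (supported on sets
with `n` elements), is `D` of an element of degree `n - 1` of the same space: let `(x, b)` be closed in
degree `n`, lift it to `c ∈ B`; `D c ∈ ρ' A` is closed of degree `n + 1`, so `D c = D a` with `a ∈ ρ' A`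
(induction); `c - a` is closed, `= D e` (hypothesis); `(x, b) = D (ρ e, e|K')`. -/
def T_SMI : Prop := ∀ {V : Type u} [Fintype V] [LinearOrder V] (p : ℕ) [Fact p.Prime]
  (K : Finset V → Prop), Dn K → SEx (ZMod p) K → ∀ g : Equiv.Perm V,
  (∀ s, K s → K (s.image g)) → (∀ s, K s → ∀ x ∈ s, (g ^ p : Equiv.Perm V) x = x) →
  (∀ s, K s → s.image g = s → ∀ x ∈ s, g x = x) →
  SEx (ZMod p) (fun s => K s ∧ ∀ x ∈ s, g x = x)

/-- The action is regular on `K`: invariant simplices are fixed pointwise. -/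
def Reg {V : Type u} [DecidableEq V] (K : Finset V → Prop) (Q : Type) [Group Q] [MulAction Q V] :
    Prop :=
  ∀ (h : Q) (s : Finset V), K s → s.image (fun x => h • x) = s → ∀ x ∈ s, h • x = x

/-- `Q` maps `K` to itself. -/
def Inva {V : Type u} [DecidableEq V] (K : Finset V → Prop) (Q : Type) [Group Q] [MulAction Q V] :
    Prop := ∀ (h : Q) (s : Finset V), K s → K (s.image (fun x => h • x))

/-- SMP (uses T_SMI): Smith theory for `p`-groups. By induction on the order of the subgroup `R ≤ P`: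
the family `K_R = {s ∈ K, R fixes the elements of s}` is exact. `R = ⊥`: the hypothesis. Otherwise `R`
has a normal subgroup `R'` of index `p` (e.g. from `Sylow.exists_subgroup_card_pow_prime` and
`IsPGroup`, or `Subgroup.normal_of_index_eq_minFac_card`, or a maximal subgroup of a nilpotent
group); `a ∈ R`, `a ∉ R'`; `a ^ p ∈ R'`; `a` maps `K_R'` to itself; `R` is generated by `R'` and `a`. SMI for
`K_R'` and the permutation given by `a`. -/
def T_SMP : Prop := ∀ {V : Type u} [Fintype V] [LinearOrder V] (p : ℕ) [Fact p.Prime]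
  (K : Finset V → Prop), Dn K → SEx (ZMod p) K → ∀ (Q : Type) [Group Q] [Finite Q] [MulAction Q V],
  Inva K Q → Reg K Q → ∀ P : Subgroup Q, IsPGroup p P →
  SEx (ZMod p) (fun s => K s ∧ ∀ h ∈ P, ∀ x ∈ s, h • x = x)

open Classical in
/-- LEF (uses T_SGN, T_RNK, MSN.Grp.T_TRC): as MSN.Grp.T_LEF (MSN/GLEF), for families, with
exactness over `ZMod p`. -/
def T_LEF : Prop := ∀ {V : Type u} [Fintype V] [LinearOrder V] (p : ℕ) [Fact p.Prime]
  (K : Finset V → Prop), Dn K → SEx (ZMod p) K → ∀ g : Equiv.Perm V,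
  (∀ s, K s ↔ K (s.image g)) →
  ∑ s ∈ Finset.univ.filter (fun s : Finset V => K s ∧ s.image g = s),
    (-1 : ℤ) ^ s.card * eps g s = 0

/-- CQR (uses T_LEF): let `C` be a normal subgroup of `Q` of `q`-power index which acts on the
vertices of `K` through the powers of `g ∈ C`. Then `Q` fixes a vertex of `K`. By regularity
`s.image g = s` means that `g` (so `C`) fixes the elements of `s`, and `eps g s = 1`. LEF:
`∑_{s ∈ K_C} (-1)^card = 0`, where `K_C` = the `s ∈ K` with elements fixed by `C`. `Q` acts on the finite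
set `K_C`, `C` trivially, so the `q`-group `Q ⧸ C` acts on it (or: orbits of `Q` on it have `q`-power
size); fixed elements of the action are the `s` fixed pointwise by `Q` (regularity). If there are no
such `s ≠ ∅`, then modulo `q` the sum is the term of `s = ∅`, which is `1`. (Apply
`IsPGroup.card_modEq_card_fixedPoints` to the sets of `s ∈ K_C` with `j` elements.) A fixed
`s ≠ ∅` has an element `x`; `K {x}` by Dn. -/
def T_CQR : Prop := ∀ {V : Type u} [Fintype V] [LinearOrder V] (p : ℕ) [Fact p.Prime]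
  (K : Finset V → Prop), Dn K → K ∅ → SEx (ZMod p) K → ∀ (Q : Type) [Group Q] [Finite Q] [MulAction Q V],
  Inva K Q → Reg K Q → ∀ C : Subgroup Q, C.Normal → ∀ g : Q, g ∈ C →
  (∀ c ∈ C, ∃ n : ℤ, ∀ s, K s → ∀ x ∈ s, c • x = (g ^ n) • x) →
  ∀ (q : ℕ) [Fact q.Prime], (∀ x : Q, ∃ n : ℕ, x ^ (q ^ n) ∈ C) →
  ∃ x : V, K {x} ∧ ∀ h : Q, h • x = x

/-! ### Oliver groups -/

/-- OLF (uses T_SUBD, T_SMP, T_CQR): finite complexes. `Q` acts on `NC G` by images
(`h • s = s.image (h • ·)`), and on the family `Cl (Cmp G)` of chains; the action is regular: `h • s`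
has as many elements as `s`, so `s ⊆ h • s` or `h • s ⊆ s` implies equality, and the elements of a
chain have different cardinalities. Choose linear orders on `V` (given) and on `NC G`. SUBD, SMP for
`P`: the family `K' = {chains with elements fixed by P}` is exact; it is Q-invariant, as `P` is normal.
An element of `C` is `x * g ^ n` with `x ∈ P`; on a `P`-fixed element `s` it acts as `g ^ n`, as
`g ^ n • s` is `P`-fixed. CQR: `Q` fixes an element of `NC G`. -/
def T_OLF : Prop := ∀ {V : Type u} [Fintype V] [LinearOrder V] (G : SimpleGraph V) (p : ℕ)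
  [Fact p.Prime], SEx (ZMod p) (Cl G) → ∀ (Q : Type) [Group Q] [Finite Q] [MulAction Q V],
  (∀ (h : Q) (a b : V), G.Adj (h • a) (h • b) ↔ G.Adj a b) →
  ∀ (P C : Subgroup Q), P.Normal → C.Normal → IsPGroup p P → ∀ g : Q,
  C = P ⊔ Subgroup.zpowers g →
  ∀ (q : ℕ) [Fact q.Prime], (∀ x : Q, ∃ n : ℕ, x ^ (q ^ n) ∈ C) →
  ∃ s : Finset V, s.Nonempty ∧ G.IsClique s ∧ ∀ (h : Q), ∀ x ∈ s, h • x ∈ s

/-- OLA (uses T_KEYP, T_OLF, MSN.Fin.T_FIN): arbitrary `X`; `K` acts trivially, `P / K` is a `p`-group.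
As MSN.Grp.T_CQA (MSN/GCQA): pass to `Q ⧸ K` and to the finite complex of T_FIN; choose a linear
order on it. -/
def T_OLA : Prop := ∀ {V : Type u} (G : SimpleGraph V) (len : V → V → ℝ),
  MetricallySystolic G len → NonObtuse G len → G.CliqueFree 5 →
  ∀ (Q : Type) [Group Q] [Finite Q] [MulAction Q V],
  (∀ (h : Q) (a b : V), G.Adj (h • a) (h • b) ↔ G.Adj a b) →
  ∀ (K P C : Subgroup Q), K.Normal → P.Normal → C.Normal → K ≤ P →
  (∀ k ∈ K, ∀ v : V, k • v = v) → ∀ (p : ℕ) [Fact p.Prime],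
  (∀ x ∈ P, ∃ n : ℕ, x ^ (p ^ n) ∈ K) → ∀ g : Q, C = P ⊔ Subgroup.zpowers g →
  ∀ (q : ℕ) [Fact q.Prime], (∀ x : Q, ∃ n : ℕ, x ^ (q ^ n) ∈ C) →
  ∃ s : Finset V, s.Nonempty ∧ G.IsClique s ∧ ∀ (h : Q), ∀ x ∈ s, h • x ∈ s

/-- OMAIN (uses T_OLA, MSN.Grp.T_SOL): as MSN.Grp.T_MAIN (MSN/GMAIN). -/
def T_OMAIN : Prop := ∀ {V : Type u} (G : SimpleGraph V) (len : V → V → ℝ),
  MetricallySystolic G len → NonObtuse G len → G.CliqueFree 5 →
  ∀ (H : Type) [Group H] [Finite H] [MulAction H V],
  (∀ (h : H) (a b : V), G.Adj (h • a) (h • b) ↔ G.Adj a b) →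
  (∀ (h : H) (a b : V), G.Adj a b → len (h • a) (h • b) = len a b) →
  ∀ (K P C : Subgroup H), K.Normal → P.Normal → C.Normal → K ≤ P → Group.IsSolvable K →
  (∀ k ∈ K, ∀ v : V, ¬ G.Adj v (k • v)) → ∀ (p : ℕ) [Fact p.Prime],
  (∀ x ∈ P, ∃ n : ℕ, x ^ (p ^ n) ∈ K) → ∀ g : H, C = P ⊔ Subgroup.zpowers g →
  ∀ (q : ℕ) [Fact q.Prime], (∀ x : H, ∃ n : ℕ, x ^ (q ^ n) ∈ C) →
  ∃ s : Finset V, s.Nonempty ∧ G.IsClique s ∧ ∀ (h : H), ∀ x ∈ s, h • x ∈ s

end Pool.Agent.MSO
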