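import Pool.Agent.MSF.Targets
import Pool.Agent.MSF.Basic

/-!
# Values in an abelian group (MP_d6353f_al (a), MSO): module W

Port of the files MSN/W* (values in `ZMod 2`, symmetric `ω`) to values in an arbitrary
abelian group `A`, with alternating `ω` (`Alt3`). Every `T_WX` here is the target `T_WX` of
MSN/WDefs with the signs put in; the proof is the proof of `Pool/Agent/MSN/WX` with the
signs carried along. Orientation: `NullW G ω m w t`: the cyclic list `w` is the positively oriented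
boundary of a disc diagram with at most `m` triangles whose integral of `ω` is `t`. All names are as in
MSN, in the namespace `Pool.Agent.MSO`.
-/

namespace Pool.Agent.MSO

open List Pool.Agent.MSF

universe u

section defs

variable {V : Type u} {A : Type} [AddCommGroup A]

/-- Homotopies of edge paths with values: the value is the (signed) sum of `ω`. -/
inductive HW (G : SimpleGraph V) (ω : V → V → V → A) : List V → List V → A → Prop
  | refl (P : List V) : HW G ω P P 0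
  | spur (p q : List V) (a b : V) (h : G.Adj a b) :
      HW G ω (p ++ a :: q) (p ++ a :: b :: a :: q) 0
  | tri (p q : List V) (a b c : V) (hab : G.Adj a b) (hbc : G.Adj b c) (hac : G.Adj a c) :
      HW G ω (p ++ a :: c :: q) (p ++ a :: b :: c :: q) (ω a b c)
  | symm {P Q : List V} {t : A} (h : HW G ω P Q t) : HW G ω Q P (-t)
  | trans {P Q R : List V} {s t : A} (h : HW G ω P Q s) (h' : HW G ω Q R t) :
      HW G ω P R (s + t)

/-- Alternating functions of three vertices. -/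
structure Alt3 (ω : V → V → V → A) : Prop where
  s12 : ∀ a b c, ω a b c = - ω b a c
  s23 : ∀ a b c, ω a b c = - ω a c b

/-- `ω` is a cocycle. -/
def Cocy (G : SimpleGraph V) (ω : V → V → V → A) : Prop :=
  ∀ a b c d, G.Adj a b → G.Adj a c → G.Adj a d → G.Adj b c → G.Adj b d → G.Adj c d →
    ω b c d - ω a c d + ω a b d - ω a b c = 0

/-- `NullW G ω m w t`: the cyclic list `w` bounds a disc diagram with at most `m` triangles and
integral of `ω` equal to `t`. -/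
inductive NullW (G : SimpleGraph V) (ω : V → V → V → A) : ℕ → List V → A → Prop
  | pt (a : V) : NullW G ω 0 [a] 0
  | dig {a b : V} (h : G.Adj a b) : NullW G ω 0 [a, b] 0
  | rot {m : ℕ} {a : V} {l : List V} {t : A} (h : NullW G ω m (a :: l) t) :
      NullW G ω m (l ++ [a]) t
  | tri {m : ℕ} {a b z : V} {l : List V} {t : A} (hab : G.Adj a b) (haz : G.Adj a z)
      (hzb : G.Adj z b) (h : NullW G ω m (a :: z :: b :: l) t) :
      NullW G ω (m + 1) (a :: b :: l) (t + ω a b z)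
  | split {m n : ℕ} {a : V} {l l' : List V} {t t' : A} (hl : l ≠ []) (hl' : l' ≠ [])
      (h : NullW G ω m (a :: l) t) (h' : NullW G ω n (a :: l') t') :
      NullW G ω (m + n) (a :: (l ++ a :: l')) (t + t')
  | weak {m : ℕ} {w : List V} {t : A} (h : NullW G ω m w t) : NullW G ω (m + 1) w t

/-- Rooted closed paths with a filling. -/
def NullRW (G : SimpleGraph V) (ω : V → V → V → A) (m : ℕ) (P : List V) (t : A) : Prop :=
  ((∃ a, P = [a]) ∧ t = 0) ∨ ∃ a l, l ≠ [] ∧ P = a :: (l ++ [a]) ∧ NullW G ω m (a :: l) t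

/-- Value of a fan at `v`. -/
def fval (ω : V → V → V → A) (v : V) : List V → A
  | [] => 0
  | [_] => 0
  | (a :: b :: l) => ω v a b + fval ω v (b :: l)

/-- Value of the cone over a cyclic list in the link of `v`. -/
def cval (ω : V → V → V → A) (v : V) : List V → A
  | [] => 0
  | (a :: l) => fval ω v (a :: (l ++ [a]))

/-- `k` is the minimal area of fillings of `w` with value `t`. -/
def MinW (G : SimpleGraph V) (ω : V → V → V → A) (k : ℕ) (w : List V) (t : A) : Prop :=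
  NullW G ω k w t ∧ ∀ k', NullW G ω k' w t → k ≤ k'

/-- `w` does not split into two shorter closed walks with total area at most `k` and total
value `t`. -/
def IrrW (G : SimpleGraph V) (ω : V → V → V → A) (k : ℕ) (w : List V) (t : A) : Prop :=
  ∀ (c : V) (s r : List V) (m n : ℕ) (x y : A), w ~r (c :: (s ++ c :: r)) → s ≠ [] → r ≠ [] →
    NullW G ω m (c :: s) x → NullW G ω n (c :: r) y → x + y = t → k < m + n

/-- Spheres of area at most `N` have value `0`. -/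
def SphN (G : SimpleGraph V) (ω : V → V → V → A) (N : ℕ) : Prop :=
  ∀ (m : ℕ) (a b : V) (x : A), m ≤ N → NullW G ω m [a, b] x → x = 0

/-- Disc diagrams (as `MSF.Disc`) with their value. -/
inductive DiscW (G : SimpleGraph V) (ang : V → V → V → ℝ) (ω : V → V → V → A) :
    ℕ → List (Corner V) → A → Prop
  | base {a b z : V} (hab : G.Adj a b) (haz : G.Adj a z) (hzb : G.Adj z b) :
      DiscW G ang ω 1
        [⟨z, a, b, [], ang a z b⟩, ⟨a, b, z, [], ang b a z⟩, ⟨b, z, a, [], ang z b a⟩] (ω a b z)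
  | rot {m : ℕ} {c : Corner V} {D : List (Corner V)} {t : A}
      (h : DiscW G ang ω m (c :: D) t) : DiscW G ang ω m (D ++ [c]) t
  | inner {m : ℕ} {a b z x y : V} {Fa Fz Fb : List V} {ta tz tb : ℝ} {D : List (Corner V)}
      {t : A} (hab : G.Adj a b) (haz : G.Adj a z) (hzb : G.Adj z b)
      (h : DiscW G ang ω m
        (⟨x, a, z, Fa, ta⟩ :: ⟨a, z, b, Fz, tz⟩ :: ⟨z, b, y, Fb, tb⟩ :: D) t)
      (hz : 2 * Real.pi ≤ tz + ang z b a) :
      DiscW G ang ω (m + 1)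
        (⟨x, a, b, Fa ++ [z], ta + ang a z b⟩ :: ⟨a, b, y, z :: Fb, tb + ang b a z⟩ :: D)
        (t + ω a b z)
  | left {n : ℕ} {a b z x y : V} {Fa Fz : List V} {ta tz : ℝ} {D : List (Corner V)} {t : A}
      (hab : G.Adj a b) (haz : G.Adj a z) (hzb : G.Adj z b)
      (h : DiscW G ang ω n (⟨a, z, y, Fz, tz⟩ :: (D ++ [⟨x, a, z, Fa, ta⟩])) t) :
      DiscW G ang ω (n + 1)
        (⟨x, a, b, Fa ++ [z], ta + ang a z b⟩ :: ⟨a, b, z, [], ang b a z⟩ ::
          ⟨b, z, y, a :: Fz, tz + ang z b a⟩ :: D) (t + ω a b z)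
  | right {m : ℕ} {a b z x y : V} {Fz Fb : List V} {tz tb : ℝ} {D : List (Corner V)} {t : A}
      (hab : G.Adj a b) (haz : G.Adj a z) (hzb : G.Adj z b)
      (h : DiscW G ang ω m (⟨x, z, b, Fz, tz⟩ :: ⟨z, b, y, Fb, tb⟩ :: D) t) :
      DiscW G ang ω (m + 1)
        (⟨z, a, b, [], ang a z b⟩ :: ⟨a, b, y, z :: Fb, tb + ang b a z⟩ ::
          (D ++ [⟨x, z, a, Fz ++ [b], tz + ang z b a⟩])) (t + ω a b z)
  | both {m n : ℕ} {a b z x y x' y' : V} {Fa Fz Fb Fz' : List V} {ta tz tb tz' : ℝ}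
      {D D' : List (Corner V)} {t t' : A}
      (hab : G.Adj a b) (haz : G.Adj a z) (hzb : G.Adj z b)
      (h : DiscW G ang ω m (⟨x, z, b, Fz, tz⟩ :: ⟨z, b, y, Fb, tb⟩ :: D) t)
      (h' : DiscW G ang ω n (⟨a, z, y', Fz', tz'⟩ :: (D' ++ [⟨x', a, z, Fa, ta⟩])) t') :
      DiscW G ang ω (m + n + 1)
        (⟨x', a, b, Fa ++ [z], ta + ang a z b⟩ :: ⟨a, b, y, z :: Fb, tb + ang b a z⟩ ::
          (D ++ ⟨x, z, y', Fz ++ b :: a :: Fz', tz + ang z b a + tz'⟩ :: D')) (t + t' + ω a b z)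

end defs

/-- WBAS: basic facts. -/
structure WBas {V : Type u} {A : Type} [AddCommGroup A] (G : SimpleGraph V)
    (ω : V → V → V → A) : Prop where
  forget : ∀ m w t, NullW G ω m w t → Null G m w
  ex : ∀ m w, Null G m w → ∃ t, NullW G ω m w t
  rotated : ∀ m w w' t, NullW G ω m w t → w ~r w' → NullW G ω m w' t
  mono : ∀ m n w t, NullW G ω m w t → m ≤ n → NullW G ω n w t
  reverse : ∀ m w t, NullW G ω m w t → NullW G ω m w.reverse (-t)
  loop : ∀ m n a X Y L x y, NullW G ω m (X ++ a :: Y) x → L ≠ [] → NullW G ω n (a :: L) y →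
    X ++ Y ≠ [] → NullW G ω (m + n) (X ++ a :: (L ++ a :: Y)) (x + y)
  spur : ∀ m a b X Y x, NullW G ω m (X ++ a :: Y) x → G.Adj a b → X ++ Y ≠ [] →
    NullW G ω m (X ++ a :: b :: a :: Y) x
  triAt : ∀ m a b z X Y x, NullW G ω m (X ++ a :: z :: b :: Y) x → G.Adj a b → G.Adj a z →
    G.Adj z b → NullW G ω (m + 1) (X ++ a :: b :: Y) (x + ω a b z)
  push : ∀ m a b z X Y x, NullW G ω m (X ++ a :: b :: Y) x → G.Adj a b → G.Adj a z →
    G.Adj z b → NullW G ω (m + 1) (X ++ a :: z :: b :: Y) (x + ω a z b)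
  triangle : ∀ a b c, G.Adj a b → G.Adj b c → G.Adj a c → NullW G ω 1 [a, b, c] (ω a b c)
  len1 : ∀ m a x, NullW G ω m [a] x → x = 0

/-- WBAS. -/
def T_WBAS : Prop := ∀ {V : Type u} {A : Type} [AddCommGroup A] (G : SimpleGraph V)
  (ω : V → V → V → A), Alt3 ω → WBas G ω

/-- WPEEL: MSN/WPEEL with signs. -/
def T_WPEEL : Prop := ∀ {V : Type u} {A : Type} [AddCommGroup A] (G : SimpleGraph V)
  (ω : V → V → V → A), Alt3 ω →
  ∀ (m : ℕ) (w : List V) (x : A), NullW G ω m w x →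
  ∀ (q p : V) (t : List V), w ~r (q :: (t ++ [p])) →
  (∃ (z : V) (m' : ℕ) (x' : A), m' < m ∧ G.Adj p q ∧ G.Adj p z ∧ G.Adj z q ∧
      x = x' + ω p q z ∧ NullW G ω m' (z :: q :: (t ++ [p])) x') ∨
  (∃ (P Q : List V) (m₁ m₂ : ℕ) (x₁ x₂ : A), q :: (t ++ [p]) = P ++ Q ∧
      NullRW G ω m₁ P x₁ ∧ NullRW G ω m₂ Q x₂ ∧ m₁ + m₂ ≤ m ∧ x = x₁ + x₂)

/-- WZIP (uses T_WPEEL): MSN/WZIP with signs. -/
def T_WZIP : Prop := ∀ {V : Type u} {A : Type} [AddCommGroup A] (G : SimpleGraph V)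
  (ω : V → V → V → A), Alt3 ω →
  ∀ (N : ℕ), SphN G ω N → ∀ (m : ℕ) (a b : V) (X Y : List V) (x : A), m ≤ N →
  Y ++ X ≠ [] → NullW G ω m (X ++ a :: b :: a :: Y) x → NullW G ω m (X ++ a :: Y) x

/-- WGLUE (uses T_WZIP, T_WBAS): MSN/WGLUE with signs. -/
def T_WGLUE : Prop := ∀ {V : Type u} {A : Type} [AddCommGroup A] (G : SimpleGraph V)
  (ω : V → V → V → A), Alt3 ω →
  ∀ (N : ℕ), SphN G ω N → ∀ (m n : ℕ) (s t : V) (P Q R : List V) (x y : A), m + n ≤ N →
  NullW G ω m (s :: (Q ++ t :: R)) x → NullW G ω n (s :: (P ++ t :: Q.reverse)) y →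
  NullW G ω (m + n) (s :: (P ++ t :: R)) (x + y)

/-- WGEN (uses T_WZIP, T_WBAS): remove a null loop (MSN/WGEN); the value is `x - y`. -/
def T_WGEN : Prop := ∀ {V : Type u} {A : Type} [AddCommGroup A] (G : SimpleGraph V)
  (ω : V → V → V → A), Alt3 ω →
  ∀ (N : ℕ), SphN G ω N → ∀ (m n : ℕ) (a : V) (l l' : List V) (x y : A), m + n ≤ N →
  l ≠ [] → l' ≠ [] → NullW G ω m (a :: (l ++ a :: l')) x → NullW G ω n (a :: l') y →
  NullW G ω (m + n) (a :: l) (x - y)

/-- WFILL (uses T_WBAS): MSN/WFILL with signs. Removing an ear `x, y, z` with `x ~ z` of the closed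
walk `c` in the link of `v` changes `cval` by `ω v x y + ω v y z - ω v x z = ω x y z` (Cocy); an ear
`x, y, x` changes it by `ω v x y + ω v y x = 0`; for two vertices `cval = 0`. -/
def T_WFILL : Prop := ∀ {V : Type u} {A : Type} [AddCommGroup A] (G : SimpleGraph V)
  (ang : V → V → V → ℝ) (ω : V → V → V → A), Angled G ang → Alt3 ω → Cocy G ω →
  ∀ (v : V) (c : List V), 2 ≤ c.length → CW G c → (∀ x ∈ c, G.Adj v x) →
  clen ang v c < 2 * Real.pi → NullW G ω (c.length - 2) c (cval ω v c)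

/-- WEXP (uses T_WBAS, MSF.T_DISC1): MSN/WEXP with signs. -/
def T_WEXP : Prop := ∀ {V : Type u} {A : Type} [AddCommGroup A] (G : SimpleGraph V)
  (ang : V → V → V → ℝ) (ω : V → V → V → A), Angled G ang → Alt3 ω →
  ∀ (m : ℕ) (D : List (Corner V)) (t : A), DiscW G ang ω m D t →
    NullW G ω m (D.map Corner.v) t ∧
    ∀ (D₁ D₂ : List (Corner V)) (c : Corner V), D = D₁ ++ c :: D₂ →
      ∃ k, NullW G ω k (D₁.map Corner.v ++ (c.F ++ D₂.map Corner.v))
        (t + fval ω c.v (c.p :: (c.F ++ [c.n]))) ∧ k + c.F.length + 1 ≤ m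

/-- WFOR: forget the value of a disc diagram. -/
def T_WFOR : Prop := ∀ {V : Type u} {A : Type} [AddCommGroup A] (G : SimpleGraph V)
  (ang : V → V → V → ℝ) (ω : V → V → V → A) (m : ℕ) (D : List (Corner V)) (t : A),
  DiscW G ang ω m D t → Disc G ang m D

/-- WA3 (uses T_WPEEL, T_WBAS): MSN/WA3 with signs. -/
def T_WA3 : Prop := ∀ {V : Type u} {A : Type} [AddCommGroup A] (G : SimpleGraph V)
  (ω : V → V → V → A), Alt3 ω →
  ∀ (m : ℕ) (a b : V) (l : List V) (x : A), l ≠ [] →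
  MinW G ω m (a :: b :: l) x → IrrW G ω m (a :: b :: l) x →
  ∃ (z : V) (k : ℕ), k + 1 = m ∧ G.Adj a b ∧ G.Adj a z ∧ G.Adj z b ∧
    MinW G ω k (a :: z :: b :: l) (x - ω a b z)

/-- WRED (uses T_WBAS): MSN/WRED with signs. -/
def T_WRED : Prop := ∀ {V : Type u} {A : Type} [AddCommGroup A] (G : SimpleGraph V)
  (ω : V → V → V → A), Alt3 ω →
  ∀ (k : ℕ) (a b z : V) (l : List V) (x : A), l ≠ [] →
  G.Adj a b → G.Adj a z → G.Adj z b →
  MinW G ω (k + 1) (a :: b :: l) (x + ω a b z) → IrrW G ω (k + 1) (a :: b :: l) (x + ω a b z) →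
  MinW G ω k (a :: z :: b :: l) x → ¬ IrrW G ω k (a :: z :: b :: l) x →
  ∃ (l₁ l₂ : List V) (m n : ℕ) (x₁ x₂ : A), l = l₁ ++ z :: l₂ ∧ m + n = k ∧ x₁ + x₂ = x ∧
    MinW G ω m (z :: b :: l₁) x₁ ∧ IrrW G ω m (z :: b :: l₁) x₁ ∧
    MinW G ω n (z :: (l₂ ++ [a])) x₂ ∧ IrrW G ω n (z :: (l₂ ++ [a])) x₂

/-- WANGZ (uses MSF.T_DISC1, T_WBAS, T_WFOR, T_WEXP, T_WFILL, T_WGLUE): MSN/WANGZ with signs. -/
def T_WANGZ : Prop := ∀ {V : Type u} {A : Type} [AddCommGroup A] (G : SimpleGraph V)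
  (ang : V → V → V → ℝ) (ω : V → V → V → A), Angled G ang → Alt3 ω → Cocy G ω →
  ∀ (N : ℕ), SphN G ω N →
  ∀ (k : ℕ) (a b z x y : V) (Fa Fz Fb : List V) (ta tz tb : ℝ) (D : List (Corner V)) (t : A),
  k ≤ N → G.Adj a b → G.Adj a z → G.Adj z b →
  MinW G ω (k + 1) (a :: b :: D.map Corner.v) (t + ω a b z) →
  DiscW G ang ω k (⟨x, a, z, Fa, ta⟩ :: ⟨a, z, b, Fz, tz⟩ :: ⟨z, b, y, Fb, tb⟩ :: D) t →
  2 * Real.pi ≤ tz + ang z b a

/-- WDEX (uses T_WBAS, T_WA3, T_WRED, T_WANGZ, MSF.T_DISC1, T_WFOR): MSN/WDEX with signs. -/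
def T_WDEX : Prop := ∀ {V : Type u} {A : Type} [AddCommGroup A] (G : SimpleGraph V)
  (ang : V → V → V → ℝ) (ω : V → V → V → A), Angled G ang → Alt3 ω → Cocy G ω →
  ∀ (N : ℕ), SphN G ω N →
  ∀ (m : ℕ) (w : List V) (t : A), m ≤ N → 3 ≤ w.length → MinW G ω m w t → IrrW G ω m w t →
  ∃ D : List (Corner V), DiscW G ang ω m D t ∧ D.map Corner.v = w

/-- Uniqueness of the value for pairs of fillings of total area at most `N`. -/
def UnN {V : Type u} {A : Type} [AddCommGroup A] (G : SimpleGraph V) (ω : V → V → V → A)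
    (N : ℕ) : Prop :=
  ∀ (m n : ℕ) (w : List V) (t t' : A), m + n ≤ N → NullW G ω m w t → NullW G ω n w t' → t = t'

/-- WPD (uses T_WBAS, T_WGLUE, T_WFILL, T_WEXP, T_WFOR, T_WDEX, MSF.T_DISC1, MSF.T_DISC2):
MSN/WPD with signs. -/
def T_WPD : Prop := ∀ {V : Type u} {A : Type} [AddCommGroup A] (G : SimpleGraph V)
  (ang : V → V → V → ℝ) (ω : V → V → V → A), Angled G ang → Alt3 ω → Cocy G ω →
  ∀ (M N : ℕ), SphN G ω M →
  UnN G ω N → ∀ (m n : ℕ) (w : List V) (t t' : A), m + n = N + 1 → m ≤ M → n ≤ M →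
  m + n ≤ M + 2 → 3 ≤ w.length → MinW G ω m w t → IrrW G ω m w t → MinW G ω n w t' →
  IrrW G ω n w t' → t = t'

/-- WPAIR (uses T_WBAS, T_WPEEL, T_WGEN, T_WPD): MSN/WPAIR with signs. (In the step for `SphN`,
the filling of `[a, z, b]` from WPEEL has value `x - ω a b z`, and `[a, z, b]` also has the filling of
area `1`, value `ω a z b = - ω a b z`.) -/
def T_WPAIR : Prop := ∀ {V : Type u} {A : Type} [AddCommGroup A] (G : SimpleGraph V)
  (ang : V → V → V → ℝ) (ω : V → V → V → A), Angled G ang → Alt3 ω → Cocy G ω →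
  ∀ (m n : ℕ) (w : List V) (t t' : A), NullW G ω m w t → NullW G ω n w t' → t = t'

/-- WH (uses T_WZIP, T_WBAS): MSN/WH with signs. -/
def T_WH : Prop := ∀ {V : Type u} {A : Type} [AddCommGroup A] (G : SimpleGraph V)
  (ω : V → V → V → A), Alt3 ω → (∀ N, UnN G ω N) →
  ∀ (P Q : List V) (t : A), HW G ω P Q t → ∀ x : A,
    ((∃ m, NullRW G ω m P x) ↔ ∃ m, NullRW G ω m Q (x + t))

/-- UNIQ: closed homotopies have value zero (asphericity). -/
def T_UNIQ : Prop := ∀ {V : Type u} {A : Type} [AddCommGroup A] (G : SimpleGraph V)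
  (ang : V → V → V → ℝ), Angled G ang → ∀ ω : V → V → V → A, Alt3 ω → Cocy G ω →
  ∀ (P : List V) (t : A), P ≠ [] → List.IsChain G.Adj P → HW G ω P P t → t = 0

/-- WUNIQ: MSN/WUNIQ with signs. -/
def T_WUNIQ : Prop := T_WBAS.{u} → T_WPAIR.{u} → T_WH.{u} → T_UNIQ.{u}

end Pool.Agent.MSO
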