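import Pool.Agent.MSO.WDefs

/-!
MSO-WUNIQ: closed homotopies have value zero, from uniqueness of values and transport.
-/

set_option autoImplicit false

namespace Pool.Agent.MSO

open List Pool.Agent.MSF

universe u

namespace WUNIQ

variable {V : Type u} {A : Type} [AddCommGroup A] {G : SimpleGraph V} {ω : V → V → V → A}

theorem ctx (X Y : List V) {P Q : List V} {t : A} (h : HW G ω P Q t) :
    HW G ω (X ++ P ++ Y) (X ++ Q ++ Y) t := by
  induction h with
  | refl P => exact HW.refl _
  | spur p q a b h =>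
    have := HW.spur (G := G) (ω := ω) (X ++ p) (q ++ Y) a b h
    simpa [List.append_assoc] using this
  | tri p q a b c hab hbc hac =>
    have := HW.tri (G := G) (ω := ω) (X ++ p) (q ++ Y) a b c hab hbc hac
    simpa [List.append_assoc] using this
  | symm _ ih => exact HW.symm ih
  | trans _ _ ih1 ih2 => exact HW.trans ih1 ih2

theorem back (P : List V) : ∀ b : V, List.IsChain G.Adj (P ++ [b]) →
    ∃ a, HW G ω [a] (P ++ b :: P.reverse) 0 := by
  induction P using List.reverseRecOn with
  | nil => exact fun b _ => ⟨b, HW.refl _⟩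
  | append_singleton P c ih =>
    intro b hb
    have h1 : List.IsChain G.Adj (P ++ [c]) := by
      rw [List.isChain_append] at hb
      exact hb.1
    have h2 : G.Adj c b := by
      rw [List.isChain_append] at hb
      exact hb.2.2 c (by simp) b (by simp)
    obtain ⟨a, ha⟩ := ih c h1
    refine ⟨a, ?_⟩
    have h3 := HW.trans ha (HW.spur (G := G) (ω := ω) P P.reverse c b h2)
    simpa [List.append_assoc] using h3

theorem uniq (h : T_WPAIR.{u}) (ang : V → V → V → ℝ) (hA : Angled G ang) (hS : Alt3 ω)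
    (hC : Cocy G ω) {m n : ℕ} {P : List V} {x y : A} (hx : NullRW G ω m P x)
    (hy : NullRW G ω n P y) : x = y := by
  rcases hx with ⟨⟨a, rfl⟩, rfl⟩ | ⟨a, l, hl, rfl, hn⟩
  · rcases hy with ⟨-, rfl⟩ | ⟨b, l, hl, h1, -⟩
    · rfl
    · have := congrArg List.length h1
      simp at this
  · rcases hy with ⟨⟨b, h1⟩, rfl⟩ | ⟨b, l', hl', h1, hn'⟩
    · have := congrArg List.length h1
      simp at this
    · rw [List.cons.injEq] at h1
      obtain ⟨rfl, h2⟩ := h1
      have h3 : l = l' := by
        have := List.append_inj_left' h2 rfl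
        exact this
      subst h3
      exact h G ang ω hA hS hC _ _ _ _ _ hn hn'

end WUNIQ

theorem tWUNIQ : T_WUNIQ.{u} := by
  intro _ hP hH V A _ G ang hA ω hS hC P t hP0 hch h
  have hU : ∀ N, UnN G ω N := fun N m n w t t' _ h1 h2 => hP G ang ω hA hS hC m n w t t' h1 h2
  obtain ⟨P', b, rfl⟩ : ∃ P' b, P = P' ++ [b] :=
    ⟨P.dropLast, P.getLast hP0, (List.dropLast_append_getLast hP0).symm⟩
  obtain ⟨a, ha⟩ := WUNIQ.back (ω := ω) P' b hch
  have h1 : HW G ω (P' ++ b :: P'.reverse) (P' ++ b :: P'.reverse) t := by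
    have := WUNIQ.ctx [] P'.reverse h
    simpa [List.append_assoc] using this
  obtain ⟨m, hm⟩ := (hH G ω hS hU _ _ _ ha 0).1 ⟨0, Or.inl ⟨⟨a, rfl⟩, rfl⟩⟩
  obtain ⟨m', hm'⟩ := (hH G ω hS hU _ _ _ h1 (0 + 0)).1 ⟨m, hm⟩
  have := WUNIQ.uniq hP ang hA hS hC hm hm'
  simpa using this.symm

end Pool.Agent.MSO
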